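import Pool.Agent.P.MP_a3f7df_an.F1

/-! Almost periodic matrix functions are bounded, uniformly continuous and have relatively dense
almost periods. -/

open MeasureTheory Set Filter Topology Complex
open scoped ENNReal NNReal Real BoundedContinuousFunction

namespace Pool.Agent.P.MP_a3f7df_an

noncomputable section

lemma IsAP.modulus {g : ℝ → ℂ} (hg : IsAP g) {e : ℝ} (he : 0 < e) :
    ∃ (s : Finset ℝ) (K : ℝ), 0 ≤ K ∧ ∀ τ η : ℝ, (∀ l ∈ s, ‖exp (I * l * τ) - 1‖ ≤ η) →
      ∀ x, ‖g (x + τ) - g x‖ ≤ e + K * η := by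
  obtain ⟨s, c, h⟩ := hg (e / 2) (half_pos he)
  refine ⟨s, ∑ l ∈ s, ‖c l‖, Finset.sum_nonneg fun _ _ => norm_nonneg _, fun τ η hη x => ?_⟩
  have h1 : ‖∑ l ∈ s, c l * exp (I * l * (x + τ : ℝ)) - ∑ l ∈ s, c l * exp (I * l * x)‖ ≤
      (∑ l ∈ s, ‖c l‖) * η := by
    rw [← Finset.sum_sub_distrib, Finset.sum_mul]
    refine (norm_sum_le _ _).trans (Finset.sum_le_sum fun l hl => ?_)
    have h2 : c l * exp (I * l * (x + τ : ℝ)) - c l * exp (I * l * x) =
        c l * (exp (I * (l * x : ℝ)) * (exp (I * l * τ) - 1)) := by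
      push_cast
      rw [mul_add, Complex.exp_add, ← mul_assoc I]
      ring
    rw [h2, norm_mul, norm_mul, Complex.norm_exp_I_mul_ofReal, one_mul]
    exact mul_le_mul_of_nonneg_left (hη l hl) (norm_nonneg _)
  have h3 : g (x + τ) - g x = (g (x + τ) - ∑ l ∈ s, c l * exp (I * l * (x + τ : ℝ))) -
      (g x - ∑ l ∈ s, c l * exp (I * l * x)) +
      (∑ l ∈ s, c l * exp (I * l * (x + τ : ℝ)) - ∑ l ∈ s, c l * exp (I * l * x)) := by ring
  rw [h3]
  refine (norm_add_le _ _).trans (add_le_add ((norm_sub_le _ _).trans ?_) h1)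
  linarith [h (x + τ), h x]

variable {ι : Type} [Fintype ι]

lemma matrix_modulus {G : ι → ι → ℝ →ᵇ ℂ} (hG : ∀ i j, IsAP (G i j)) {e : ℝ} (he : 0 < e) :
    ∃ (s : Finset ℝ) (K : ℝ), 0 < K ∧ ∀ τ η : ℝ, 0 ≤ η → (∀ l ∈ s, ‖exp (I * l * τ) - 1‖ ≤ η) →
      ∀ x, ‖(fun i j => G i j (x + τ)) - fun i j => G i j x‖ ≤ e + K * η := by
  classical
  choose s K hK h using fun q : ι × ι => (hG q.1 q.2).modulus he
  have hsum : 0 ≤ ∑ q, K q := Finset.sum_nonneg fun q _ => hK q
  refine ⟨Finset.univ.biUnion s, ∑ q, K q + 1, by linarith, fun τ η hη0 hη x => ?_⟩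
  have h0 : 0 ≤ e + (∑ q, K q + 1) * η := by positivity
  refine (pi_norm_le_iff_of_nonneg h0).2 fun i => (pi_norm_le_iff_of_nonneg h0).2 fun j => ?_
  refine (h (i, j) τ η (fun l hl => hη l (Finset.mem_biUnion.2 ⟨_, Finset.mem_univ _, hl⟩)) x).trans ?_
  have := Finset.single_le_sum (fun q _ => hK q) (Finset.mem_univ (i, j))
  gcongr
  linarith

theorem good_of_isAP {G : ι → ι → ℝ →ᵇ ℂ} (hG : ∀ i j, IsAP (G i j)) :
    Good (fun t i j => G i j t) := by
  refine ⟨?_, ⟨‖G‖ₑ, enorm_ne_top, fun x => ?_⟩, fun e he => ?_⟩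
  · rw [Metric.uniformContinuous_iff_le]
    intro e he
    obtain ⟨s, K, hK, h⟩ := matrix_modulus hG (half_pos he)
    have hsum : 0 ≤ ∑ l ∈ s, |l| := Finset.sum_nonneg fun _ _ => abs_nonneg _
    refine ⟨e / 2 / K / (∑ l ∈ s, |l| + 1), by positivity, fun {a b} hab => ?_⟩
    have h1 := h (a - b) (e / 2 / K) (by positivity) (fun l hl => ?_) b
    · rw [add_sub_cancel, mul_div_cancel₀ _ hK.ne', add_halves] at h1
      rwa [dist_eq_norm]
    · have h2 : (I * l * (a - b : ℝ) : ℂ) = I * (l * (a - b) : ℝ) := by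
        push_cast
        ring
      rw [h2]
      refine Real.norm_exp_I_mul_ofReal_sub_one_le.trans ?_
      rw [Real.norm_eq_abs, abs_mul]
      rw [Real.dist_eq, le_div_iff₀ (by linarith)] at hab
      have h3 := Finset.single_le_sum (f := fun l : ℝ => |l|) (fun _ _ => abs_nonneg _) hl
      nlinarith [abs_nonneg (a - b), abs_nonneg l]
  · rw [← ofReal_norm, ← ofReal_norm]
    refine ENNReal.ofReal_le_ofReal ((pi_norm_le_iff_of_nonneg (norm_nonneg _)).2 fun i =>
      (pi_norm_le_iff_of_nonneg (norm_nonneg _)).2 fun j => ?_)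
    exact ((G i j).norm_coe_le_norm x).trans ((norm_le_pi_norm (G i) j).trans (norm_le_pi_norm G i))
  · obtain ⟨s, K, hK, h⟩ := matrix_modulus hG (half_pos he)
    set E : ℝ → s → ℂ := fun a l => exp (I * l.1 * a) with hE
    have hnorm : ∀ (l a : ℝ), ‖exp (I * l * a)‖ = 1 := fun l a => by
      rw [mul_assoc, ← Complex.ofReal_mul, Complex.norm_exp_I_mul_ofReal]
    have htb : TotallyBounded (range E) := by
      refine (isCompact_closedBall (0 : s → ℂ) 1).totallyBounded.subset ?_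
      rintro _ ⟨a, rfl⟩
      rw [mem_closedBall_zero_iff]
      exact (pi_norm_le_iff_of_nonneg zero_le_one).2 fun l => (hnorm _ _).le
    obtain ⟨t, ht1, ht2, ht3⟩ := Metric.finite_approx_of_totallyBounded htb (e / 2 / K)
      (by positivity)
    choose! b hb using fun y (hy : y ∈ t) => ht1 hy
    obtain ⟨L, hL⟩ := (ht2.image fun y => |b y|).bddAbove
    refine ⟨max L 1, by positivity, fun a => ?_⟩
    obtain ⟨y, hy, hy'⟩ := mem_iUnion₂.1 (ht3 ⟨a, rfl⟩)
    refine ⟨a - b y, ?_, fun x => ?_⟩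
    · rw [sub_sub_cancel]
      exact (hL ⟨y, hy, rfl⟩).trans (le_max_left _ _)
    · have h1 := h (a - b y) (e / 2 / K) (by positivity) (fun l hl => ?_) x
      · rwa [mul_div_cancel₀ _ hK.ne', add_halves] at h1
      · rw [← hb y hy, mem_ball_iff_norm] at hy'
        have h2 := (norm_le_pi_norm _ (⟨l, hl⟩ : s)).trans hy'.le
        have h3 : (E a - E (b y)) ⟨l, hl⟩ =
            exp (I * l * b y) * (exp (I * l * (a - b y : ℝ)) - 1) := by
          simp only [hE, Pi.sub_apply]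
          rw [mul_sub, ← Complex.exp_add, mul_one]
          congr 2
          push_cast
          ring
        rwa [h3, norm_mul, hnorm, one_mul] at h2

end

end Pool.Agent.P.MP_a3f7df_an
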