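import Pool.Agent.P.MP_a3f7df_an.R3

/-! The dual of `L^p` of the line, and the decomposition of `L^p` into Hardy classes. -/

open MeasureTheory Set Filter Topology Complex
open scoped ENNReal NNReal Real

namespace Pool.Agent.P.MP_a3f7df_an

noncomputable section

lemma tendsto_nrm_of_dominated {α : Type*} {l : Filter α} [l.IsCountablyGenerated] {s : ℝ}
    (hs : 0 < s) {F : α → ℝ → ℝ≥0∞} (hF : ∀ i, Measurable (F i)) {b : ℝ → ℝ≥0∞}
    (hb : nrm s b ≠ ∞) (hle : ∀ i x, F i x ≤ b x)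
    (hlim : ∀ x, Tendsto (fun i => F i x) l (𝓝 0)) :
    Tendsto (fun i => nrm s (F i)) l (𝓝 0) := by
  refine tendsto_nrm_zero hs ?_
  have := tendsto_lintegral_filter_of_dominated_convergence (μ := volume) (l := l)
    (F := fun i x => F i x ^ s) (f := fun _ => 0) (fun x => b x ^ s)
    (Eventually.of_forall fun i => (hF i).pow_const s)
    (Eventually.of_forall fun i => Eventually.of_forall fun x =>
      ENNReal.rpow_le_rpow (hle i x) hs.le) ((nrm_ne_top_iff hs b).1 hb)
    (Eventually.of_forall fun x => ?_)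
  · simpa using this
  · have h1 := (ENNReal.continuous_rpow_const (y := s)).continuousAt.tendsto.comp (hlim x)
    rwa [ENNReal.zero_rpow_of_pos hs] at h1

variable {p : ℝ≥0∞}

lemma one_lt_toReal (h1 : 1 < p) (h2 : p ≠ ∞) : 1 < p.toReal := by
  simpa using (ENNReal.toReal_lt_toReal ENNReal.one_ne_top h2).2 h1

lemma ne_zero_of_one_lt (h1 : 1 < p) : p ≠ 0 := (zero_lt_one.trans h1).ne'

variable [Fact (1 ≤ p)]

open Classical in
/-- Evaluation of a functional on `L^p` at a function. -/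
def ev (φ : Lp ℂ p (volume : Measure ℝ) →L[ℂ] ℂ) (f : ℝ → ℂ) : ℂ :=
  if h : MemLp f p volume then φ (h.toLp f) else 0

lemma ev_eq (φ : Lp ℂ p (volume : Measure ℝ) →L[ℂ] ℂ) {f : ℝ → ℂ} (h : MemLp f p volume) :
    ev φ f = φ (h.toLp f) := dif_pos h

lemma ev_coe (φ : Lp ℂ p (volume : Measure ℝ) →L[ℂ] ℂ) (f : Lp ℂ p (volume : Measure ℝ)) :
    ev φ f = φ f := by
  rw [ev_eq φ (Lp.memLp f), Lp.toLp_coeFn]

lemma ev_add (φ : Lp ℂ p (volume : Measure ℝ) →L[ℂ] ℂ) {f g : ℝ → ℂ} (hf : MemLp f p volume)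
    (hg : MemLp g p volume) : ev φ (fun x => f x + g x) = ev φ f + ev φ g := by
  rw [ev_eq φ hf, ev_eq φ hg, ← map_add, ← MemLp.toLp_add]
  exact ev_eq φ (hf.add hg)

lemma ev_smul (φ : Lp ℂ p (volume : Measure ℝ) →L[ℂ] ℂ) {f : ℝ → ℂ} (hf : MemLp f p volume)
    (c : ℂ) : ev φ (fun x => c * f x) = c * ev φ f := by
  rw [ev_eq φ hf, ← smul_eq_mul, ← map_smul, ← MemLp.toLp_const_smul]
  exact ev_eq φ (hf.const_smul c)

lemma enorm_ev_sub_le (h1 : 1 < p) (h2 : p ≠ ∞) (φ : Lp ℂ p (volume : Measure ℝ) →L[ℂ] ℂ)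
    {f g : ℝ → ℂ} (hf : InL p.toReal f) (hg : InL p.toReal g) :
    ‖ev φ f - ev φ g‖ₑ ≤ ‖φ‖ₑ * nrm p.toReal (fun x => ‖f x - g x‖ₑ) := by
  have h0 := ne_zero_of_one_lt h1
  rw [ev_eq φ (hf.memLp h0 h2), ev_eq φ (hg.memLp h0 h2), ← map_sub, ← MemLp.toLp_sub]
  refine (φ.le_opENorm _).trans (le_of_eq ?_)
  rw [Lp.enorm_toLp, eLpNorm_eq_nrm h0 h2]
  rfl

lemma ev_zero (φ : Lp ℂ p (volume : Measure ℝ) →L[ℂ] ℂ) : ev φ (fun _ => 0) = 0 := by
  have := ev_smul φ (f := fun _ => 0) MemLp.zero' 0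
  simpa using this

lemma tendsto_ev (h1 : 1 < p) (h2 : p ≠ ∞) (φ : Lp ℂ p (volume : Measure ℝ) →L[ℂ] ℂ)
    {α : Type*} {l : Filter α} {F : α → ℝ → ℂ} {f : ℝ → ℂ} (hF : ∀ i, InL p.toReal (F i))
    (hf : InL p.toReal f)
    (h : Tendsto (fun i => nrm p.toReal (fun x => ‖F i x - f x‖ₑ)) l (𝓝 0)) :
    Tendsto (fun i => ev φ (F i)) l (𝓝 (ev φ f)) := by
  rw [tendsto_iff_enorm_sub_tendsto_zero]
  have h3 := ENNReal.Tendsto.const_mul h (Or.inr (enorm_ne_top (x := φ)))
  rw [mul_zero] at h3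
  exact tendsto_of_tendsto_of_tendsto_of_le_of_le tendsto_const_nhds h3 (fun _ => zero_le)
    fun i => enorm_ev_sub_le h1 h2 φ (hF i) hf

lemma exists_density (h1 : 1 < p) (h2 : p ≠ ∞) (φ : Lp ℂ p (volume : Measure ℝ) →L[ℂ] ℂ)
    {w : ℝ → ℂ} (hw : InL p.toReal w) : ∃ κ : ℝ → ℂ, Measurable κ ∧ Integrable κ ∧
      ∀ S, MeasurableSet S → ev φ (S.indicator w) = ∫ x in S, κ x := by
  classical
  have h0 := ne_zero_of_one_lt h1
  have hs := one_lt_toReal h1 h2
  have hs0 : 0 < p.toReal := one_pos.trans hs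
  have hind : ∀ S, MeasurableSet S → InL p.toReal (S.indicator w) := fun S hS =>
    hw.of_le hs0 (hw.1.indicator hS) ENNReal.one_ne_top fun x => by
      rw [one_mul]
      exact enorm_indicator_le_enorm_self w x
  have hfin : ∀ (f : ℕ → Set ℝ), (∀ i, MeasurableSet (f i)) →
      Pairwise (Function.onFun Disjoint f) → ∀ T : Finset ℕ,
      ∑ i ∈ T, ev φ ((f i).indicator w) = ev φ ((⋃ i ∈ T, f i).indicator w) := by
    intro f hf hd T
    induction T using Finset.induction_on with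
    | empty => simp [ev_zero]
    | insert i T hi ih =>
      have hm : MeasurableSet (⋃ j ∈ T, f j) := Finset.measurableSet_biUnion _ fun j _ => hf j
      rw [Finset.sum_insert hi, ih, Finset.set_biUnion_insert, indicator_union_of_disjoint,
        ev_add φ ((hind _ (hf i)).memLp h0 h2) ((hind _ hm).memLp h0 h2)]
      rw [disjoint_iUnion₂_right]
      intro j hj
      exact hd (by rintro rfl; exact hi hj)
  let c : ComplexMeasure ℝ :=
    { measureOf' := fun S => if MeasurableSet S then ev φ (S.indicator w) else 0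
      empty' := by simp [ev_zero]
      not_measurable' := fun S hS => if_neg hS
      m_iUnion' := fun f hf hd => by
        simp only [hf, MeasurableSet.iUnion hf, if_true]
        rw [HasSum]
        simp only [hfin f hf hd]
        refine tendsto_ev h1 h2 φ
          (fun T => hind _ (Finset.measurableSet_biUnion _ fun j _ => hf j))
          (hind _ (MeasurableSet.iUnion hf)) ?_
        refine tendsto_nrm_of_dominated hs0 (fun T => ?_) hw.2 (fun T x => ?_) fun x => ?_
        · exact ((hind _ (Finset.measurableSet_biUnion _ fun j _ => hf j)).1.sub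
            (hind _ (MeasurableSet.iUnion hf)).1).enorm
        · by_cases hx : x ∈ ⋃ i ∈ T, f i
          · have hx' : x ∈ ⋃ i, f i := by
              obtain ⟨i, -, hi⟩ := mem_iUnion₂.1 hx
              exact mem_iUnion.2 ⟨i, hi⟩
            simp [indicator_of_mem hx, indicator_of_mem hx']
          · rw [indicator_of_notMem hx, zero_sub, enorm_neg]
            exact enorm_indicator_le_enorm_self w x
        · refine tendsto_const_nhds.congr' ?_
          by_cases hx : x ∈ ⋃ i, f i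
          · obtain ⟨i, hi⟩ := mem_iUnion.1 hx
            filter_upwards [eventually_ge_atTop ({i} : Finset ℕ)] with T hT
            have hx' : x ∈ ⋃ i ∈ T, f i :=
              mem_iUnion₂.2 ⟨i, hT (Finset.mem_singleton_self i), hi⟩
            simp [indicator_of_mem hx, indicator_of_mem hx']
          · refine Eventually.of_forall fun T => ?_
            have hx' : x ∉ ⋃ i ∈ T, f i := fun h => by
              obtain ⟨i, -, hi⟩ := mem_iUnion₂.1 h
              exact hx (mem_iUnion.2 ⟨i, hi⟩)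
            simp [indicator_of_notMem hx, indicator_of_notMem hx'] }
  have hc : ∀ S, MeasurableSet S → c S = ev φ (S.indicator w) := fun S hS => if_pos hS
  have hac : c ≪ᵥ (volume : Measure ℝ).toENNRealVectorMeasure := by
    refine VectorMeasure.AbsolutelyContinuous.mk fun S hS hS0 => ?_
    rw [Measure.toENNRealVectorMeasure_apply_measurable hS] at hS0
    have h3 := enorm_ev_sub_le h1 h2 φ (hind S hS) (InL.zero hs0)
    have h4 : nrm p.toReal (fun x => ‖S.indicator w x - 0‖ₑ) = 0 := by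
      rw [← nrm_zero hs0]
      refine nrm_congr_ae ?_
      filter_upwards [measure_eq_zero_iff_ae_notMem.1 hS0] with x hx
      simp [indicator_of_notMem hx]
    rw [h4, mul_zero, ev_zero, sub_zero] at h3
    rw [hc S hS]
    simpa using h3
  obtain ⟨hre, him⟩ := (c.absolutelyContinuous_ennreal_iff _).1 hac
  have e1 := SignedMeasure.withDensityᵥ_rnDeriv_eq _ _ hre
  have e2 := SignedMeasure.withDensityᵥ_rnDeriv_eq _ _ him
  have i1 := SignedMeasure.integrable_rnDeriv (ComplexMeasure.re c) volume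
  have i2 := SignedMeasure.integrable_rnDeriv (ComplexMeasure.im c) volume
  have m1 := SignedMeasure.measurable_rnDeriv (ComplexMeasure.re c) volume
  have m2 := SignedMeasure.measurable_rnDeriv (ComplexMeasure.im c) volume
  refine ⟨fun x => ((ComplexMeasure.re c).rnDeriv volume x : ℂ) +
    ((ComplexMeasure.im c).rnDeriv volume x : ℂ) * I, by fun_prop,
    i1.ofReal.add (i2.ofReal.mul_const I), fun S hS => ?_⟩
  have j1 : Integrable (fun x => ((ComplexMeasure.re c).rnDeriv volume x : ℂ))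
      (volume.restrict S) := i1.ofReal.integrableOn
  have j2 : Integrable (fun x => ((ComplexMeasure.im c).rnDeriv volume x : ℂ) * I)
      (volume.restrict S) := (i2.ofReal.mul_const I).integrableOn
  beta_reduce
  rw [integral_add j1 j2, integral_mul_const, integral_complex_ofReal, integral_complex_ofReal,
    ← withDensityᵥ_apply i1 hS, ← withDensityᵥ_apply i2 hS, e1, e2, ← hc S hS]
  exact (Complex.re_add_im _).symm

/-- **Duality of `L^p`** on the line. -/
theorem Lp_dual (h1 : 1 < p) (h2 : p ≠ ∞) {s' : ℝ} (hc : p.toReal.HolderConjugate s')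
    (φ : Lp ℂ p (volume : Measure ℝ) →L[ℂ] ℂ) :
    ∃ k : ℝ → ℂ, InL s' k ∧ ∀ f : Lp ℂ p (volume : Measure ℝ), φ f = ∫ x, k x * f x := by
  have h0 := ne_zero_of_one_lt h1
  have hs := one_lt_toReal h1 h2
  have hs0 : 0 < p.toReal := one_pos.trans hs
  have hI : (I : ℂ).im ≠ 0 := by simp
  have hw := InL_ker hI hs
  obtain ⟨κ, hκm, hκi, hκ⟩ := exists_density h1 h2 φ hw
  have hbd : ∀ g : ℝ → ℂ, Measurable g → ∀ c : ℝ, (∀ x, ‖g x‖ ≤ c) →
      InL p.toReal (fun x => g x * ker I x) ∧ Integrable (fun x => g x * κ x) := by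
    intro g hg c hgc
    refine ⟨hw.of_le hs0 (hg.mul (ker_measurable I)).stronglyMeasurable
      (C := ENNReal.ofReal c) ENNReal.ofReal_ne_top fun x => ?_,
      hκi.bdd_mul hg.aestronglyMeasurable (Eventually.of_forall hgc)⟩
    rw [enorm_mul, ← ofReal_norm (g x)]
    exact mul_le_mul_left (ENNReal.ofReal_le_ofReal (hgc x)) _
  have hsimple : ∀ g : SimpleFunc ℝ ℂ, ev φ (fun x => g x * ker I x) = ∫ x, g x * κ x := by
    intro g
    induction g using SimpleFunc.induction with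
    | @const c S hS =>
      have e1 : (fun x => (SimpleFunc.piecewise S hS (SimpleFunc.const ℝ c)
          (SimpleFunc.const ℝ 0)) x * ker I x) = fun x => c * S.indicator (ker I) x := by
        ext x
        by_cases hx : x ∈ S <;> simp [hx]
      have e2 : (fun x => (SimpleFunc.piecewise S hS (SimpleFunc.const ℝ c)
          (SimpleFunc.const ℝ 0)) x * κ x) = fun x => c * S.indicator κ x := by
        ext x
        by_cases hx : x ∈ S <;> simp [hx]
      rw [e1, e2, ev_smul φ ((hw.memLp h0 h2).indicator hS), hκ S hS, integral_const_mul,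
        integral_indicator hS]
    | @add f g _ hf hg =>
      obtain ⟨a, ha⟩ := f.exists_forall_norm_le
      obtain ⟨b, hb⟩ := g.exists_forall_norm_le
      obtain ⟨f1, f2⟩ := hbd f f.measurable a ha
      obtain ⟨g1, g2⟩ := hbd g g.measurable b hb
      simp only [SimpleFunc.coe_add, Pi.add_apply, add_mul]
      rw [ev_add φ (f1.memLp h0 h2) (g1.memLp h0 h2), integral_add f2 g2, hf, hg]
  have hbdd : ∀ g : ℝ → ℂ, Measurable g → ∀ c : ℝ, (∀ x, ‖g x‖ ≤ c) →
      ev φ (fun x => g x * ker I x) = ∫ x, g x * κ x := by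
    intro g hg c hgc
    have hc0 : 0 ≤ c := (norm_nonneg _).trans (hgc 0)
    have hsm := hg.stronglyMeasurable
    have hb := hsm.norm_approxBounded_le hc0
    have hl := fun x => hsm.tendsto_approxBounded_of_norm_le (hgc x)
    have t1 : Tendsto (fun n => ev φ (fun x => hsm.approxBounded c n x * ker I x)) atTop
        (𝓝 (ev φ (fun x => g x * ker I x))) := by
      refine tendsto_ev h1 h2 φ (fun n => (hbd _ (SimpleFunc.measurable _) c (hb n)).1)
        (hbd g hg c hgc).1 ?_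
      refine tendsto_nrm_of_dominated hs0 (b := fun x => ENNReal.ofReal (c + c) * ‖ker I x‖ₑ)
        (fun n => ?_) ?_ (fun n x => ?_) fun x => ?_
      · exact (((SimpleFunc.measurable _).mul (ker_measurable I)).sub
          (hg.mul (ker_measurable I))).enorm
      · rw [nrm_const_mul hs0 ENNReal.ofReal_ne_top]
        exact ENNReal.mul_ne_top ENNReal.ofReal_ne_top hw.2
      · rw [← sub_mul, enorm_mul, ← ofReal_norm]
        exact mul_le_mul_left (ENNReal.ofReal_le_ofReal ((norm_sub_le _ _).trans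
          (add_le_add (hb n x) (hgc x)))) _
      · exact tendsto_iff_enorm_sub_tendsto_zero.1 ((hl x).mul_const _)
    have t2 : Tendsto (fun n => ∫ x, hsm.approxBounded c n x * κ x) atTop
        (𝓝 (∫ x, g x * κ x)) := by
      refine tendsto_integral_of_dominated_convergence (fun x => c * ‖κ x‖)
        (fun n => ((SimpleFunc.measurable _).mul hκm).aestronglyMeasurable)
        (hκi.norm.const_mul c) (fun n => Eventually.of_forall fun x => ?_)
        (Eventually.of_forall fun x => (hl x).mul_const _)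
      rw [norm_mul]
      exact mul_le_mul_of_nonneg_right (hb n x) (norm_nonneg _)
    simp only [hsimple] at t1
    exact tendsto_nhds_unique t1 t2
  set k : ℝ → ℂ := fun x => ((x : ℂ) - I) * κ x with hk
  have hkm : Measurable k := by fun_prop
  have hnice : ∀ g, Nice g → ev φ g = ∫ x, g x * k x := by
    rintro g ⟨hg, n, hn1, hn2⟩
    have hn0 : 0 ≤ n := (norm_nonneg _).trans (hn1 0)
    have := hbdd (fun x => g x * ((x : ℂ) - I)) (by fun_prop) (n * (n + 1)) fun x => by
      by_cases hx : n < |x|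
      · rw [hn2 x hx, zero_mul, norm_zero]
        positivity
      · rw [norm_mul]
        refine mul_le_mul (hn1 x) ((norm_sub_le _ _).trans ?_) (norm_nonneg _) hn0
        rw [Complex.norm_real, Complex.norm_I, Real.norm_eq_abs]
        linarith [not_lt.1 hx]
    simp only [mul_assoc] at this
    rw [← this]
    congr 1
    ext x
    rw [ker, mul_inv_cancel₀ (sub_ne hI x), mul_one]
  have hkn : nrm s' (fun x => ‖k x‖ₑ) ≤ ‖φ‖ₑ := by
    refine norming hc.symm hkm fun g hg _ => ?_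
    have := enorm_ev_sub_le h1 h2 φ (hg.inL hs0) (InL.zero hs0)
    rw [ev_zero, sub_zero, hnice g hg] at this
    simpa using this
  have hkL : InL s' k := ⟨hkm.stronglyMeasurable, ne_top_of_le_ne_top enorm_ne_top hkn⟩
  refine ⟨k, hkL, fun f => ?_⟩
  rw [← ev_coe, ← sub_eq_zero]
  refine ext_nice hs0 (Λ := fun g => ev φ g - ∫ x, k x * g x) (K := ‖φ‖ₑ + ‖φ‖ₑ) (by finiteness)
    (fun f g hf hg => ?_) (fun g hg => ?_) (InL_Lp h0 h2 f)
  · rw [sub_sub_sub_comm, add_mul, ← integral_sub (integrable_mul_of_InL hc hkL hf)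
      (integrable_mul_of_InL hc hkL hg)]
    refine enorm_sub_le.trans (add_le_add (enorm_ev_sub_le h1 h2 φ hf hg) ?_)
    simp_rw [← mul_sub]
    exact (enorm_integral_mul_le hc hkL.1 (hf.1.sub hg.1)).trans (mul_le_mul_left hkn _)
  · rw [hnice g hg]
    simp [mul_comm]

lemma continuous_Cau_Lp (h1 : 1 < p) (h2 : p ≠ ∞) {z : ℂ} (hz : z.im ≠ 0) :
    Continuous fun f : Lp ℂ p (volume : Measure ℝ) => Cau f z := by
  have h0 := ne_zero_of_one_lt h1
  have hs := one_lt_toReal h1 h2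
  have hc := conj_of_one_lt hs
  have hk := InL_ker hz hc.symm.lt
  refine LipschitzWith.continuous (K := (nrm (Real.conjExponent p.toReal)
    fun t => ‖ker z t‖ₑ).toNNReal) fun f g => ?_
  rw [ENNReal.coe_toNNReal hk.2, edist_eq_enorm_sub, edist_eq_enorm_sub, ← Cau_sub ((InL_Lp h0 h2 f).loc hs)
    ((InL_Lp h0 h2 g).loc hs) hz, enorm_Lp h0 h2]
  refine (enorm_integral_smul_le hc hk.1 ((InL_Lp h0 h2 f).1.sub (InL_Lp h0 h2 g).1)).trans
    (le_of_eq ?_)
  congr 1
  refine nrm_congr_ae ?_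
  filter_upwards [Lp.coeFn_sub f g] with x hx using by rw [hx]

lemma isClosed_of_Ann (h1 : 1 < p) (h2 : p ≠ ∞) {ε : ℝ}
    {H : Submodule ℂ (Lp ℂ p (volume : Measure ℝ))} (hH : ∀ f, f ∈ H ↔ Ann ε f) :
    IsClosed (H : Set (Lp ℂ p (volume : Measure ℝ))) := by
  have : (H : Set (Lp ℂ p (volume : Measure ℝ))) =
      ⋂ z : ℂ, ⋂ _ : 0 < ε * z.im, {f : Lp ℂ p (volume : Measure ℝ) | Cau f z = 0} := by
    ext f
    simp only [SetLike.mem_coe, hH, mem_iInter, mem_ofPred_eq]
    rfl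
  rw [this]
  exact isClosed_iInter fun z => isClosed_iInter fun hz =>
    isClosed_eq (continuous_Cau_Lp h1 h2 (ne_of_sign hz)) continuous_const

/-- `L^p` is the topological direct sum of the two Hardy classes. -/
theorem isTopCompl_of_Ann (h1 : 1 < p) (h2 : p ≠ ∞) {ε : ℝ} (hε : ε * ε = 1)
    {H₁ H₂ : Submodule ℂ (Lp ℂ p (volume : Measure ℝ))} (hH₁ : ∀ f, f ∈ H₁ ↔ Ann ε f)
    (hH₂ : ∀ f, f ∈ H₂ ↔ Ann (-ε) f) : Submodule.IsTopCompl H₁ H₂ := by
  have h0 := ne_zero_of_one_lt h1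
  have hs := one_lt_toReal h1 h2
  have hs0 : 0 < p.toReal := one_pos.trans hs
  have hε' : -ε * -ε = 1 := by simpa using hε
  have c₁ := isClosed_of_Ann h1 h2 hH₁
  have c₂ := isClosed_of_Ann h1 h2 hH₂
  obtain ⟨C, hC, hRI⟩ := RI_scalar hs
  have hb : ∀ f ∈ H₁, ∀ g ∈ H₂, ‖f‖ₑ ≤ C * ‖f + g‖ₑ ∧ ‖g‖ₑ ≤ C * ‖f + g‖ₑ := by
    intro f hf g hg
    have e : ‖f + g‖ₑ = nrm p.toReal (fun x => ‖f x + g x‖ₑ) := by
      rw [enorm_Lp h0 h2]
      refine nrm_congr_ae ?_
      filter_upwards [Lp.coeFn_add f g] with x hx using by rw [hx]; rfl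
    rw [e, enorm_Lp h0 h2, enorm_Lp h0 h2]
    refine ⟨?_, hRI ε hε _ _ (InL_Lp h0 h2 f) (InL_Lp h0 h2 g) ((hH₁ f).1 hf) ((hH₂ g).1 hg)⟩
    simpa only [add_comm] using hRI (-ε) hε' _ _ (InL_Lp h0 h2 g) (InL_Lp h0 h2 f) ((hH₂ g).1 hg)
      (by rw [neg_neg]; exact (hH₁ f).1 hf)
  refine Submodule.IsCompl.isTopCompl_of_isClosed ⟨?_, ?_⟩ c₁ c₂
  · rw [Submodule.disjoint_def]
    intro f hf hg
    simpa using (hb f hf (-f) (H₂.neg_mem hg)).1
  · have := c₁.completeSpace_coe
    have := c₂.completeSpace_coe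
    have hcl : IsClosed ((H₁ ⊔ H₂ : Submodule ℂ _) : Set (Lp ℂ p (volume : Measure ℝ))) := by
      have hanti : AntilipschitzWith C.toNNReal (H₁.subtypeL.coprod H₂.subtypeL) := by
        refine ContinuousLinearMap.antilipschitz_of_bound _ fun x => ?_
        obtain ⟨b1, b2⟩ := hb x.1 x.1.2 x.2 x.2.2
        have hconv : ∀ u v : Lp ℂ p (volume : Measure ℝ), ‖u‖ₑ ≤ C * ‖v‖ₑ →
            ‖u‖ ≤ C.toNNReal * ‖v‖ := fun u v h => by
          have := ENNReal.toReal_mono (ENNReal.mul_ne_top hC enorm_ne_top) h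
          rwa [ENNReal.toReal_mul, toReal_enorm, toReal_enorm] at this
        exact norm_prod_le_iff.2 ⟨hconv _ _ b1, hconv _ _ b2⟩
      have h3 := hanti.isClosed_range (ContinuousLinearMap.uniformContinuous _)
      convert h3 using 1
      ext f
      simp only [SetLike.mem_coe, Submodule.mem_sup, mem_range, ContinuousLinearMap.coprod_apply,
        Submodule.subtypeL_apply, Prod.exists, Subtype.exists, exists_prop]
    rw [codisjoint_iff, eq_top_iff]
    intro f _
    have hf := InL_Lp h0 h2 f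
    have hmem : ∀ y, (hy : 0 < y) → ((hf.pois hs hy).memLp h0 h2).toLp _ ∈ H₁ ⊔ H₂ := by
      intro y hy
      have j₁ := (hf.cau hs (mul_ne_zero (eps_ne hε') hy.ne')).const_smul hs0
        (-(2 * π * I * ε : ℂ)⁻¹)
      have j₂ := (hf.cau hs (mul_ne_zero (eps_ne hε) hy.ne')).const_smul hs0
        (2 * π * I * ε : ℂ)⁻¹
      refine Submodule.mem_sup.2 ⟨(j₁.memLp h0 h2).toLp _, (hH₁ _).2 ?_, (j₂.memLp h0 h2).toLp _,
        (hH₂ _).2 ?_, ?_⟩
      · have := (Ann_Cau hε' hs hf hy).const_smul (-(2 * π * I * ε : ℂ)⁻¹)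
        rw [neg_neg] at this
        exact this.congr_ae (MemLp.coeFn_toLp _).symm
      · exact ((Ann_Cau hε hs hf hy).const_smul _).congr_ae (MemLp.coeFn_toLp _).symm
      · rw [← MemLp.toLp_add]
        congr 1
        ext x
        have := Cau_jump hε (hf.loc hs) hy x
        simp only [Pi.add_apply, smul_eq_mul] at this ⊢
        rw [neg_mul, neg_add_eq_sub, ← mul_sub, this, ← mul_assoc,
          inv_mul_cancel₀ (twoPiI_ne hε), one_mul]
    refine hcl.closure_subset (EMetric.mem_closure_iff.2 fun e he => ?_)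
    obtain ⟨y, hy1, hy⟩ := (((tendsto_Pois hs hf).eventually (gt_mem_nhds he)).and
      self_mem_nhdsWithin).exists
    refine ⟨_, hmem y hy, lt_of_le_of_lt (le_of_eq ?_) hy1⟩
    rw [edist_comm, edist_eq_enorm_sub, enorm_Lp h0 h2]
    refine nrm_congr_ae ?_
    filter_upwards [Lp.coeFn_sub (((hf.pois hs hy).memLp h0 h2).toLp _) f,
      ((hf.pois hs hy).memLp h0 h2).coeFn_toLp] with x hx hx'
    rw [hx, Pi.sub_apply, hx']

/-- The Hardy class, described by the annihilation condition. -/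
def HA (h1 : 1 < p) (h2 : p ≠ ∞) (ε : ℝ) : Submodule ℂ (Lp ℂ p (volume : Measure ℝ)) where
  carrier := {f | Ann ε f}
  add_mem' := fun {f g} hf hg =>
    (Ann.add ((InL_Lp (ne_zero_of_one_lt h1) h2 f).loc (one_lt_toReal h1 h2))
      ((InL_Lp (ne_zero_of_one_lt h1) h2 g).loc (one_lt_toReal h1 h2)) hf hg).congr_ae
      (Lp.coeFn_add f g).symm
  zero_mem' := (Ann.zero ε).congr_ae (Lp.coeFn_zero ℂ p volume).symm
  smul_mem' := fun c f hf => (Ann.const_smul hf c).congr_ae (Lp.coeFn_smul c f).symm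

omit [Fact (1 ≤ p)] in
theorem decomp {ε : ℝ} (hε : ε * ε = 1) {s : ℝ} (hs : 1 < s) {f : ℝ → ℂ} (hf : InL s f) :
    ∃ g : ℝ → ℂ, InL s g ∧ Ann ε g ∧ Ann (-ε) (fun x => f x - g x) := by
  have hs0 : 0 < s := one_pos.trans hs
  set p := ENNReal.ofReal s with hp
  have hps : p.toReal = s := ENNReal.toReal_ofReal hs0.le
  have h1 : 1 < p := by simpa [hp] using hs
  have h0 := ne_zero_of_one_lt h1
  have h2 : p ≠ ∞ := ENNReal.ofReal_ne_top
  have : Fact (1 ≤ p) := ⟨h1.le⟩
  have hm : MemLp f p volume := InL.memLp h0 h2 (hps.symm ▸ hf)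
  have hc := isTopCompl_of_Ann h1 h2 hε (H₁ := HA h1 h2 ε) (H₂ := HA h1 h2 (-ε))
    (fun _ => Iff.rfl) (fun _ => Iff.rfl)
  have hmem : hm.toLp f ∈ HA h1 h2 ε ⊔ HA h1 h2 (-ε) := by
    rw [hc.isCompl.sup_eq_top]
    trivial
  obtain ⟨g, hg, k, hk, hgk⟩ := Submodule.mem_sup.1 hmem
  refine ⟨g, hps ▸ InL_Lp h0 h2 g, hg, Ann.congr_ae hk ?_⟩
  filter_upwards [Lp.coeFn_add g k, hm.coeFn_toLp] with x hx hx'
  rw [← hx', ← hgk, hx]
  simp

end

end Pool.Agent.P.MP_a3f7df_an
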