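import Mathlib

/-! Definitions: almost periodic functions, Hardy spaces of half-planes, semi-Fredholm operators. -/

open MeasureTheory Filter Topology
open scoped ENNReal

namespace Pool.Agent.P.MP_a3f7df_an

/-- `g` is almost periodic: a uniform limit of finite sums `∑ c_j exp (i λ_j t)`. -/
def IsAP (g : ℝ → ℂ) : Prop :=
  ∀ e : ℝ, 0 < e → ∃ (s : Finset ℝ) (c : ℝ → ℂ), ∀ t : ℝ,
    ‖g t - ∑ l ∈ s, c l * Complex.exp (Complex.I * l * t)‖ ≤ e

lemma slice_aestronglyMeasurable {σ : ℝ} {F : ℂ → ℂ}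
    (hF : DifferentiableOn ℂ F {z | 0 < σ * z.im}) {y : ℝ} (hy : 0 < σ * y) :
    AEStronglyMeasurable (fun x : ℝ => F (x + y * Complex.I)) volume :=
  (hF.continuousOn.comp_continuous (by fun_prop) fun x => by simpa using hy).aestronglyMeasurable

/-- The space `L^p(ℝ)` of complex functions, with Lebesgue measure. -/
def LP (p : ℝ≥0∞) : Type := Lp ℂ p (volume : Measure ℝ)

noncomputable instance LP.normedAddCommGroup (p : ℝ≥0∞) [Fact (1 ≤ p)] :
    NormedAddCommGroup (LP p) :=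
  Lp.instNormedAddCommGroup

noncomputable instance LP.normedSpace (p : ℝ≥0∞) [Fact (1 ≤ p)] : NormedSpace ℂ (LP p) :=
  Lp.instNormedSpace

/-- An element of `L^p(ℝ)` as a function (defined almost everywhere). -/
noncomputable def LP.fn {p : ℝ≥0∞} (f : LP p) : ℝ → ℂ := f.1

/-- `f` is the boundary value of an `H^p` function of the half-plane `0 < σ * Im z` (`σ = 1`: upper
half-plane, `σ = -1`: lower half-plane): there is a holomorphic `F` on the half-plane whose
restrictions `F(· + i y)` to the horizontal lines of the half-plane have bounded `L^p` norms and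
converge to `f` in `L^p` as `y → 0`. -/
def IsHardy (σ : ℝ) (p : ℝ≥0∞) (f : ℝ → ℂ) : Prop :=
  ∃ F : ℂ → ℂ, DifferentiableOn ℂ F {z | 0 < σ * z.im} ∧
    (∃ C : ℝ≥0∞, C ≠ ∞ ∧ ∀ y : ℝ, 0 < σ * y →
      eLpNorm (fun x : ℝ => F (x + y * Complex.I)) p volume ≤ C) ∧
    Tendsto (fun y : ℝ => eLpNorm (fun x : ℝ => F (x + y * Complex.I) - f x) p volume)
      (𝓝[{y | 0 < σ * y}] 0) (𝓝 0)

theorem isHardy_add (σ : ℝ) (p : ℝ≥0∞) [Fact (1 ≤ p)] {f g : LP p} :
    IsHardy σ p f.fn → IsHardy σ p g.fn → IsHardy σ p (f + g).fn := by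
  rintro ⟨F, hF, ⟨C, hC, hFC⟩, hf⟩ ⟨G, hG, ⟨D, hD, hGD⟩, hg⟩
  refine ⟨fun z => F z + G z, hF.add hG, ⟨C + D, ENNReal.add_ne_top.2 ⟨hC, hD⟩, fun y hy => ?_⟩,
    ?_⟩
  · exact (eLpNorm_add_le (slice_aestronglyMeasurable hF hy) (slice_aestronglyMeasurable hG hy)
      Fact.out).trans (add_le_add (hFC y hy) (hGD y hy))
  · have h := hf.add hg
    rw [add_zero] at h
    refine tendsto_of_tendsto_of_tendsto_of_le_of_le' tendsto_const_nhds h
      (Eventually.of_forall fun _ => zero_le) ?_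
    filter_upwards [self_mem_nhdsWithin] with y hy
    refine le_trans (le_of_eq (eLpNorm_congr_ae ?_)) (eLpNorm_add_le
      ((slice_aestronglyMeasurable hF hy).sub (Lp.aestronglyMeasurable f))
      ((slice_aestronglyMeasurable hG hy).sub (Lp.aestronglyMeasurable g)) Fact.out)
    have h1 : ∀ᵐ x : ℝ, (f + g).fn x = (f.fn + g.fn) x := Lp.coeFn_add f g
    filter_upwards [h1] with x hx
    rw [hx]
    change _ = F _ - f.fn x + (G _ - g.fn x)
    simp only [Pi.add_apply]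
    ring

theorem isHardy_zero (σ : ℝ) (p : ℝ≥0∞) [Fact (1 ≤ p)] : IsHardy σ p (0 : LP p).fn := by
  refine ⟨fun _ => 0, differentiableOn_const 0, ⟨0, ENNReal.zero_ne_top, fun y _ => by simp⟩,
    tendsto_const_nhds.congr fun y => ?_⟩
  rw [← eLpNorm_zero (ε := ℂ) (p := p) (μ := (volume : Measure ℝ))]
  refine eLpNorm_congr_ae ?_
  have h1 : ∀ᵐ x : ℝ, (0 : LP p).fn x = (0 : ℝ → ℂ) x := Lp.coeFn_zero ℂ p volume
  filter_upwards [h1] with x hx
  simp [hx]

theorem isHardy_smul (σ : ℝ) (p : ℝ≥0∞) [Fact (1 ≤ p)] (c : ℂ) {f : LP p} :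
    IsHardy σ p f.fn → IsHardy σ p (c • f).fn := by
  rintro ⟨F, hF, ⟨C, hC, hFC⟩, hf⟩
  refine ⟨fun z => c • F z, hF.const_smul c,
    ⟨‖c‖ₑ * C, ENNReal.mul_ne_top enorm_ne_top hC, fun y hy => ?_⟩, ?_⟩
  · exact (eLpNorm_const_smul_le (c := c) (f := fun x : ℝ => F (x + y * Complex.I))).trans
      (mul_le_mul_right (hFC y hy) _)
  · have h := ENNReal.Tendsto.const_mul hf (Or.inr (enorm_ne_top (x := c)))
    rw [mul_zero] at h
    refine h.congr fun y => ?_
    rw [← eLpNorm_const_smul]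
    refine eLpNorm_congr_ae ?_
    have h1 : ∀ᵐ x : ℝ, (c • f).fn x = (c • f.fn) x := Lp.coeFn_smul c f
    filter_upwards [h1] with x hx
    simp only [hx, Pi.smul_apply, smul_sub]

/-- The Hardy space `H^p` of the half-plane `0 < σ * Im z`, as a subspace of `L^p(ℝ)`. -/
noncomputable def Hardy (σ : ℝ) (p : ℝ≥0∞) [Fact (1 ≤ p)] : Submodule ℂ (LP p) where
  carrier := {f | IsHardy σ p f.fn}
  add_mem' := isHardy_add σ p
  zero_mem' := isHardy_zero σ p
  smul_mem' := isHardy_smul σ p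

/-- Left-Fredholm: closed range and finite-dimensional kernel. -/
def LeftFredholm {X : Type*} [AddCommGroup X] [Module ℂ X] [TopologicalSpace X]
    (T : X →L[ℂ] X) : Prop :=
  IsClosed (Set.range T) ∧ FiniteDimensional ℂ (LinearMap.ker (T : X →ₗ[ℂ] X))

/-- Right-Fredholm: closed range of finite codimension. -/
def RightFredholm {X : Type*} [AddCommGroup X] [Module ℂ X] [TopologicalSpace X]
    (T : X →L[ℂ] X) : Prop :=
  IsClosed (Set.range T) ∧ FiniteDimensional ℂ (X ⧸ LinearMap.range (T : X →ₗ[ℂ] X))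

end Pool.Agent.P.MP_a3f7df_an
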