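import Pool.Agent.P.MP_a3f7df_an.Lit

/-! Definitions: the Riesz projection, multiplication operators and Toeplitz operators. -/

open MeasureTheory
open scoped ENNReal BoundedContinuousFunction

namespace Pool.Agent.P.MP_a3f7df_an

/-- **M. Riesz**: `L^p(ℝ)` is the topological direct sum of the two Hardy spaces. -/
theorem hardy_isTopCompl (p : ℝ≥0∞) [Fact (1 ≤ p)] (h1 : 1 < p) (h2 : p ≠ ∞) :
    Submodule.IsTopCompl (Hardy (-1) p) (Hardy 1 p) :=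
  isTopCompl_of_Ann h1 h2 (one_mul 1) (H₁ := Hardy (-1) p) (H₂ := Hardy 1 p)
    (fun f => (mem_Hardy_iff h1 h2 (σ := -1) (by norm_num) f).trans (by rw [neg_neg]))
    (mem_Hardy_iff h1 h2 (one_mul 1))

/-- The Riesz projection `P_-` of `L^p(ℝ)` onto the Hardy space of the lower half-plane, along the
Hardy space of the upper half-plane. -/
noncomputable def rieszMinus (p : ℝ≥0∞) [Fact (1 ≤ p)] (h1 : 1 < p) (h2 : p ≠ ∞) :
    LP p →L[ℂ] Hardy (-1) p :=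
  (Hardy (-1) p).projectionOntoL (Hardy 1 p) (hardy_isTopCompl p h1 h2)

theorem memLp_mul {p : ℝ≥0∞} (g : ℝ →ᵇ ℂ) (f : LP p) :
    MemLp (fun x => g x * f.fn x) p volume :=
  (Lp.memLp f).mul' g.memLp_top

/-- The product of a bounded continuous function `g` and `f ∈ L^p(ℝ)`. -/
noncomputable def mulFun {p : ℝ≥0∞} (g : ℝ →ᵇ ℂ) (f : LP p) : LP p :=
  (memLp_mul g f).toLp fun x => g x * f.fn x

theorem mulFun_eq {p : ℝ≥0∞} [Fact (1 ≤ p)] (g : ℝ →ᵇ ℂ) :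
    ∃ M : LP p →L[ℂ] LP p, mulFun g = M := by
  refine ⟨(ContinuousLinearMap.mul ℂ ℂ).holderL volume ∞ p p (g.memLp_top.toLp g), ?_⟩
  funext f
  refine Lp.ext ?_
  filter_upwards [(ContinuousLinearMap.mul ℂ ℂ).coeFn_holder (r := p) (g.memLp_top.toLp g) f,
    (g.memLp_top (μ := volume)).coeFn_toLp, (memLp_mul g f).coeFn_toLp] with x hx hx' hx''
  refine hx''.trans ?_
  rw [← hx']
  exact hx.symm

/-- The space `(H^p_-)^n`. -/
def HVec (n : ℕ) (p : ℝ≥0∞) [Fact (1 ≤ p)] : Type := Fin n → Hardy (-1) p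

noncomputable instance HVec.normedAddCommGroup (n : ℕ) (p : ℝ≥0∞) [Fact (1 ≤ p)] :
    NormedAddCommGroup (HVec n p) :=
  Pi.normedAddCommGroup

noncomputable instance HVec.normedSpace (n : ℕ) (p : ℝ≥0∞) [Fact (1 ≤ p)] :
    NormedSpace ℂ (HVec n p) :=
  Pi.normedSpace

/-- `(T_G f)_i = P_- (∑_j G_ij f_j)`. -/
noncomputable def toeplitzFun {n : ℕ} (G : Fin n → Fin n → ℝ →ᵇ ℂ) (p : ℝ≥0∞) [Fact (1 ≤ p)]
    (h1 : 1 < p) (h2 : p ≠ ∞) (f : HVec n p) : HVec n p :=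
  fun i => rieszMinus p h1 h2 (∑ j, mulFun (G i j) (f j).1)

theorem toeplitzFun_eq {n : ℕ} (G : Fin n → Fin n → ℝ →ᵇ ℂ) (p : ℝ≥0∞) [Fact (1 ≤ p)]
    (h1 : 1 < p) (h2 : p ≠ ∞) :
    ∃ T : HVec n p →L[ℂ] HVec n p, toeplitzFun G p h1 h2 = T := by
  choose M hM using fun i j => mulFun_eq (p := p) (G i j)
  let T : (Fin n → Hardy (-1) p) →L[ℂ] (Fin n → Hardy (-1) p) :=
    ContinuousLinearMap.pi fun i => (rieszMinus p h1 h2).comp
      (∑ j, (M i j).comp ((Hardy (-1) p).subtypeL.comp (ContinuousLinearMap.proj j)))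
  have hT : ∀ (f : Fin n → Hardy (-1) p) i,
      rieszMinus p h1 h2 (∑ j, mulFun (G i j) (f j).1) = T f i := fun f i => by simp [T, hM]
  exact ⟨T, funext fun f => funext fun i => hT f i⟩

theorem toeplitzFun_add {n : ℕ} (G : Fin n → Fin n → ℝ →ᵇ ℂ) (p : ℝ≥0∞) [Fact (1 ≤ p)]
    (h1 : 1 < p) (h2 : p ≠ ∞) (f g : HVec n p) :
    toeplitzFun G p h1 h2 (f + g) = toeplitzFun G p h1 h2 f + toeplitzFun G p h1 h2 g := by
  obtain ⟨T, hT⟩ := toeplitzFun_eq G p h1 h2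
  rw [hT, map_add]

theorem toeplitzFun_smul {n : ℕ} (G : Fin n → Fin n → ℝ →ᵇ ℂ) (p : ℝ≥0∞) [Fact (1 ≤ p)]
    (h1 : 1 < p) (h2 : p ≠ ∞) (c : ℂ) (f : HVec n p) :
    toeplitzFun G p h1 h2 (c • f) = c • toeplitzFun G p h1 h2 f := by
  obtain ⟨T, hT⟩ := toeplitzFun_eq G p h1 h2
  rw [hT, map_smul]

theorem toeplitzFun_cont {n : ℕ} (G : Fin n → Fin n → ℝ →ᵇ ℂ) (p : ℝ≥0∞) [Fact (1 ≤ p)]
    (h1 : 1 < p) (h2 : p ≠ ∞) : Continuous (toeplitzFun G p h1 h2) := by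
  obtain ⟨T, hT⟩ := toeplitzFun_eq G p h1 h2
  rw [hT]
  exact T.continuous

/-- The Toeplitz operator `T_G = P_- G` on `(H^p_-)^n`, as a bounded linear operator. -/
noncomputable def toeplitz {n : ℕ} (G : Fin n → Fin n → ℝ →ᵇ ℂ) (p : ℝ≥0∞) [Fact (1 ≤ p)]
    (h1 : 1 < p) (h2 : p ≠ ∞) : HVec n p →L[ℂ] HVec n p where
  toFun := toeplitzFun G p h1 h2
  map_add' := toeplitzFun_add G p h1 h2
  map_smul' := toeplitzFun_smul G p h1 h2
  cont := toeplitzFun_cont G p h1 h2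

end Pool.Agent.P.MP_a3f7df_an
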