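import Pool.Agent.P.MP_a3f7df_an.Defs

/-! Abstract functional analysis. -/

open Set Filter Topology Function
open scoped ENNReal

namespace Pool.Agent.P.MP_a3f7df_an

variable {X Y : Type*} [NormedAddCommGroup X] [NormedSpace ℂ X] [NormedAddCommGroup Y]
  [NormedSpace ℂ Y]

theorem surj_of_approx [CompleteSpace X] (T : X →L[ℂ] Y) {C : ℝ} (hC : 0 ≤ C)
    (h : ∀ y, ∃ x, ‖y - T x‖ ≤ 1 / 2 * ‖y‖ ∧ ‖x‖ ≤ C * ‖y‖) : Surjective T := by
  choose g hg using h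
  let h y := y - T (g y)
  intro y
  have hnle : ∀ n : ℕ, ‖h^[n] y‖ ≤ (1 / 2) ^ n * ‖y‖ := by
    intro n
    induction n with
    | zero => simp
    | succ n IH =>
      rw [iterate_succ']
      apply le_trans (hg _).1 _
      rw [pow_succ', mul_assoc]
      gcongr
  let u n := g (h^[n] y)
  have ule : ∀ n, ‖u n‖ ≤ (1 / 2) ^ n * (C * ‖y‖) := fun n ↦ by
    apply le_trans (hg _).2
    calc
      C * ‖h^[n] y‖ ≤ C * ((1 / 2) ^ n * ‖y‖) := by gcongr; exact hnle n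
      _ = (1 / 2) ^ n * (C * ‖y‖) := by ring
  have sNu : Summable fun n => ‖u n‖ := by
    refine .of_nonneg_of_le (fun n => norm_nonneg _) ule ?_
    exact Summable.mul_right _ (summable_geometric_of_lt_one (by simp) (by norm_num))
  have su : Summable u := sNu.of_norm
  have fsumeq : ∀ n : ℕ, T (∑ i ∈ Finset.range n, u i) = y - h^[n] y := by
    intro n
    induction n with
    | zero => simp
    | succ n IH => rw [Finset.sum_range_succ, T.map_add, IH, iterate_succ_apply', sub_add]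
  have L₁ := (T.continuous.tendsto _).comp su.hasSum.tendsto_sum_nat
  have L₂ : Tendsto (fun n => y - h^[n] y) atTop (𝓝 (y - 0)) := by
    refine tendsto_const_nhds.sub ?_
    rw [tendsto_iff_norm_sub_tendsto_zero]
    simp only [sub_zero]
    refine squeeze_zero (fun _ => norm_nonneg _) hnle ?_
    rw [← zero_mul ‖y‖]
    refine (_root_.tendsto_pow_atTop_nhds_zero_of_lt_one ?_ ?_).mul tendsto_const_nhds <;> norm_num
  refine ⟨tsum u, ?_⟩
  rw [sub_zero] at L₂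
  exact tendsto_nhds_unique L₁ (L₂.congr fun n => (fsumeq n).symm)

theorem surj_of_dual [CompleteSpace X] (T : X →L[ℂ] Y) {C : ℝ} (hC : 0 ≤ C)
    (h : ∀ φ : Y →L[ℂ] ℂ, ‖φ‖ ≤ C * ‖φ.comp T‖) : Surjective T := by
  refine surj_of_approx T (C := C + 1) (by linarith) fun y => ?_
  rcases eq_or_ne y 0 with rfl | hy
  · exact ⟨0, by simp, by simp⟩
  have hy' : 0 < ‖y‖ := norm_pos_iff.2 hy
  set ρ := (C + 1) * ‖y‖ with hρ
  have hρ0 : 0 < ρ := by positivity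
  have hmem : y ∈ closure (T '' Metric.closedBall 0 ρ) := by
    by_contra hcon
    have hconv : Convex ℝ (closure (T '' Metric.closedBall 0 ρ)) :=
      ((convex_closedBall (0 : X) ρ).linear_image ((T : X →ₗ[ℂ] Y).restrictScalars ℝ)).closure
    obtain ⟨φ, u, h1, h2⟩ := RCLike.geometric_hahn_banach_closed_point (𝕜 := ℂ) hconv
      isClosed_closure hcon
    have h3 : ∀ x : X, ‖x‖ ≤ ρ → ‖φ (T x)‖ ≤ u := by
      intro x hx
      obtain ⟨c, hc, hc'⟩ := Complex.exists_norm_eq_mul_self (φ (T x))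
      have := h1 (T (c • x)) (subset_closure ⟨c • x, by simpa [norm_smul, hc] using hx, rfl⟩)
      rw [map_smul, map_smul, smul_eq_mul, ← hc'] at this
      simpa using this.le
    have hu : 0 ≤ u := by simpa using h3 0 (by simpa using hρ0.le)
    have h4 : ‖φ.comp T‖ ≤ u / ρ := by
      refine ContinuousLinearMap.opNorm_le_of_unit_norm (by positivity) fun x hx => ?_
      have := h3 ((ρ : ℂ) • x) (by simp [norm_smul, hx, abs_of_pos hρ0])
      rw [map_smul, map_smul, norm_smul, Complex.norm_real, Real.norm_eq_abs,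
        abs_of_pos hρ0] at this
      rw [le_div_iff₀ hρ0, mul_comm]
      exact this
    have h5 : u < ‖φ‖ * ‖y‖ := h2.trans_le ((RCLike.re_le_norm _).trans (φ.le_opNorm y))
    have h6 : ‖φ‖ * ‖y‖ ≤ C * (u / ρ) * ‖y‖ := by
      gcongr
      exact (h φ).trans (by gcongr)
    have h7 : C * (u / ρ) * ‖y‖ ≤ u := by
      rw [hρ]
      have : C * (u / ((C + 1) * ‖y‖)) * ‖y‖ = u * (C / (C + 1)) := by field_simp
      rw [this]
      exact mul_le_of_le_one_right hu ((div_le_one (by linarith)).2 (by linarith))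
    linarith
  obtain ⟨_, ⟨x, hx, rfl⟩, hx'⟩ := Metric.mem_closure_iff.1 hmem (1 / 2 * ‖y‖) (by positivity)
  exact ⟨x, by rw [← dist_eq_norm]; exact hx'.le, by simpa using hx⟩

theorem closed_range_bound [CompleteSpace X] [CompleteSpace Y] (T : X →L[ℂ] Y)
    (hT : IsClosed (range T)) : ∃ C : ℝ, 0 ≤ C ∧ ∀ x, ∃ x', T x' = T x ∧ ‖x'‖ ≤ C * ‖T x‖ := by
  have hc : IsClosed ((T : X →ₗ[ℂ] Y).range : Set Y) := hT
  have := hc.completeSpace_coe
  obtain ⟨C, hC, h⟩ := (T.codRestrict (T : X →ₗ[ℂ] Y).range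
    (fun x => ⟨x, rfl⟩)).exists_preimage_norm_le (by
      rintro ⟨_, x, rfl⟩
      exact ⟨x, rfl⟩)
  refine ⟨C, hC.le, fun x => ?_⟩
  obtain ⟨x', h1, h2⟩ := h ⟨T x, x, rfl⟩
  exact ⟨x', congrArg Subtype.val h1, h2⟩

theorem tendsto_finite_rank {α : Type*} {l : Filter α} {u : α → X}
    (hu : ∀ φ : X →L[ℂ] ℂ, Tendsto (fun a => φ (u a)) l (𝓝 0)) [FiniteDimensional ℂ Y]
    (Q : X →L[ℂ] Y) : Tendsto (fun a => Q (u a)) l (𝓝 0) := by
  let e := (Module.finBasis ℂ Y).equivFunL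
  have h1 : Tendsto (fun a => e (Q (u a))) l (𝓝 0) := by
    rw [tendsto_pi_nhds]
    intro i
    exact hu ((ContinuousLinearMap.proj (R := ℂ) (φ := fun _ => ℂ) i).comp
      (e.toContinuousLinearMap.comp Q))
  simpa [Function.comp_def] using (e.symm.continuous.tendsto 0).comp h1

theorem left_bound' [CompleteSpace X] [CompleteSpace Y] (T : X →L[ℂ] Y) (hcl : IsClosed (range T))
    (hfin : FiniteDimensional ℂ (T : X →ₗ[ℂ] Y).ker) : ∃ D : ℝ, 0 ≤ D ∧ ∀ u : ℝ → X,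
      (∀ φ : X →L[ℂ] ℂ, Tendsto (fun a => φ (u a)) atTop (𝓝 0)) → ∀ e : ℝ, 0 < e →
      ∀ᶠ a in atTop, ‖u a‖ ≤ e + D * ‖T (u a)‖ := by
  obtain ⟨D, hD, hb⟩ := closed_range_bound T hcl
  obtain ⟨Q, hQ⟩ := Submodule.ClosedComplemented.of_finiteDimensional (T : X →ₗ[ℂ] Y).ker
  have hb2 : ∀ x, ‖x‖ ≤ ‖Q x‖ + (1 + ‖Q‖) * D * ‖T x‖ := by
    intro x
    obtain ⟨x', h1, h2⟩ := hb x
    have h3 : x - x' ∈ (T : X →ₗ[ℂ] Y).ker := by simp [h1]
    have h4 : (Q (x - x') : X) = x - x' := congrArg Subtype.val (hQ ⟨_, h3⟩)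
    have h5 : x = Q x + (x' - Q x') := by
      rw [map_sub, Submodule.coe_sub] at h4
      rw [← sub_eq_zero, ← sub_eq_zero.2 h4.symm]
      abel
    have h6 : ‖x' - Q x'‖ ≤ (1 + ‖Q‖) * D * ‖T x‖ := by
      refine (norm_sub_le _ _).trans ?_
      have h7 : ‖(Q x' : X)‖ ≤ ‖Q‖ * ‖x'‖ := Q.le_opNorm x'
      have h8 := mul_le_mul_of_nonneg_left h2 (norm_nonneg Q)
      linarith
    nth_rw 1 [h5]
    exact (norm_add_le _ _).trans (add_le_add le_rfl h6)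
  refine ⟨(1 + ‖Q‖) * D, by positivity, fun u hu e he => ?_⟩
  have t1 := (tendsto_finite_rank hu Q).norm
  rw [norm_zero] at t1
  filter_upwards [t1.eventually (ge_mem_nhds he)] with a ha
  exact (hb2 _).trans (add_le_add ha le_rfl)

theorem right_bound' [CompleteSpace X] [CompleteSpace Y] (T : X →L[ℂ] Y) (hcl : IsClosed (range T))
    (hfin : FiniteDimensional ℂ (Y ⧸ (T : X →ₗ[ℂ] Y).range)) : ∃ D : ℝ, 0 ≤ D ∧ ∀ u : ℝ → Y,
      (∀ φ : Y →L[ℂ] ℂ, Tendsto (fun a => φ (u a)) atTop (𝓝 0)) → ∀ e : ℝ, 0 < e →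
      ∀ᶠ a in atTop, ∃ f m, T f = u a - m ∧ ‖m‖ ≤ e ∧ ‖f‖ ≤ D * ‖T f‖ := by
  obtain ⟨D, hD, hb⟩ := closed_range_bound T hcl
  refine ⟨D, hD, fun u hu e he => ?_⟩
  set Z := (T : X →ₗ[ℂ] Y).range with hZ
  have hZc : IsClosed (Z : Set Y) := hcl
  have t1 := (tendsto_finite_rank hu Z.mkQL).norm
  rw [norm_zero] at t1
  filter_upwards [t1.eventually (gt_mem_nhds (half_pos he))] with a ha
  obtain ⟨m, hm1, hm2⟩ := Submodule.Quotient.norm_mk_lt (Z.mkQL (u a)) (half_pos he)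
  obtain ⟨x, hx⟩ : u a - m ∈ Z := (Submodule.Quotient.eq Z).1 hm1.symm
  obtain ⟨f, hf1, hf2⟩ := hb x
  exact ⟨f, m, hf1.trans hx, by linarith, hf1 ▸ hf2⟩

theorem antilip_of_inj [CompleteSpace X] [CompleteSpace Y] (T : X →L[ℂ] Y) (h : Injective T)
    (hcl : IsClosed (range T)) : ∃ K, AntilipschitzWith K T :=
  T.antilipschitz_of_injective_of_isClosed_range h hcl

theorem preimage_bound [CompleteSpace X] [CompleteSpace Y] (T : X →L[ℂ] Y) (h : Surjective T) :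
    ∃ C > 0, ∀ y, ∃ x, T x = y ∧ ‖x‖ ≤ C * ‖y‖ := T.exists_preimage_norm_le h

theorem left_bound [CompleteSpace X] (T : X →L[ℂ] X) (h : LeftFredholm T) :
    ∃ D : ℝ, 0 ≤ D ∧ ∀ u : ℝ → X,
      (∀ φ : X →L[ℂ] ℂ, Tendsto (fun a => φ (u a)) atTop (𝓝 0)) → ∀ e : ℝ, 0 < e →
      ∀ᶠ a in atTop, ‖u a‖ ≤ e + D * ‖T (u a)‖ := left_bound' T h.1 h.2

theorem right_bound [CompleteSpace X] (T : X →L[ℂ] X) (h : RightFredholm T) :
    ∃ D : ℝ, 0 ≤ D ∧ ∀ u : ℝ → X,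
      (∀ φ : X →L[ℂ] ℂ, Tendsto (fun a => φ (u a)) atTop (𝓝 0)) → ∀ e : ℝ, 0 < e →
      ∀ᶠ a in atTop, ∃ f m, T f = u a - m ∧ ‖m‖ ≤ e ∧ ‖f‖ ≤ D * ‖T f‖ := right_bound' T h.1 h.2

theorem surj_of_dual' [CompleteSpace X] (T : X →L[ℂ] Y) {C : ℝ≥0∞} (hC : C ≠ ∞)
    (h : ∀ φ : Y →L[ℂ] ℂ, ∀ K : ℝ≥0∞, (∀ x, ‖φ (T x)‖ₑ ≤ K * ‖x‖ₑ) →
      ∀ y, ‖φ y‖ₑ ≤ C * K * ‖y‖ₑ) : Surjective T := by
  refine surj_of_dual T (C := C.toReal) ENNReal.toReal_nonneg fun φ => ?_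
  have h1 : ‖φ‖ₑ ≤ C * ‖φ.comp T‖ₑ := ContinuousLinearMap.opENorm_le_bound _
    (h φ _ fun x => (φ.comp T).le_opENorm x)
  have := ENNReal.toReal_mono (ENNReal.mul_ne_top hC enorm_ne_top) h1
  rwa [ENNReal.toReal_mul, toReal_enorm, toReal_enorm] at this

theorem leftFredholm_of {X : Type*} [AddCommGroup X] [Module ℂ X] [TopologicalSpace X]
    {T : X →L[ℂ] X} (h1 : IsClosed (range T)) (h2 : Injective T) : LeftFredholm T := by
  refine ⟨h1, ?_⟩
  rw [LinearMap.ker_eq_bot.2 h2]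
  infer_instance

theorem rightFredholm_of {X : Type*} [AddCommGroup X] [Module ℂ X] [TopologicalSpace X]
    {T : X →L[ℂ] X} (h : Surjective T) : RightFredholm T := by
  refine ⟨by rw [h.range_eq]; exact isClosed_univ, ?_⟩
  rw [LinearMap.range_eq_top.2 h]
  infer_instance

end Pool.Agent.P.MP_a3f7df_an
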