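import Pool.Agent.P.MP_a3f7df_an.L3
import Pool.Agent.P.MP_a3f7df_an.D
import Pool.Agent.P.MP_a3f7df_an.FA

/-! Toeplitz operators on Hardy classes: the interface with functions. -/

open MeasureTheory Set Filter Topology Complex
open scoped ENNReal NNReal Real

namespace Pool.Agent.P.MP_a3f7df_an

noncomputable section

/-- Bounded, uniformly continuous functions with relatively dense almost periods. -/
def Good {F : Type*} [NormedAddCommGroup F] (M : ℝ → F) : Prop :=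
  UniformContinuous M ∧ (∃ B : ℝ≥0∞, B ≠ ∞ ∧ ∀ x, ‖M x‖ₑ ≤ B) ∧ AlmostPer M

lemma Good.clm {F F' : Type*} [NormedAddCommGroup F] [NormedSpace ℂ F] [NormedAddCommGroup F']
    [NormedSpace ℂ F'] {M : ℝ → F} (h : Good M) (L : F →L[ℂ] F') : Good (fun x => L (M x)) := by
  obtain ⟨h1, ⟨B, hB, h2⟩, h3⟩ := h
  refine ⟨L.uniformContinuous.comp h1, ⟨‖L‖ₑ * B, by finiteness, fun x =>
    (L.le_opENorm _).trans (mul_le_mul_right (h2 x) _)⟩, fun e he => ?_⟩
  obtain ⟨l, hl, h4⟩ := h3 (e / (‖L‖ + 1)) (by positivity)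
  refine ⟨l, hl, fun a => ?_⟩
  obtain ⟨τ, hτ, h5⟩ := h4 a
  refine ⟨τ, hτ, fun x => ?_⟩
  rw [← map_sub]
  refine (L.le_opNorm _).trans ?_
  calc ‖L‖ * ‖M (x + τ) - M x‖ ≤ (‖L‖ + 1) * (e / (‖L‖ + 1)) := by
        gcongr
        · linarith
        · exact h5 x
    _ = e := by field_simp

lemma AlmostPer.frequently {F : Type*} [NormedAddCommGroup F] {M : ℝ → F} (h : AlmostPer M)
    {e : ℝ} (he : 0 < e) : ∃ᶠ τ in atTop, ∀ x, ‖M (x + τ) - M x‖ ≤ e := by
  obtain ⟨L, -, h1⟩ := h e he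
  rw [frequently_atTop]
  intro a
  obtain ⟨τ, hτ, h2⟩ := h1 (a + L)
  exact ⟨τ, by linarith [(abs_le.1 hτ).2], h2⟩

lemma tendsto_pair_shift {s s' : ℝ} (h : s.HolderConjugate s') {k f : ℝ → ℂ} (hk : InL s' k)
    (hf : InL s f) : Tendsto (fun τ => ∫ x, k x * f (x + τ)) atTop (𝓝 0) := by
  have t1 : Tendsto (fun τ : ℝ => nrm s' ((Iio (-τ / 2)).indicator fun x => ‖k x‖ₑ)) atTop
      (𝓝 0) := by
    refine tendsto_nrm_of_dominated h.symm.pos
      (fun τ => hk.1.enorm.indicator measurableSet_Iio) hk.2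
      (fun τ x => indicator_le_self _ _ x) fun x => tendsto_const_nhds.congr' ?_
    filter_upwards [eventually_ge_atTop (-2 * x)] with τ hτ
    rw [indicator_of_notMem]
    simp only [mem_Iio, not_lt]
    linarith
  have t2 : Tendsto (fun τ : ℝ => nrm s ((Ici (τ / 2)).indicator fun x => ‖f x‖ₑ)) atTop
      (𝓝 0) := by
    refine tendsto_nrm_of_dominated h.pos
      (fun τ => hf.1.enorm.indicator measurableSet_Ici) hf.2
      (fun τ x => indicator_le_self _ _ x) fun x => tendsto_const_nhds.congr' ?_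
    filter_upwards [eventually_gt_atTop (2 * x)] with τ hτ
    rw [indicator_of_notMem]
    simp only [mem_Ici, not_le]
    linarith
  have t3 := (ENNReal.Tendsto.mul_const t1 (Or.inr hf.2)).add
    (ENNReal.Tendsto.const_mul t2 (Or.inr hk.2))
  rw [zero_mul, mul_zero, add_zero] at t3
  rw [tendsto_zero_iff_enorm_tendsto_zero]
  refine tendsto_of_tendsto_of_tendsto_of_le_of_le tendsto_const_nhds t3 (fun _ => zero_le)
    fun τ => (enorm_integral_le_lintegral_enorm _).trans ?_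
  have m1 : Measurable ((Iio (-τ / 2)).indicator fun x => ‖k x‖ₑ) :=
    hk.1.enorm.indicator measurableSet_Iio
  have m2 : Measurable fun x => ((Ici (τ / 2)).indicator fun x => ‖f x‖ₑ) (x + τ) :=
    (hf.1.enorm.indicator measurableSet_Ici).comp (measurable_id.add_const τ)
  have m3 := (hf.shift τ).1.enorm
  have h1 : ∀ x, ‖k x * f (x + τ)‖ₑ ≤ ((Iio (-τ / 2)).indicator fun x => ‖k x‖ₑ) x * ‖f (x + τ)‖ₑ +
      ‖k x‖ₑ * ((Ici (τ / 2)).indicator fun x => ‖f x‖ₑ) (x + τ) := by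
    intro x
    rw [enorm_mul]
    rcases lt_or_ge x (-τ / 2) with hx | hx
    · rw [indicator_of_mem (mem_Iio.2 hx)]
      exact le_self_add
    · rw [indicator_of_mem (s := Ici (τ / 2)) (mem_Ici.2 (by linarith))]
      exact le_add_self
  refine (lintegral_mono h1).trans ?_
  rw [lintegral_add_left (m1.fun_mul m3)]
  refine add_le_add ((holder h.symm m1.aemeasurable m3.aemeasurable).trans (le_of_eq ?_))
    ((holder h.symm hk.1.enorm.aemeasurable m2.aemeasurable).trans (le_of_eq ?_))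
  · rw [nrm_shift s (fun x => ‖f x‖ₑ) τ]
  · rw [nrm_shift s _ τ]

variable {ι : Type} [Fintype ι]

/-- A matrix as a continuous linear map. -/
def matL (ι : Type) [Fintype ι] : (ι → ι → ℂ) →L[ℂ] ((ι → ℂ) →L[ℂ] (ι → ℂ)) :=
  LinearMap.toContinuousLinearMap
    { toFun := fun M => ContinuousLinearMap.pi fun i =>
        ∑ j, M i j • ContinuousLinearMap.proj (R := ℂ) (φ := fun _ => ℂ) j
      map_add' := fun M M' => by
        ext v i
        simp [add_mul, Finset.sum_add_distrib]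
      map_smul' := fun c M => by
        ext v i
        simp [Finset.mul_sum, mul_assoc] }

lemma matL_apply (M : ι → ι → ℂ) (v : ι → ℂ) (i : ι) : matL ι M v i = ∑ j, M i j * v j := by
  simp [matL]

/-- Transposition as a continuous linear map. -/
def trL (ι : Type) [Fintype ι] : (ι → ι → ℂ) →L[ℂ] (ι → ι → ℂ) :=
  LinearMap.toContinuousLinearMap
    { toFun := fun M i j => M j i
      map_add' := fun _ _ => rfl
      map_smul' := fun _ _ => rfl }

lemma trL_apply (M : ι → ι → ℂ) (i j : ι) : trL ι M i j = M j i := rfl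

/-- The bilinear pairing of vector functions. -/
def pr (a b : ℝ → ι → ℂ) : ℂ := ∑ i, ∫ x, a x i * b x i

lemma enorm_pr_le {s s' : ℝ} (h : s.HolderConjugate s') {a b : ℝ → ι → ℂ} (ha : InL s' a)
    (hb : InL s b) : ‖pr a b‖ₑ ≤
      Fintype.card ι * (nrm s' (fun x => ‖a x‖ₑ) * nrm s (fun x => ‖b x‖ₑ)) := by
  refine (enorm_sum_le _ _).trans ?_
  rw [← nsmul_eq_mul, ← Finset.card_univ, ← Finset.sum_const]
  refine Finset.sum_le_sum fun i _ => (enorm_integral_mul_le h (ha.coord h.symm.pos i).1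
    (hb.coord h.pos i).1).trans (mul_le_mul' ?_ ?_)
  · exact nrm_mono h.symm.pos fun x => enorm_coord_le _ _
  · exact nrm_mono h.pos fun x => enorm_coord_le _ _

lemma pr_sub_left {s s' : ℝ} (h : s.HolderConjugate s') {a a' b : ℝ → ι → ℂ} (ha : InL s' a)
    (ha' : InL s' a') (hb : InL s b) : pr (fun x => a x - a' x) b = pr a b - pr a' b := by
  unfold pr
  rw [← Finset.sum_sub_distrib]
  refine Finset.sum_congr rfl fun i _ => ?_
  rw [← integral_sub (integrable_mul_of_InL h (ha.coord h.symm.pos i) (hb.coord h.pos i))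
    (integrable_mul_of_InL h (ha'.coord h.symm.pos i) (hb.coord h.pos i))]
  simp [sub_mul]

lemma pr_comm (a b : ℝ → ι → ℂ) : pr a b = pr b a := by
  simp only [pr, mul_comm]

lemma pr_orth {ε : ℝ} (hε : ε * ε = 1) {s s' : ℝ} (h : s.HolderConjugate s') {a b : ℝ → ι → ℂ}
    (ha : InL s' a) (hb : InL s b) (aa : Ann ε a) (ab : Ann ε b) : pr a b = 0 :=
  Finset.sum_eq_zero fun i _ => orth hε h (hb.coord h.pos i) (ha.coord h.symm.pos i)
    (ab.coord (hb.loc h.lt) i) (aa.coord (ha.loc h.symm.lt) i)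

lemma Good.inL_apply {M : ℝ → (ι → ℂ) →L[ℂ] (ι → ℂ)} (hM : Good M) {s : ℝ} (hs : 0 < s)
    {f : ℝ → ι → ℂ} (hf : InL s f) : InL s (fun x => M x (f x)) := by
  obtain ⟨B, hB, h⟩ := hM.2.1
  exact hf.of_le hs (sm_apply hM.1.continuous hf.1) hB fun x =>
    ((M x).le_opENorm _).trans (mul_le_mul_left (h x) _)

lemma pr_tr {s s' : ℝ} (h : s.HolderConjugate s') {M : ℝ → ι → ι → ℂ} (hM : Good M)
    {a b : ℝ → ι → ℂ} (ha : InL s' a) (hb : InL s b) :
    pr a (fun x => matL ι (M x) (b x)) = pr (fun x => matL ι (trL ι (M x)) (a x)) b := by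
  obtain ⟨B, hB, hMB⟩ := hM.2.1
  have hint : ∀ i j, Integrable fun x => a x i * (M x i j * b x j) := by
    intro i j
    refine integrable_mul_of_InL h (ha.coord h.symm.pos i) ((hb.coord h.pos j).of_le h.pos ?_ hB
      fun x => ?_)
    · exact (((continuous_apply j).comp ((continuous_apply i).comp
        hM.1.continuous)).stronglyMeasurable).mul (hb.coord h.pos j).1
    · rw [enorm_mul]
      refine mul_le_mul_left ((enorm_coord_le _ _).trans (le_trans ?_ (hMB x))) _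
      simp only [enorm_eq_nnnorm]
      exact_mod_cast nnnorm_le_pi_nnnorm (M x) i
  unfold pr
  simp only [matL_apply, trL_apply, Finset.mul_sum, Finset.sum_mul]
  have e1 : ∀ i, ∫ x, ∑ j, a x i * (M x i j * b x j) = ∑ j, ∫ x, a x i * (M x i j * b x j) :=
    fun i => integral_finsetSum _ fun j _ => hint i j
  have e2 : ∀ j, ∫ x, ∑ i, M x i j * a x i * b x j = ∑ i, ∫ x, a x i * (M x i j * b x j) := by
    intro j
    rw [← integral_finsetSum _ fun i _ => hint i j]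
    congr 1
    ext x
    exact Finset.sum_congr rfl fun i _ => by ring
  simp only [e1, e2]
  exact Finset.sum_comm

lemma InL_of_coord {s : ℝ} (hs : 1 ≤ s) {f : ℝ → ι → ℂ} (hf : ∀ i, InL s (fun x => f x i)) :
    InL s f := by
  have hm : StronglyMeasurable f :=
    (measurable_pi_iff.2 fun i => (hf i).1.measurable).stronglyMeasurable
  exact ⟨hm, ne_top_of_le_ne_top (ENNReal.sum_ne_top.2 fun i _ => (hf i).2) (nrm_pi_le_sum hs hm)⟩

variable {p : ℝ≥0∞} [Fact (1 ≤ p)]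

/-- The vector function attached to a family of `L^p` classes. -/
def raw {H : Submodule ℂ (Lp ℂ p (volume : Measure ℝ))} (f : ι → H) (t : ℝ) (i : ι) : ℂ :=
  (f i : Lp ℂ p (volume : Measure ℝ)) t

/-- The data of a Toeplitz operator. -/
structure Setup (ι : Type) [Fintype ι] (p : ℝ≥0∞) [Fact (1 ≤ p)] : Type where
  h1 : 1 < p
  h2 : p ≠ ∞
  H : Submodule ℂ (Lp ℂ p (volume : Measure ℝ))
  hH : ∀ f, f ∈ H ↔ Ann 1 f
  Pr : Lp ℂ p (volume : Measure ℝ) →L[ℂ] H
  hP : ∀ f, Ann (-1) ⇑(f - Pr f)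
  M : ℝ → ι → ι → ℂ
  good : Good M
  T : (ι → H) →L[ℂ] (ι → H)
  hT : ∀ f, Ann (-1) (fun t => matL ι (M t) (raw f t) - raw (T f) t)

namespace Setup

variable (S : Setup ι p)

include S in
lemma h0 : p ≠ 0 := ne_zero_of_one_lt S.h1

include S in
lemma hs : 1 < p.toReal := one_lt_toReal S.h1 S.h2

include S in
lemma hs0 : 0 < p.toReal := one_pos.trans S.hs

instance complete : CompleteSpace S.H := (isClosed_of_Ann S.h1 S.h2 S.hH).completeSpace_coe

/-- The symbol as an operator function. -/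
def G (t : ℝ) : (ι → ℂ) →L[ℂ] (ι → ℂ) := matL ι (S.M t)

/-- The transposed symbol. -/
def GT (t : ℝ) : (ι → ℂ) →L[ℂ] (ι → ℂ) := matL ι (trL ι (S.M t))

lemma goodG : Good S.G := S.good.clm (matL ι)

lemma goodGT : Good S.GT := (S.good.clm (trL ι)).clm (matL ι)

lemma raw_inL (f : ι → S.H) : InL p.toReal (raw f) :=
  InL_of_coord S.hs.le fun _ => InL_Lp S.h0 S.h2 _

lemma raw_ann (f : ι → S.H) : Ann 1 (raw f) :=
  Ann_of_coord ((S.raw_inL f).loc S.hs) fun i => (S.hH _).1 (f i).2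

lemma enorm_le_raw (f : ι → S.H) : ‖f‖ₑ ≤ nrm p.toReal (fun x => ‖raw f x‖ₑ) := by
  have h : ∀ i, ‖f i‖ₑ ≤ nrm p.toReal (fun x => ‖raw f x‖ₑ) := fun i => by
    have : ‖f i‖ₑ = ‖(f i : Lp ℂ p (volume : Measure ℝ))‖ₑ := rfl
    rw [this, enorm_Lp S.h0 S.h2]
    exact nrm_mono S.hs0 fun x => enorm_coord_le (raw f x) i
  rw [← ENNReal.coe_toNNReal (S.raw_inL f).2] at h ⊢
  simp only [enorm_eq_nnnorm, ENNReal.coe_le_coe] at h ⊢
  exact pi_nnnorm_le_iff.2 h

lemma raw_le_enorm (f : ι → S.H) :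
    nrm p.toReal (fun x => ‖raw f x‖ₑ) ≤ Fintype.card ι * ‖f‖ₑ := by
  refine (nrm_pi_le_sum S.hs.le (S.raw_inL f).1).trans ?_
  rw [← nsmul_eq_mul, ← Finset.card_univ, ← Finset.sum_const]
  refine Finset.sum_le_sum fun i _ => ?_
  have : nrm p.toReal (fun x => ‖raw f x i‖ₑ) = ‖f i‖ₑ := (enorm_Lp S.h0 S.h2 _).symm
  rw [this]
  simp only [enorm_eq_nnnorm]
  exact_mod_cast nnnorm_le_pi_nnnorm f i

lemma raw_sub (f g : ι → S.H) : ∀ᵐ x, raw (f - g) x = raw f x - raw g x := by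
  have : ∀ i, ∀ᵐ x, raw (f - g) x i = raw f x i - raw g x i := fun i => Lp.coeFn_sub _ _
  filter_upwards [ae_all_iff.2 this] with x hx using funext hx

lemma raw_zero : ∀ᵐ x, raw (0 : ι → S.H) x = 0 := by
  filter_upwards [Lp.coeFn_zero ℂ p (volume : Measure ℝ)] with x hx using funext fun _ => hx

lemma exists_mk {g : ℝ → ι → ℂ} (hg : InL p.toReal g) (ag : Ann 1 g) :
    ∃ f : ι → S.H, ∀ᵐ x, raw f x = g x := by
  have hm := fun i => (hg.coord S.hs0 i).memLp S.h0 S.h2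
  refine ⟨fun i => ⟨(hm i).toLp _, (S.hH _).2
    ((ag.coord (hg.loc S.hs) i).congr_ae (hm i).coeFn_toLp.symm)⟩, ?_⟩
  filter_upwards [ae_all_iff.2 fun i => (hm i).coeFn_toLp] with x hx using funext hx

/-- Translation. -/
def sh (τ : ℝ) (f : ι → S.H) : ι → S.H :=
  Classical.choose (S.exists_mk ((S.raw_inL f).shift τ) ((S.raw_ann f).shift τ))

lemma raw_sh (τ : ℝ) (f : ι → S.H) : ∀ᵐ x, raw (S.sh τ f) x = raw f (x + τ) :=
  Classical.choose_spec (S.exists_mk ((S.raw_inL f).shift τ) ((S.raw_ann f).shift τ))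

lemma nrm_sh (τ : ℝ) (f : ι → S.H) : nrm p.toReal (fun x => ‖raw (S.sh τ f) x‖ₑ) =
    nrm p.toReal (fun x => ‖raw f x‖ₑ) := by
  rw [← nrm_shift _ (fun x => ‖raw f x‖ₑ) τ]
  refine nrm_congr_ae ?_
  filter_upwards [S.raw_sh τ f] with x hx using by rw [hx]

lemma err_inL (f : ι → S.H) : InL p.toReal (fun t => S.G t (raw f t) - raw (S.T f) t) :=
  (S.goodG.inL_apply S.hs0 (S.raw_inL f)).sub S.hs.le (S.raw_inL _)

lemma key : ∃ C : ℝ≥0∞, C ≠ ∞ ∧ ∀ (f k : ι → S.H) (g e : ℝ → ι → ℂ), InL p.toReal g →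
    Ann (-1) g → (∀ᵐ x, S.G x (raw f x) - raw k x = g x + e x) →
    ‖S.T f - k‖ₑ ≤ C * nrm p.toReal (fun x => ‖e x‖ₑ) := by
  obtain ⟨C, hC, h⟩ := RI ι S.hs
  refine ⟨C, hC, fun f k g e ig ag he => (S.enorm_le_raw _).trans ?_⟩
  have := h (-1) (by norm_num) _ _ ((S.err_inL f).sub S.hs.le ig) (S.raw_inL (S.T f - k))
    ((S.hT f).sub ((S.err_inL f).loc S.hs) (ig.loc S.hs) ag) (by simpa using S.raw_ann _)
  refine this.trans (le_of_eq ?_)
  congr 1
  refine nrm_congr_ae ?_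
  filter_upwards [he, S.raw_sub (S.T f) k] with x hx hx'
  rw [hx', ← sub_eq_iff_eq_add'.2 hx]
  congr 1
  abel

include S in
lemma eq_zero_of_both {f : Lp ℂ p (volume : Measure ℝ)} (a₁ : Ann 1 f) (a₂ : Ann (-1) f) :
    f = 0 := by
  obtain ⟨C, -, h⟩ := RI_scalar S.hs
  have hf := InL_Lp S.h0 S.h2 f
  have := h 1 (one_mul 1) _ _ hf.neg hf a₁.neg a₂
  simp only [neg_add_cancel, enorm_zero, nrm_zero S.hs0, mul_zero, ← enorm_Lp S.h0 S.h2] at this
  simpa using this

lemma P_left (f : S.H) : S.Pr f = f := by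
  have h := S.eq_zero_of_both ((S.hH _).1 (S.H.sub_mem f.2 (S.Pr f).2)) (S.hP f)
  exact Subtype.ext (sub_eq_zero.1 h).symm

lemma P_right {f : Lp ℂ p (volume : Measure ℝ)} (af : Ann (-1) f) : S.Pr f = 0 := by
  refine Subtype.ext (S.eq_zero_of_both ((S.hH _).1 (S.Pr f).2) ?_)
  have h1 := af.sub ((InL_Lp S.h0 S.h2 f).loc S.hs) ((InL_Lp S.h0 S.h2 _).loc S.hs) (S.hP f)
  refine h1.congr_ae ?_
  filter_upwards [Lp.coeFn_sub f (S.Pr f)] with x hx
  rw [hx]
  simp

lemma rep {s' : ℝ} (hc : p.toReal.HolderConjugate s') (φ : (ι → S.H) →L[ℂ] ℂ) :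
    ∃ k : ℝ → ι → ℂ, InL s' k ∧ Ann (-1) k ∧ ∀ f, φ f = pr k (raw f) := by
  classical
  choose k hk hk' using fun i => Lp_dual S.h1 S.h2 hc
    (φ.comp ((ContinuousLinearMap.single ℂ (fun _ : ι => S.H) i).comp S.Pr))
  have hL : InL s' fun x i => k i x := InL_of_coord hc.symm.lt.le hk
  refine ⟨fun x i => k i x, hL, Ann_of_coord (hL.loc hc.symm.lt) fun i z hz => ?_, fun f => ?_⟩
  · have hm := (InL_ker (ne_of_sign hz) S.hs).memLp S.h0 S.h2
    have h1 := hk' i (hm.toLp _)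
    rw [ContinuousLinearMap.comp_apply, ContinuousLinearMap.comp_apply,
      S.P_right ((Ann_ker hz).congr_ae hm.coeFn_toLp.symm), map_zero, map_zero] at h1
    refine Eq.trans ?_ h1.symm
    refine integral_congr_ae ?_
    filter_upwards [hm.coeFn_toLp] with x hx
    rw [hx, smul_eq_mul, mul_comm]
  · conv_lhs => rw [← Finset.univ_sum_single f, map_sum]
    refine Finset.sum_congr rfl fun i _ => ?_
    have h1 := hk' i (f i)
    rw [ContinuousLinearMap.comp_apply, ContinuousLinearMap.comp_apply, S.P_left] at h1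
    exact h1

lemma weak_null (f : ι → S.H) (φ : (ι → S.H) →L[ℂ] ℂ) :
    Tendsto (fun τ => φ (S.sh τ f)) atTop (𝓝 0) := by
  have hc := conj_of_one_lt S.hs
  obtain ⟨k, hk, -, h⟩ := S.rep hc φ
  have h1 := tendsto_finsetSum Finset.univ fun i _ =>
    tendsto_pair_shift hc (hk.coord hc.symm.pos i) ((S.raw_inL f).coord S.hs0 i)
  rw [Finset.sum_const_zero] at h1
  refine h1.congr fun τ => ?_
  rw [h]
  refine Finset.sum_congr rfl fun i _ => integral_congr_ae ?_
  filter_upwards [S.raw_sh τ f] with x hx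
  rw [hx]

end Setup

end

end Pool.Agent.P.MP_a3f7df_an
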