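import Pool.Agent.P.MP_a3f7df_an.F1
set_option maxHeartbeats 400000

/-! Semi-Fredholm Toeplitz operators with almost periodic symbols. -/

open MeasureTheory Set Filter Topology Complex Function
open scoped ENNReal NNReal Real

namespace Pool.Agent.P.MP_a3f7df_an

noncomputable section

variable {ι : Type} [Fintype ι] {p : ℝ≥0∞} [Fact (1 ≤ p)]

lemma norm_le_of_enorm {X Y : Type*} [NormedAddCommGroup X] [NormedAddCommGroup Y] {C : ℝ≥0∞}
    (hC : C ≠ ∞) {u : X} {v : Y} (h : ‖u‖ₑ ≤ C * ‖v‖ₑ) : ‖u‖ ≤ C.toReal * ‖v‖ := by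
  have := ENNReal.toReal_mono (ENNReal.mul_ne_top hC enorm_ne_top) h
  rwa [ENNReal.toReal_mul, toReal_enorm, toReal_enorm] at this

lemma enorm_le_of_norm {X Y : Type*} [NormedAddCommGroup X] [NormedAddCommGroup Y] {C : ℝ}
    (hC : 0 ≤ C) {u : X} {v : Y} (h : ‖u‖ ≤ C * ‖v‖) : ‖u‖ₑ ≤ ENNReal.ofReal C * ‖v‖ₑ := by
  rw [← ofReal_norm, ← ofReal_norm, ← ENNReal.ofReal_mul hC]
  exact ENNReal.ofReal_le_ofReal h

lemma eq_zero_of_small {x D : ℝ≥0∞} (hD : D ≠ ∞)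
    (h : ∀ e : ℝ, 0 < e → e ≤ 1 → x ≤ D * ENNReal.ofReal e) : x = 0 := by
  by_contra hx
  obtain ⟨η, hη0, hη⟩ := exists_between (pos_iff_ne_zero.2 hx)
  obtain ⟨e, he, he1, he2⟩ := exists_small hD hη0.ne'
  exact absurd ((h e he he1).trans he2) (not_le.2 hη)

lemma ae_shift {P : ℝ → Prop} (h : ∀ᵐ x, P x) (τ : ℝ) : ∀ᵐ x, P (x + τ) :=
  (measurePreserving_add_right volume τ).quasiMeasurePreserving.ae h

namespace Setup

variable (S : Setup ι p)

theorem antilip_of_LB {C : ℝ≥0∞} (hC : C ≠ ∞) (h : LB 1 p.toReal C S.G) :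
    ∃ K, AntilipschitzWith K S.T := by
  refine ⟨(C * Fintype.card ι).toNNReal, S.T.antilipschitz_of_bound fun f => ?_⟩
  refine norm_le_of_enorm (C := C * Fintype.card ι) (by finiteness) ((S.enorm_le_raw f).trans ?_)
  have := h _ _ (S.raw_inL f) (S.err_inL f) (S.raw_ann f) (S.hT f)
  simp only [sub_sub_cancel] at this
  rw [mul_assoc]
  exact this.trans (mul_le_mul_right (S.raw_le_enorm _) _)

theorem LB_of_antilip {K : ℝ≥0} (h : AntilipschitzWith K S.T) :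
    ∃ C : ℝ≥0∞, C ≠ ∞ ∧ LB 1 p.toReal C S.G := by
  obtain ⟨C, hC, hkey⟩ := S.key
  refine ⟨Fintype.card ι * (ENNReal.ofReal K * C), by finiteness, fun f₁ f₂ i₁ i₂ a₁ a₂ => ?_⟩
  obtain ⟨f, hf⟩ := S.exists_mk i₁ a₁
  have h1 := hkey f 0 f₂ (fun x => S.G x (f₁ x) - f₂ x) i₂ a₂ (by
    filter_upwards [hf, S.raw_zero] with x hx hx'
    rw [hx, hx']
    simp)
  rw [sub_zero] at h1
  have h2 := enorm_le_of_norm K.2 (S.T.bound_of_antilipschitz h f)
  have h3 : nrm p.toReal (fun x => ‖f₁ x‖ₑ) = nrm p.toReal (fun x => ‖raw f x‖ₑ) := by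
    refine nrm_congr_ae ?_
    filter_upwards [hf] with x hx using by rw [hx]
  rw [h3, mul_assoc, mul_assoc]
  exact (S.raw_le_enorm f).trans (mul_le_mul_right (h2.trans (mul_le_mul_right h1 _)) _)

lemma err_le {τ e : ℝ} (hτ : ∀ x, ‖S.G (x + τ) - S.G x‖ ≤ e) (x : ℝ) (v : ι → ℂ) :
    ‖(S.G (x + τ) - S.G x) v‖ₑ ≤ ENNReal.ofReal e * ‖v‖ₑ := by
  refine (ContinuousLinearMap.le_opENorm _ _).trans (mul_le_mul_left ?_ _)
  rw [← ofReal_norm]
  exact ENNReal.ofReal_le_ofReal (hτ x)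

theorem injective_of_left (hL : LeftFredholm S.T) : Injective S.T := by
  obtain ⟨C, hC, hkey⟩ := S.key
  obtain ⟨D, hD, hb⟩ := left_bound (X := ι → S.H) S.T hL
  rw [injective_iff_map_eq_zero]
  intro f hf
  set ν := nrm p.toReal (fun x => ‖raw f x‖ₑ) with hν
  have hνt : ν ≠ ∞ := (S.raw_inL f).2
  have hν0 : ν = 0 := by
    refine eq_zero_of_small (D := Fintype.card ι * (1 + ENNReal.ofReal D * (C * ν)))
      (by finiteness) fun e he _ => ?_
    obtain ⟨τ, hτ1, hτ2⟩ := ((S.goodG.2.2.frequently he).and_eventually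
      (hb _ (S.weak_null f) e he)).exists
    have h1 := hkey (S.sh τ f) 0 _ (fun x => -(S.G (x + τ) - S.G x) (raw f (x + τ)))
      ((S.err_inL f).shift τ) ((S.hT f).shift τ) (by
        filter_upwards [S.raw_sh τ f, S.raw_zero, ae_shift S.raw_zero τ] with x hx hx' hx''
        rw [hx, hx', hf, hx'']
        simp)
    have h2 : nrm p.toReal (fun x => ‖-(S.G (x + τ) - S.G x) (raw f (x + τ))‖ₑ) ≤
        ENNReal.ofReal e * ν := by
      rw [hν, ← nrm_shift _ (fun x => ‖raw f x‖ₑ) τ, ← nrm_const_mul S.hs0 ENNReal.ofReal_ne_top]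
      refine nrm_mono S.hs0 fun x => ?_
      rw [enorm_neg]
      exact S.err_le hτ1 x _
    rw [sub_zero] at h1
    have h3 : ‖S.sh τ f‖ₑ ≤ ENNReal.ofReal e + ENNReal.ofReal D * ‖S.T (S.sh τ f)‖ₑ := by
      rw [← ofReal_norm, ← ofReal_norm, ← ENNReal.ofReal_mul hD,
        ← ENNReal.ofReal_add he.le (by positivity)]
      exact ENNReal.ofReal_le_ofReal hτ2
    calc ν = nrm p.toReal (fun x => ‖raw (S.sh τ f) x‖ₑ) := (S.nrm_sh τ f).symm
      _ ≤ Fintype.card ι * ‖S.sh τ f‖ₑ := S.raw_le_enorm _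
      _ ≤ Fintype.card ι * (ENNReal.ofReal e +
          ENNReal.ofReal D * (C * (ENNReal.ofReal e * ν))) := by
          gcongr
          refine h3.trans ?_
          gcongr
          exact h1.trans (by gcongr)
      _ = _ := by ring
  have := S.enorm_le_raw f
  rw [← hν, hν0] at this
  exact enorm_eq_zero.1 (le_zero_iff.1 this)

theorem surjective_of_right (hR : RightFredholm S.T) : Surjective S.T := by
  obtain ⟨C, hC, hkey⟩ := S.key
  obtain ⟨D, hD, hb⟩ := right_bound (X := ι → S.H) S.T hR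
  intro k
  set ν := nrm p.toReal (fun x => ‖raw k x‖ₑ) with hν
  have hνt : ν ≠ ∞ := (S.raw_inL k).2
  set n : ℝ≥0∞ := (Fintype.card ι : ℝ≥0∞) with hn
  have hnt : n ≠ ∞ := by simp [hn]
  refine hR.1.closure_subset (EMetric.mem_closure_iff.2 fun η hη => ?_)
  obtain ⟨η', hη0, hη'⟩ := exists_between hη
  obtain ⟨e, he, he1, he2⟩ := exists_small
    (C := C * (n + n * (ENNReal.ofReal D * (ν + 1)))) (by finiteness) hη0.ne'
  obtain ⟨τ, hτ1, f, m, hf3, hm2, hf2⟩ := ((S.goodG.2.2.frequently he).and_eventually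
    (hb _ (S.weak_null k) e he)).exists
  have hm3 : ‖m‖ₑ ≤ ENNReal.ofReal e := by
    rw [← ofReal_norm]
    exact ENNReal.ofReal_le_ofReal hm2
  have hf4 : ‖f‖ₑ ≤ ENNReal.ofReal D * (ν + 1) := by
    refine (enorm_le_of_norm hD hf2).trans (mul_le_mul_right ?_ _)
    rw [hf3]
    refine enorm_sub_le.trans (add_le_add ((S.enorm_le_raw _).trans (S.nrm_sh τ k).le)
      (hm3.trans (ENNReal.ofReal_le_one.2 he1)))
  have h1 := hkey (S.sh (-τ) f) k _
    (fun x => (S.G (x + -τ + τ) - S.G (x + -τ)) (raw f (x + -τ)) - raw m (x + -τ))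
    ((S.err_inL f).shift (-τ)) ((S.hT f).shift (-τ)) (by
      filter_upwards [S.raw_sh (-τ) f, ae_shift (S.raw_sh τ k) (-τ),
        ae_shift (S.raw_sub (S.sh τ k) m) (-τ)] with x hx hx' hx''
      rw [hx, hf3, hx'', hx']
      simp only [neg_add_cancel_right, _root_.sub_apply]
      abel)
  have h2 : nrm p.toReal (fun x => ‖(S.G (x + -τ + τ) - S.G (x + -τ)) (raw f (x + -τ)) -
      raw m (x + -τ)‖ₑ) ≤ ENNReal.ofReal e * (n * ‖f‖ₑ) + 1 * (n * ‖m‖ₑ) := by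
    refine (nrm_le_add S.hs.le ((S.raw_inL f).shift (-τ)).1.enorm
      ((S.raw_inL m).shift (-τ)).1.enorm (b := ENNReal.ofReal e) ENNReal.ofReal_ne_top
      ENNReal.one_ne_top fun x => ?_).trans ?_
    · rw [one_mul]
      exact enorm_sub_le.trans (add_le_add (S.err_le hτ1 _ _) le_rfl)
    · rw [nrm_shift _ (fun x => ‖raw f x‖ₑ), nrm_shift _ (fun x => ‖raw m x‖ₑ)]
      gcongr
      · exact S.raw_le_enorm f
      · exact S.raw_le_enorm m
  refine ⟨_, ⟨S.sh (-τ) f, rfl⟩, lt_of_le_of_lt ?_ hη'⟩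
  rw [edist_comm, edist_eq_enorm_sub]
  refine le_trans ?_ he2
  calc _ ≤ C * (ENNReal.ofReal e * (n * (ENNReal.ofReal D * (ν + 1))) +
        1 * (n * ENNReal.ofReal e)) := h1.trans (mul_le_mul_right (h2.trans (by gcongr)) _)
    _ = _ := by ring

lemma pr_single [DecidableEq ι] (i : ι) (h : S.H) (k : ℝ → ι → ℂ) :
    pr k (raw (Pi.single i h : ι → S.H)) =
      ∫ x, k x i * (h : Lp ℂ p (volume : Measure ℝ)) x := by
  unfold pr
  rw [Finset.sum_eq_single i]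
  · simp [raw]
  · intro j _ hj
    refine integral_eq_zero_of_ae ?_
    filter_upwards [Lp.coeFn_zero ℂ p (volume : Measure ℝ)] with x hx
    simp only [raw, Pi.single_eq_of_ne hj, Submodule.coe_zero, hx, Pi.zero_apply, mul_zero]
  · simp

lemma pair_proj {s' : ℝ} (hc : p.toReal.HolderConjugate s') {k g : ℝ → ℂ} (hk : InL s' k)
    (ak : Ann (-1) k) (hg : MemLp g p volume) :
    ∫ x, g x * k x = ∫ x, k x * (S.Pr (hg.toLp g) : Lp ℂ p (volume : Measure ℝ)) x := by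
  have h1 := orth (ε := -1) (by norm_num) hc (InL_Lp S.h0 S.h2 _) hk (S.hP (hg.toLp g)) ak
  rw [← sub_eq_zero, ← h1]
  have h2 : ∫ x, g x * k x = ∫ x, k x * (hg.toLp g) x := by
    refine integral_congr_ae ?_
    filter_upwards [hg.coeFn_toLp] with x hx
    rw [hx, mul_comm]
  rw [h2, ← integral_sub (integrable_mul_of_InL hc hk (InL_Lp S.h0 S.h2 _))
    (integrable_mul_of_InL hc hk (InL_Lp S.h0 S.h2 _))]
  refine integral_congr_ae ?_
  filter_upwards [Lp.coeFn_sub (hg.toLp g) (S.Pr (hg.toLp g))] with x hx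
  rw [hx, Pi.sub_apply, mul_sub]

lemma pr_T {s' : ℝ} (hc : p.toReal.HolderConjugate s') {k g : ℝ → ι → ℂ} (hk : InL s' k)
    (hg : InL s' g) (ak : Ann (-1) k) (ag : Ann 1 g) (f : ι → S.H) :
    pr k (raw (S.T f)) = pr (fun x => S.GT x (k x) - g x) (raw f) := by
  have h1 := pr_orth (ε := -1) (by norm_num) hc.symm (S.err_inL f) hk (S.hT f) ak
  rw [pr_sub_left hc.symm (S.goodG.inL_apply S.hs0 (S.raw_inL f)) (S.raw_inL _) hk, sub_eq_zero,
    pr_comm, pr_comm (raw _)] at h1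
  rw [pr_sub_left hc (S.goodGT.inL_apply hc.symm.pos hk) hg (S.raw_inL f),
    pr_orth (one_mul 1) hc hg (S.raw_inL f) ag (S.raw_ann f), sub_zero, ← h1]
  exact pr_tr hc S.good hk (S.raw_inL f)

lemma enorm_single_le [DecidableEq ι] (i : ι) {g : ℝ → ℂ} (hg : MemLp g p volume) :
    ‖(Pi.single i (S.Pr (hg.toLp g)) : ι → S.H)‖ₑ ≤
      ‖S.Pr‖ₑ * nrm p.toReal (fun x => ‖g x‖ₑ) := by
  rw [Pi.enorm_single, ← eLpNorm_eq_nrm S.h0 S.h2, ← Lp.enorm_toLp hg]
  exact S.Pr.le_opENorm _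

lemma nrm_le_of_coord {s' : ℝ} (hc : p.toReal.HolderConjugate s') {k : ℝ → ι → ℂ}
    (hk : InL s' k) {C : ℝ≥0∞} (h : ∀ i, ∀ g : ℝ → ℂ, MemLp g p volume →
      ‖∫ x, g x * k x i‖ₑ ≤ C * nrm p.toReal (fun x => ‖g x‖ₑ)) :
    nrm s' (fun x => ‖k x‖ₑ) ≤ Fintype.card ι * C := by
  refine (nrm_pi_le_sum hc.symm.lt.le hk.1).trans ?_
  rw [← nsmul_eq_mul, ← Finset.card_univ, ← Finset.sum_const]
  refine Finset.sum_le_sum fun i _ => norming hc.symm (hk.coord hc.symm.pos i).1.measurable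
    fun g hg _ => h i g ?_
  have h0 : p ≠ 0 := by
    rintro rfl
    simpa using hc.pos
  have h2 : p ≠ ∞ := by
    rintro rfl
    simpa using hc.pos
  exact (hg.inL hc.pos).memLp h0 h2

theorem LB_of_surjective {s' : ℝ} (hc : p.toReal.HolderConjugate s') (h : Surjective S.T) :
    ∃ C : ℝ≥0∞, C ≠ ∞ ∧ LB (-1) s' C S.GT := by
  classical
  obtain ⟨D, hD, hb⟩ := preimage_bound (X := ι → S.H) (Y := ι → S.H) S.T h
  set n : ℝ≥0∞ := (Fintype.card ι : ℝ≥0∞) with hn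
  have hnt : n ≠ ∞ := by simp [hn]
  refine ⟨n * (n * (n * (ENNReal.ofReal D * ‖S.Pr‖ₑ))), by finiteness,
    fun k₁ k₂ i₁ i₂ a₁ a₂ => ?_⟩
  rw [neg_neg] at a₂
  rw [mul_assoc]
  refine nrm_le_of_coord hc i₁ fun i g hg => ?_
  obtain ⟨f, hf1, hf2⟩ := hb (Pi.single i (S.Pr (hg.toLp g)))
  rw [S.pair_proj hc (i₁.coord hc.symm.pos i) (a₁.coord (i₁.loc hc.symm.lt) i) hg,
    ← S.pr_single i _ k₁, ← hf1, S.pr_T hc i₁ i₂ a₁ a₂]
  refine (enorm_pr_le hc ((S.goodGT.inL_apply hc.symm.pos i₁).sub hc.symm.lt.le i₂)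
    (S.raw_inL f)).trans ?_
  calc _ ≤ n * (nrm s' (fun x => ‖S.GT x (k₁ x) - k₂ x‖ₑ) * (n * (ENNReal.ofReal D *
        (‖S.Pr‖ₑ * nrm p.toReal (fun x => ‖g x‖ₑ))))) := by
        gcongr
        refine (S.raw_le_enorm f).trans (mul_le_mul_right ((enorm_le_of_norm hD.le hf2).trans
          (mul_le_mul_right (S.enorm_single_le i hg) _)) _)
    _ = _ := by ring

theorem surjective_of_LB {s' : ℝ} (hc : p.toReal.HolderConjugate s') {C : ℝ≥0∞} (hC : C ≠ ∞)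
    (h : LB (-1) s' C S.GT) : Surjective S.T := by
  classical
  set n : ℝ≥0∞ := (Fintype.card ι : ℝ≥0∞) with hn
  have hnt : n ≠ ∞ := by simp [hn]
  refine surj_of_dual' (X := ι → S.H) (Y := ι → S.H) S.T
    (C := n * (C * (n * ‖S.Pr‖ₑ) * n)) (by finiteness) fun φ K hK f => ?_
  obtain ⟨k, ik, ak, hφ⟩ := S.rep hc φ
  have iG := S.goodGT.inL_apply hc.symm.pos ik
  choose g ig ag ag' using fun i => decomp (one_mul 1) hc.symm.lt (iG.coord hc.symm.pos i)
  have ig' : InL s' fun x i => g i x := InL_of_coord hc.symm.lt.le ig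
  have ag1 : Ann 1 fun x i => g i x := Ann_of_coord (ig'.loc hc.symm.lt) ag
  have ir := iG.sub hc.symm.lt.le ig'
  have h1 := h _ _ ik ig' ak (by rwa [neg_neg])
  have h2 : nrm s' (fun x => ‖S.GT x (k x) - fun i => g i x‖ₑ) ≤
      n * (K * ‖S.Pr‖ₑ) := by
    refine nrm_le_of_coord hc ir fun i u hu => ?_
    rw [S.pair_proj hc (ir.coord hc.symm.pos i) (ag' i) hu,
      ← S.pr_single i _ (fun x => S.GT x (k x) - fun i => g i x), ← S.pr_T hc ik ig' ak ag1, ← hφ,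
      mul_assoc]
    exact (hK _).trans (mul_le_mul_right (S.enorm_single_le i hu) _)
  rw [hφ]
  refine (enorm_pr_le hc ik (S.raw_inL f)).trans ?_
  calc _ ≤ n * (C * (n * (K * ‖S.Pr‖ₑ)) * (n * ‖f‖ₑ)) := by
        gcongr
        · exact h1.trans (by gcongr)
        · exact S.raw_le_enorm f
    _ = _ := by ring

end Setup

variable {q : ℝ≥0∞} [Fact (1 ≤ q)]

theorem left_indep (S : Setup ι p) (S' : Setup ι q) (hM : S.M = S'.M)
    (hL : LeftFredholm S.T) : IsClosed (range S'.T) ∧ Injective S'.T := by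
  obtain ⟨K, hK⟩ := antilip_of_inj (X := ι → S.H) (Y := ι → S.H) S.T
    (S.injective_of_left hL) hL.1
  obtain ⟨C, hC, hLB⟩ := S.LB_of_antilip hK
  obtain ⟨hu, ⟨B, hB, hb⟩, hap⟩ := S.goodG
  obtain ⟨C', hC', hLB'⟩ := LB_indep (one_mul 1) S.hs S'.hs hC hB hu hb hap hLB
  have hG : S.G = S'.G := by
    ext1 t
    rw [Setup.G, Setup.G, hM]
  obtain ⟨K', hK'⟩ := S'.antilip_of_LB hC' (hG ▸ hLB')
  exact ⟨hK'.isClosed_range S'.T.uniformContinuous, hK'.injective⟩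

theorem right_indep (S : Setup ι p) (S' : Setup ι q) (hM : S.M = S'.M)
    (hR : RightFredholm S.T) : Surjective S'.T := by
  have hc := conj_of_one_lt S.hs
  have hc' := conj_of_one_lt S'.hs
  obtain ⟨C, hC, hLB⟩ := S.LB_of_surjective hc (S.surjective_of_right hR)
  obtain ⟨hu, ⟨B, hB, hb⟩, hap⟩ := S.goodGT
  obtain ⟨C', hC', hLB'⟩ := LB_indep (ε := -1) (by norm_num) hc.symm.lt hc'.symm.lt hC hB hu hb
    hap hLB
  have hG : S.GT = S'.GT := by
    ext1 t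
    rw [Setup.GT, Setup.GT, hM]
  exact S'.surjective_of_LB hc' hC' (hG ▸ hLB')

end

end Pool.Agent.P.MP_a3f7df_an
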