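import Pool.Agent.P.MP_a3f7df_an.K

/-! Cauchy integrals, annihilation conditions and Poisson integrals. -/

open MeasureTheory Set Filter Topology Complex
open scoped ENNReal NNReal Real

namespace Pool.Agent.P.MP_a3f7df_an

noncomputable section

variable {E : Type*} [NormedAddCommGroup E] [NormedSpace ℂ E]

/-- Functions whose Cauchy integrals converge absolutely. -/
def Loc (f : ℝ → E) : Prop :=
  StronglyMeasurable f ∧ ∀ z : ℂ, z.im ≠ 0 → Integrable (fun t => ker z t • f t)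

def Cau (f : ℝ → E) (z : ℂ) : E := ∫ t, ker z t • f t

/-- The Cauchy integral vanishes on the half-plane `0 < ε * Im z`. -/
def Ann (ε : ℝ) (f : ℝ → E) : Prop := ∀ z : ℂ, 0 < ε * z.im → Cau f z = 0

def Pois (y : ℝ) (f : ℝ → E) (x : ℝ) : E := ∫ t, ((Pk y (t - x) : ℝ) : ℂ) • f t

lemma conj_of_one_lt {s : ℝ} (hs : 1 < s) : s.HolderConjugate (Real.conjExponent s) :=
  Real.HolderConjugate.conjExponent hs

lemma InL.loc {s : ℝ} (hs : 1 < s) {f : ℝ → E} (hf : InL s f) : Loc f :=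
  ⟨hf.1, fun _ hz => integrable_smul_of_InL (conj_of_one_lt hs)
    (InL_ker hz (conj_of_one_lt hs).symm.lt) hf⟩

lemma Loc.add {f g : ℝ → E} (hf : Loc f) (hg : Loc g) : Loc (fun x => f x + g x) :=
  ⟨hf.1.add hg.1, fun z hz => by
    simp_rw [smul_add]; exact (hf.2 z hz).add (hg.2 z hz)⟩

lemma Loc.sub {f g : ℝ → E} (hf : Loc f) (hg : Loc g) : Loc (fun x => f x - g x) :=
  ⟨hf.1.sub hg.1, fun z hz => by
    simp_rw [smul_sub]; exact (hf.2 z hz).sub (hg.2 z hz)⟩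

lemma Loc.ker_smul {f : ℝ → E} (hf : Loc f) {w : ℂ} (hw : w.im ≠ 0) :
    Loc (fun t => ker w t • f t) := by
  refine ⟨(ker_measurable w).stronglyMeasurable.smul hf.1, fun z hz => ?_⟩
  simp_rw [smul_comm (ker z _) (ker w _)]
  exact (hf.2 z hz).bdd_smul |w.im|⁻¹ (ker_measurable w).aestronglyMeasurable
    (Eventually.of_forall (norm_ker_le hw))

lemma Loc.clm {F : Type*} [NormedAddCommGroup F] [NormedSpace ℂ F] {f : ℝ → E} (hf : Loc f)
    (T : E →L[ℂ] F) : Loc (fun x => T (f x)) := by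
  refine ⟨T.continuous.comp_stronglyMeasurable hf.1, fun z hz => ?_⟩
  simp_rw [← T.map_smul]
  exact T.integrable_comp (hf.2 z hz)

lemma Loc.shift {f : ℝ → E} (hf : Loc f) (a : ℝ) : Loc (fun x => f (x + a)) := by
  refine ⟨hf.1.comp_measurable (measurable_id.add_const a), fun z hz => ?_⟩
  have := (hf.2 (z + a) (by simpa using hz)).comp_add_right a
  simpa only [ker_shift] using this

lemma Cau_add {f g : ℝ → E} (hf : Loc f) (hg : Loc g) {z : ℂ} (hz : z.im ≠ 0) :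
    Cau (fun x => f x + g x) z = Cau f z + Cau g z := by
  unfold Cau
  simp_rw [smul_add]
  exact integral_add (hf.2 z hz) (hg.2 z hz)

lemma Cau_sub {f g : ℝ → E} (hf : Loc f) (hg : Loc g) {z : ℂ} (hz : z.im ≠ 0) :
    Cau (fun x => f x - g x) z = Cau f z - Cau g z := by
  unfold Cau
  simp_rw [smul_sub]
  exact integral_sub (hf.2 z hz) (hg.2 z hz)

lemma Cau_smul (c : ℂ) (f : ℝ → E) (z : ℂ) : Cau (fun x => c • f x) z = c • Cau f z := by
  unfold Cau
  simp_rw [smul_comm (ker z _) c]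
  exact integral_smul c _

lemma Cau_clm {F : Type*} [NormedAddCommGroup F] [NormedSpace ℂ F] [CompleteSpace E]
    [CompleteSpace F] {f : ℝ → E} (hf : Loc f) (T : E →L[ℂ] F) {z : ℂ} (hz : z.im ≠ 0) :
    Cau (fun x => T (f x)) z = T (Cau f z) := by
  unfold Cau
  simp_rw [← T.map_smul]
  exact T.integral_comp_comm (hf.2 z hz)

lemma Cau_shift (f : ℝ → E) (a : ℝ) (z : ℂ) : Cau (fun x => f (x + a)) z = Cau f (z + a) := by
  unfold Cau
  rw [← integral_add_right_eq_self (fun t => ker (z + a) t • f t) a]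
  simp only [ker_shift]

lemma Cau_congr_ae {f g : ℝ → E} (h : f =ᵐ[volume] g) (z : ℂ) : Cau f z = Cau g z := by
  unfold Cau
  refine integral_congr_ae ?_
  filter_upwards [h] with x hx using by rw [hx]

lemma Ann.add {ε : ℝ} {f g : ℝ → E} (hf : Loc f) (hg : Loc g) (af : Ann ε f) (ag : Ann ε g) :
    Ann ε (fun x => f x + g x) := fun z hz => by
  rw [Cau_add hf hg (ne_of_sign hz), af z hz, ag z hz, add_zero]

lemma Ann.sub {ε : ℝ} {f g : ℝ → E} (hf : Loc f) (hg : Loc g) (af : Ann ε f) (ag : Ann ε g) :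
    Ann ε (fun x => f x - g x) := fun z hz => by
  rw [Cau_sub hf hg (ne_of_sign hz), af z hz, ag z hz, sub_zero]

lemma Ann.const_smul {ε : ℝ} {f : ℝ → E} (af : Ann ε f) (c : ℂ) :
    Ann ε (fun x => c • f x) := fun z hz => by
  rw [Cau_smul, af z hz, smul_zero]

lemma Ann.neg {ε : ℝ} {f : ℝ → E} (af : Ann ε f) : Ann ε (fun x => -f x) := by
  simpa using af.const_smul (-1)

lemma Ann.zero (ε : ℝ) : Ann ε (fun _ => (0 : E)) := fun z _ => by simp [Cau]

lemma Ann.clm {F : Type*} [NormedAddCommGroup F] [NormedSpace ℂ F] [CompleteSpace E]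
    [CompleteSpace F] {ε : ℝ} {f : ℝ → E} (hf : Loc f) (af : Ann ε f) (T : E →L[ℂ] F) :
    Ann ε (fun x => T (f x)) := fun z hz => by
  rw [Cau_clm hf T (ne_of_sign hz), af z hz, map_zero]

lemma Ann.shift {ε : ℝ} {f : ℝ → E} (af : Ann ε f) (a : ℝ) :
    Ann ε (fun x => f (x + a)) := fun z hz => by
  rw [Cau_shift, af _ (by simpa using hz)]

lemma Ann.congr_ae {ε : ℝ} {f g : ℝ → E} (af : Ann ε f) (h : f =ᵐ[volume] g) : Ann ε g :=
  fun z hz => by rw [← Cau_congr_ae h, af z hz]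

lemma Ann_ker {ε : ℝ} {w : ℂ} (hw : 0 < ε * w.im) : Ann ε (ker w) := fun _ hz =>
  int_same hz hw

lemma Ann.smul_const [CompleteSpace E] {ε : ℝ} {k : ℝ → ℂ} (ak : Ann ε k) (v : E) :
    Ann ε (fun x => k x • v) := fun z hz => by
  have := ak z hz
  unfold Cau at this ⊢
  simp_rw [smul_smul]
  rw [integral_smul_const]
  simp only [smul_eq_mul] at this
  rw [this, zero_smul]

lemma norm_ker_le_two {z z₀ : ℂ} (hz₀ : z₀.im ≠ 0) (h : ‖z - z₀‖ < |z₀.im| / 2) (t : ℝ) :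
    ‖ker z t‖ ≤ 2 * ‖ker z₀ t‖ := by
  unfold ker
  have h1 : |z₀.im| ≤ ‖(t : ℂ) - z₀‖ := by
    have := Complex.abs_im_le_norm ((t : ℂ) - z₀)
    simpa using this
  have h2 : ‖(t : ℂ) - z₀‖ ≤ ‖(t : ℂ) - z‖ + ‖z - z₀‖ := norm_sub_le_norm_sub_add_norm_sub _ _ _
  have h3 := abs_pos.2 hz₀
  rw [norm_inv, norm_inv, ← div_eq_mul_inv, inv_eq_one_div,
    div_le_div_iff₀ (by linarith) (by linarith)]
  linarith

lemma im_ne_of_near {z z₀ : ℂ} (h : ‖z - z₀‖ < |z₀.im| / 2) : z.im ≠ 0 := by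
  intro h0
  have := Complex.abs_im_le_norm (z - z₀)
  simp [h0] at this
  have h3 := abs_nonneg z₀.im
  linarith

lemma near_mem_nhds {z₀ : ℂ} (hz₀ : z₀.im ≠ 0) : ∀ᶠ z in 𝓝 z₀, ‖z - z₀‖ < |z₀.im| / 2 := by
  have := Metric.ball_mem_nhds z₀ (half_pos (abs_pos.2 hz₀))
  filter_upwards [this] with z hz
  rwa [mem_ball_iff_norm] at hz

lemma Cau_continuousAt {f : ℝ → E} (hf : Loc f) {z₀ : ℂ} (hz₀ : z₀.im ≠ 0) :
    ContinuousAt (Cau f) z₀ := by
  refine continuousAt_of_dominated (F := fun z t => ker z t • f t)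
    (bound := fun t => 2 * ‖ker z₀ t • f t‖) ?_ ?_ ((hf.2 z₀ hz₀).norm.const_mul 2) ?_
  · exact Eventually.of_forall fun z =>
      ((ker_measurable z).stronglyMeasurable.smul hf.1).aestronglyMeasurable
  · filter_upwards [near_mem_nhds hz₀] with z hz
    refine Eventually.of_forall fun t => ?_
    rw [norm_smul, norm_smul, ← mul_assoc]
    exact mul_le_mul_of_nonneg_right (norm_ker_le_two hz₀ hz t) (norm_nonneg _)
  · refine Eventually.of_forall fun t => ?_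
    refine ContinuousAt.smul ?_ continuousAt_const
    unfold ker
    exact (continuousAt_const.sub continuousAt_id).inv₀ (sub_ne hz₀ t)

lemma Cau_sub_Cau {f : ℝ → E} (hf : Loc f) {z w : ℂ} (hz : z.im ≠ 0) (hw : w.im ≠ 0) :
    Cau f z - Cau f w = (z - w) • Cau (fun t => ker w t • f t) z := by
  unfold Cau
  rw [← integral_sub (hf.2 z hz) (hf.2 w hw), ← integral_smul]
  congr 1
  ext t
  rw [← sub_smul, ker_sub hz hw, smul_smul, smul_smul, mul_assoc]

lemma Cau_hasDerivAt {f : ℝ → E} (hf : Loc f) {z₀ : ℂ} (hz₀ : z₀.im ≠ 0) :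
    HasDerivAt (Cau f) (Cau (fun t => ker z₀ t • f t) z₀) z₀ := by
  rw [hasDerivAt_iff_tendsto_slope]
  have h1 := (Cau_continuousAt (hf.ker_smul hz₀) hz₀).tendsto.mono_left
    (nhdsWithin_le_nhds (s := {z₀}ᶜ))
  refine h1.congr' ?_
  filter_upwards [self_mem_nhdsWithin, mem_nhdsWithin_of_mem_nhds (near_mem_nhds hz₀)] with z hz hz'
  rw [slope_def_module, Cau_sub_Cau hf (im_ne_of_near hz') hz₀, smul_smul,
    inv_mul_cancel₀ (sub_ne_zero.2 hz), one_smul]

/-- Dividing by a factor with a pole on the annihilating side. -/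
lemma Ann.ker_smul {ε : ℝ} {f : ℝ → E} (hf : Loc f) (af : Ann ε f) {w : ℂ} (hw : 0 < ε * w.im) :
    Ann ε (fun t => ker w t • f t) := by
  have hw0 := ne_of_sign hw
  have h1 : ∀ z : ℂ, 0 < ε * z.im → z ≠ w → Cau (fun t => ker w t • f t) z = 0 := by
    intro z hz hzw
    have := Cau_sub_Cau hf (ne_of_sign hz) hw0
    rw [af z hz, af w hw, sub_zero, eq_comm, smul_eq_zero] at this
    exact this.resolve_left (sub_ne_zero.2 hzw)
  intro z hz
  by_cases hzw : z = w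
  · subst hzw
    have h2 := (Cau_continuousAt (hf.ker_smul hw0) hw0).tendsto.mono_left
      (nhdsWithin_le_nhds (s := {z}ᶜ))
    have h3 : ∀ᶠ v in 𝓝 z, 0 < ε * v.im :=
      (continuous_const.mul Complex.continuous_im).continuousAt.eventually (lt_mem_nhds hz)
    refine tendsto_nhds_unique h2 (tendsto_const_nhds.congr' ?_)
    filter_upwards [self_mem_nhdsWithin, mem_nhdsWithin_of_mem_nhds h3] with v hv hv'
    exact (h1 v hv' hv).symm
  · exact h1 z hz hzw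

lemma eps_ne {ε : ℝ} (hε : ε * ε = 1) : ε ≠ 0 := by
  rintro rfl
  simp at hε

lemma twoPiI_ne {ε : ℝ} (hε : ε * ε = 1) : (2 * π * I * ε : ℂ) ≠ 0 := by
  have hπ : (π : ℂ) ≠ 0 := by exact_mod_cast Real.pi_pos.ne'
  have h2 : (ε : ℂ) ≠ 0 := by exact_mod_cast eps_ne hε
  simp [hπ, h2]

lemma pt_pos {ε : ℝ} (hε : ε * ε = 1) {y : ℝ} (hy : 0 < y) (x : ℝ) :
    0 < ε * (pt x (ε * y)).im := by
  simp [← mul_assoc, hε, hy]

lemma pt_neg {ε : ℝ} (hε : ε * ε = 1) {y : ℝ} (hy : 0 < y) (x : ℝ) :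
    0 < -ε * (pt x (-ε * y)).im := pt_pos (by simpa using hε) hy x

lemma Loc.integrable_Pk {f : ℝ → E} (hf : Loc f) {y : ℝ} (hy : 0 < y) (x : ℝ) :
    Integrable (fun t => ((Pk y (t - x) : ℝ) : ℂ) • f t) := by
  have h1 : (1 : ℝ) * 1 = 1 := one_mul 1
  have h2 := ((hf.2 _ (ne_of_sign (pt_pos h1 hy x))).sub
    (hf.2 _ (ne_of_sign (pt_neg h1 hy x)))).smul (2 * π * I * (1 : ℝ) : ℂ)⁻¹
  refine h2.congr (Eventually.of_forall fun t => ?_)
  simp only [Pi.smul_apply, Pi.sub_apply]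
  rw [← sub_smul, ker_pt_sub h1 hy, smul_smul, ← mul_assoc, inv_mul_cancel₀ (twoPiI_ne h1), one_mul]

lemma Cau_jump {ε : ℝ} (hε : ε * ε = 1) {f : ℝ → E} (hf : Loc f) {y : ℝ} (hy : 0 < y) (x : ℝ) :
    Cau f (pt x (ε * y)) - Cau f (pt x (-ε * y)) = (2 * π * I * ε : ℂ) • Pois y f x := by
  unfold Cau Pois
  rw [← integral_sub (hf.2 _ (ne_of_sign (pt_pos hε hy x))) (hf.2 _ (ne_of_sign (pt_neg hε hy x))),
    ← integral_smul]
  congr 1
  ext t
  rw [← sub_smul, ker_pt_sub hε hy, smul_smul]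

lemma Cau_eq_Pois {ε : ℝ} (hε : ε * ε = 1) {f : ℝ → E} (hf : Loc f) (af : Ann (-ε) f) {y : ℝ}
    (hy : 0 < y) (x : ℝ) : Cau f (pt x (ε * y)) = (2 * π * I * ε : ℂ) • Pois y f x := by
  rw [← Cau_jump hε hf hy, af _ (pt_neg hε hy x), sub_zero]

/-- Dividing by a factor with a pole on the other side, after subtracting the value there. -/
lemma Ann.ker_smul_sub [CompleteSpace E] {ε : ℝ} (hε : ε * ε = 1) {f : ℝ → E} (hf : Loc f)
    (af : Ann (-ε) f) {y : ℝ} (hy : 0 < y) (a : ℝ) :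
    Ann (-ε) (fun t => ker (pt a (ε * y)) t • (f t - Pois y f a)) := by
  intro z hz
  have hw := pt_pos hε hy a
  set w := pt a (ε * y) with hwdef
  have hw0 := ne_of_sign hw
  have hz0 := ne_of_sign hz
  have hzw : z - w ≠ 0 := by
    rw [sub_ne_zero]
    rintro rfl
    linarith
  have h1 := Cau_sub_Cau hf hz0 hw0
  rw [af z hz, hwdef, Cau_eq_Pois hε hf af hy, ← hwdef] at h1
  have h2 := int_opp hε hz hw
  have h3 : Cau (fun t => ker w t • (f t - Pois y f a)) z =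
      Cau (fun t => ker w t • f t) z - (∫ t, ker z t * ker w t) • Pois y f a := by
    unfold Cau
    rw [← integral_smul_const, ← integral_sub ((hf.ker_smul hw0).2 z hz0)
      ((integrable_ker_mul hz0 hw0).smul_const _)]
    congr 1
    ext t
    beta_reduce
    rw [smul_sub, smul_sub, smul_smul (ker z t) (ker w t) (Pois y f a)]
  have h4 : (z - w) • Cau (fun t => ker w t • (f t - Pois y f a)) z = 0 := by
    rw [h3, smul_sub, ← h1, smul_smul, h2]
    simp
  exact (smul_eq_zero.1 h4).resolve_left hzw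

lemma Pois_add {f g : ℝ → E} (hf : Loc f) (hg : Loc g) {y : ℝ} (hy : 0 < y) (x : ℝ) :
    Pois y (fun t => f t + g t) x = Pois y f x + Pois y g x := by
  unfold Pois
  simp_rw [smul_add]
  exact integral_add (hf.integrable_Pk hy x) (hg.integrable_Pk hy x)

lemma Pois_sub {f g : ℝ → E} (hf : Loc f) (hg : Loc g) {y : ℝ} (hy : 0 < y) (x : ℝ) :
    Pois y (fun t => f t - g t) x = Pois y f x - Pois y g x := by
  unfold Pois
  simp_rw [smul_sub]
  exact integral_sub (hf.integrable_Pk hy x) (hg.integrable_Pk hy x)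

lemma Pois_smul (c : ℂ) (f : ℝ → E) (y x : ℝ) :
    Pois y (fun t => c • f t) x = c • Pois y f x := by
  unfold Pois
  simp_rw [smul_comm _ c]
  exact integral_smul c _

lemma Pois_clm {F : Type*} [NormedAddCommGroup F] [NormedSpace ℂ F] [CompleteSpace E]
    [CompleteSpace F] {f : ℝ → E} (hf : Loc f) (T : E →L[ℂ] F) {y : ℝ} (hy : 0 < y) (x : ℝ) :
    Pois y (fun t => T (f t)) x = T (Pois y f x) := by
  unfold Pois
  simp_rw [← T.map_smul]
  exact T.integral_comp_comm (hf.integrable_Pk hy x)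

lemma Pois_shift (f : ℝ → E) (y a x : ℝ) : Pois y (fun t => f (t + a)) x = Pois y f (x + a) := by
  unfold Pois
  rw [← integral_add_right_eq_self (fun t => ((Pk y (t - (x + a)) : ℝ) : ℂ) • f t) a]
  simp only [add_sub_add_right_eq_sub]

lemma Pois_stronglyMeasurable {f : ℝ → E} (hf : StronglyMeasurable f) (y : ℝ) :
    StronglyMeasurable (Pois y f) := by
  unfold Pois
  refine StronglyMeasurable.integral_prod_right (f := fun x t => ((Pk y (t - x) : ℝ) : ℂ) • f t) ?_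
  refine StronglyMeasurable.smul ?_ (hf.comp_measurable measurable_snd)
  refine Measurable.stronglyMeasurable ?_
  fun_prop

lemma enorm_Pk {y : ℝ} (hy : 0 < y) (t : ℝ) :
    ‖((Pk y t : ℝ) : ℂ)‖ₑ = ENNReal.ofReal (Pk y t) := by
  rw [← ofReal_norm, Complex.norm_real, Real.norm_eq_abs, abs_of_pos (Pk_pos hy t)]

/-- The constant in the pointwise bound for Poisson integrals. -/
def cP (s : ℝ) : ℝ≥0∞ := ENNReal.ofReal π⁻¹ * cc (Real.conjExponent s)

lemma cP_ne_top {s : ℝ} (hs : 1 < s) : cP s ≠ ∞ :=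
  ENNReal.mul_ne_top ENNReal.ofReal_ne_top (cc_ne_top (conj_of_one_lt hs).symm.lt)

lemma enorm_Pois_le {s : ℝ} (hs : 1 < s) {f : ℝ → E} (hf : StronglyMeasurable f) {y : ℝ}
    (hy : 0 < y) (x : ℝ) : ‖Pois y f x‖ₑ ≤ cP s * A (U y s) s (fun t => ‖f t‖ₑ) x := by
  refine (enorm_integral_le_lintegral_enorm _).trans ?_
  simp_rw [enorm_smul, enorm_Pk hy]
  exact W5 hy (conj_of_one_lt hs) hf.enorm x

lemma nrm_Pois_le {s : ℝ} (hs : 1 < s) {f : ℝ → E} (hf : StronglyMeasurable f) {y : ℝ}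
    (hy : 0 < y) : nrm s (fun x => ‖Pois y f x‖ₑ) ≤ cP s * cc s * nrm s (fun t => ‖f t‖ₑ) := by
  have hs0 : 0 < s := one_pos.trans hs
  refine (nrm_mono hs0 (enorm_Pois_le hs hf hy)).trans (le_of_eq ?_)
  rw [nrm_const_mul hs0 (cP_ne_top hs), nrm_A (U_measurable y s) hf.enorm hs0, nrm_U hy hs0,
    mul_assoc]

lemma InL.pois {s : ℝ} (hs : 1 < s) {f : ℝ → E} (hf : InL s f) {y : ℝ} (hy : 0 < y) :
    InL s (Pois y f) :=
  ⟨Pois_stronglyMeasurable hf.1 y, ne_top_of_le_ne_top (ENNReal.mul_ne_top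
    (ENNReal.mul_ne_top (cP_ne_top hs) (cc_ne_top hs)) hf.2) (nrm_Pois_le hs hf.1 hy)⟩

lemma enorm_Pois_sub_le {s : ℝ} (hs : 1 < s) {f : ℝ → E} (hf : Loc f) {y : ℝ}
    (hy : 0 < y) {a b δ : ℝ} (hδ : δ ≤ 1) (hab : |a - b| ≤ δ * y) :
    ‖Pois y f b - Pois y f a‖ₑ ≤
      ENNReal.ofReal δ * (2 * cP s) * A (U y s) s (fun t => ‖f t‖ₑ) a := by
  have hδ0 : 0 ≤ δ := by
    by_contra h
    push Not at h
    nlinarith [abs_nonneg (a - b)]
  unfold Pois
  rw [← integral_sub (hf.integrable_Pk hy b) (hf.integrable_Pk hy a)]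
  refine (enorm_integral_le_lintegral_enorm _).trans ?_
  have h1 : ∀ t, ‖((Pk y (t - b) : ℝ) : ℂ) • f t - ((Pk y (t - a) : ℝ) : ℂ) • f t‖ₑ ≤
      (ENNReal.ofReal δ * 2) * (ENNReal.ofReal (Pk y (t - a)) * ‖f t‖ₑ) := by
    intro t
    rw [← sub_smul, enorm_smul, ← mul_assoc]
    refine mul_le_mul_left ?_ _
    rw [← ofReal_norm, ← Complex.ofReal_sub, Complex.norm_real, Real.norm_eq_abs,
      ← ENNReal.ofReal_ofNat, ← ENNReal.ofReal_mul hδ0, ← ENNReal.ofReal_mul (by positivity)]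
    refine ENNReal.ofReal_le_ofReal ?_
    have h2 := Pk_shift hy (h := a - b) (hab.trans (by nlinarith)) (t - a)
    rw [show t - a + (a - b) = t - b by ring] at h2
    refine h2.trans (mul_le_mul_of_nonneg_right ?_ (Pk_pos hy _).le)
    have : |a - b| / y ≤ δ := by rwa [div_le_iff₀ hy]
    linarith
  refine (lintegral_mono h1).trans ?_
  rw [lintegral_const_mul' _ _ (ENNReal.mul_ne_top ENNReal.ofReal_ne_top (by simp))]
  refine (mul_le_mul_right (W5 hy (conj_of_one_lt hs) hf.1.enorm a) _).trans (le_of_eq ?_)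
  unfold cP
  ring

end

end Pool.Agent.P.MP_a3f7df_an
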