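import Pool.Agent.P.MP_a3f7df_an.U

/-! The Cauchy kernel, Cauchy integrals and annihilation conditions. -/

open MeasureTheory Set Filter Topology Complex
open scoped ENNReal NNReal Real

namespace Pool.Agent.P.MP_a3f7df_an

noncomputable section

def ker (z : ℂ) (t : ℝ) : ℂ := ((t : ℂ) - z)⁻¹

def pt (x y : ℝ) : ℂ := ⟨x, y⟩

@[simp] lemma pt_re (x y : ℝ) : (pt x y).re = x := rfl
@[simp] lemma pt_im (x y : ℝ) : (pt x y).im = y := rfl

lemma sub_ne {z : ℂ} (hz : z.im ≠ 0) (t : ℝ) : (t : ℂ) - z ≠ 0 := by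
  intro h
  have := congrArg Complex.im h
  simp at this
  exact hz this

lemma norm_sub_eq (z : ℂ) (t : ℝ) : ‖(t : ℂ) - z‖ = √((t - z.re) ^ 2 + |z.im| ^ 2) := by
  rw [Complex.norm_eq_sqrt_sq_add_sq]
  simp

@[fun_prop]
lemma ker_measurable (z : ℂ) : Measurable (ker z) := by
  unfold ker
  fun_prop

lemma ker_continuous {z : ℂ} (hz : z.im ≠ 0) : Continuous (ker z) := by
  unfold ker
  exact (Complex.continuous_ofReal.sub continuous_const).inv₀ (sub_ne hz)

lemma norm_ker {z : ℂ} (hz : z.im ≠ 0) (t : ℝ) :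
    ‖ker z t‖ = |z.im|⁻¹ * u |z.im| (t - z.re) := by
  unfold ker u
  rw [norm_inv, norm_sub_eq]
  have := abs_pos.2 hz
  field_simp

lemma norm_ker_le {z : ℂ} (hz : z.im ≠ 0) (t : ℝ) : ‖ker z t‖ ≤ |z.im|⁻¹ := by
  rw [norm_ker hz]
  have := abs_pos.2 hz
  have h := u_le_one this (t - z.re)
  have h2 : 0 < |z.im|⁻¹ := by positivity
  nlinarith

lemma enorm_ker {z : ℂ} (hz : z.im ≠ 0) (s t : ℝ) :
    ‖ker z t‖ₑ = ENNReal.ofReal (|z.im| ^ (1 / s - 1)) * U |z.im| s (t - z.re) := by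
  have h := abs_pos.2 hz
  rw [← ofReal_norm, norm_ker hz, U, ← ENNReal.ofReal_mul (by positivity), ← mul_assoc,
    ← Real.rpow_add h, show 1 / s - 1 + -(1 / s) = -1 by ring, Real.rpow_neg_one]

lemma nrm_ker {z : ℂ} (hz : z.im ≠ 0) {s : ℝ} (hs : 0 < s) :
    nrm s (fun t => ‖ker z t‖ₑ) = ENNReal.ofReal (|z.im| ^ (1 / s - 1)) * cc s := by
  simp_rw [enorm_ker hz s]
  rw [nrm_const_mul hs ENNReal.ofReal_ne_top, nrm_shift_sub, nrm_U (abs_pos.2 hz) hs]

lemma ker_sub {z w : ℂ} (hz : z.im ≠ 0) (hw : w.im ≠ 0) (t : ℝ) :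
    ker z t - ker w t = (z - w) * (ker z t * ker w t) := by
  unfold ker
  have := sub_ne hz t
  have := sub_ne hw t
  field_simp
  ring

lemma ker_shift (z : ℂ) (t a : ℝ) : ker (z + a) (t + a) = ker z t := by
  unfold ker
  congr 1
  push_cast
  ring

section InL

variable {E : Type*} [NormedAddCommGroup E]

/-- Strongly measurable representatives of `L^s` classes. -/
def InL (s : ℝ) (f : ℝ → E) : Prop := StronglyMeasurable f ∧ nrm s (fun x => ‖f x‖ₑ) ≠ ∞

lemma InL_ker {z : ℂ} (hz : z.im ≠ 0) {s : ℝ} (hs : 1 < s) : InL s (ker z) :=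
  ⟨(ker_measurable z).stronglyMeasurable, by
    rw [nrm_ker hz (one_pos.trans hs)]
    exact ENNReal.mul_ne_top ENNReal.ofReal_ne_top (cc_ne_top hs)⟩

lemma InL.of_le {F : Type*} [NormedAddCommGroup F] {s : ℝ} (hs : 0 < s) {f : ℝ → E} {g : ℝ → F}
    (hg : InL s g) (hf : StronglyMeasurable f) {C : ℝ≥0∞} (hC : C ≠ ∞)
    (h : ∀ x, ‖f x‖ₑ ≤ C * ‖g x‖ₑ) : InL s f := by
  refine ⟨hf, ne_top_of_le_ne_top ?_ (nrm_mono hs h)⟩
  rw [nrm_const_mul hs hC]
  exact ENNReal.mul_ne_top hC hg.2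

lemma nrm_enorm_add_le {s : ℝ} (hs : 1 ≤ s) {f g : ℝ → E} (hf : StronglyMeasurable f)
    (hg : StronglyMeasurable g) : nrm s (fun x => ‖f x + g x‖ₑ) ≤
      nrm s (fun x => ‖f x‖ₑ) + nrm s (fun x => ‖g x‖ₑ) :=
  (nrm_mono (one_pos.trans_le hs) fun x => enorm_add_le (f x) (g x)).trans
    (nrm_add_le hs hf.enorm.aemeasurable hg.enorm.aemeasurable)

lemma nrm_enorm_sub_le {s : ℝ} (hs : 1 ≤ s) {f g : ℝ → E} (hf : StronglyMeasurable f)
    (hg : StronglyMeasurable g) : nrm s (fun x => ‖f x - g x‖ₑ) ≤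
      nrm s (fun x => ‖f x‖ₑ) + nrm s (fun x => ‖g x‖ₑ) :=
  (nrm_mono (one_pos.trans_le hs) fun _ => enorm_sub_le).trans
    (nrm_add_le hs hf.enorm.aemeasurable hg.enorm.aemeasurable)

lemma InL.add {s : ℝ} (hs : 1 ≤ s) {f g : ℝ → E} (hf : InL s f) (hg : InL s g) :
    InL s (fun x => f x + g x) :=
  ⟨hf.1.add hg.1, ne_top_of_le_ne_top (ENNReal.add_ne_top.2 ⟨hf.2, hg.2⟩)
    (nrm_enorm_add_le hs hf.1 hg.1)⟩

lemma InL.sub {s : ℝ} (hs : 1 ≤ s) {f g : ℝ → E} (hf : InL s f) (hg : InL s g) :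
    InL s (fun x => f x - g x) :=
  ⟨hf.1.sub hg.1, ne_top_of_le_ne_top (ENNReal.add_ne_top.2 ⟨hf.2, hg.2⟩)
    (nrm_enorm_sub_le hs hf.1 hg.1)⟩

lemma InL.neg {s : ℝ} {f : ℝ → E} (hf : InL s f) : InL s (fun x => -f x) :=
  ⟨hf.1.neg, by simpa using hf.2⟩

lemma InL.zero {s : ℝ} (hs : 0 < s) : InL s (fun _ => (0 : E)) :=
  ⟨stronglyMeasurable_const, by simp [nrm_zero hs]⟩

lemma InL.shift {s : ℝ} {f : ℝ → E} (hf : InL s f) (a : ℝ) : InL s (fun x => f (x + a)) :=
  ⟨hf.1.comp_measurable (measurable_id.add_const a), by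
    rw [nrm_shift s (fun x => ‖f x‖ₑ) a]; exact hf.2⟩

lemma InL.sum {ι : Type*} {s : ℝ} (hs : 1 ≤ s) (S : Finset ι) {f : ι → ℝ → E}
    (hf : ∀ i, InL s (f i)) : InL s (fun x => ∑ i ∈ S, f i x) := by
  classical
  induction S using Finset.induction_on with
  | empty => simpa using InL.zero (one_pos.trans_le hs)
  | insert i S hi ih =>
    simp_rw [Finset.sum_insert hi]
    exact (hf i).add hs ih

variable [NormedSpace ℂ E]

lemma InL.const_smul {s : ℝ} (hs : 0 < s) {f : ℝ → E} (hf : InL s f) (c : ℂ) :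
    InL s (fun x => c • f x) :=
  hf.of_le hs (hf.1.const_smul c) (C := ‖c‖ₑ) enorm_ne_top fun x => (enorm_smul c (f x)).le

lemma InL.smul_const {s : ℝ} (hs : 0 < s) {k : ℝ → ℂ} (hk : InL s k) (v : E) :
    InL s (fun x => k x • v) :=
  hk.of_le hs (hk.1.smul_const v) (C := ‖v‖ₑ) enorm_ne_top fun x => by
    rw [enorm_smul, mul_comm]

lemma InL.clm {F : Type*} [NormedAddCommGroup F] [NormedSpace ℂ F] {s : ℝ} (hs : 0 < s)
    {f : ℝ → E} (hf : InL s f) (T : E →L[ℂ] F) : InL s (fun x => T (f x)) :=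
  hf.of_le hs (T.continuous.comp_stronglyMeasurable hf.1) (C := ‖T‖ₑ) enorm_ne_top
    fun x => T.le_opENorm (f x)

lemma lintegral_smul_le {s s' : ℝ} (h : s.HolderConjugate s') {k : ℝ → ℂ} {f : ℝ → E}
    (hk : StronglyMeasurable k) (hf : StronglyMeasurable f) :
    ∫⁻ t, ‖k t • f t‖ₑ ≤ nrm s' (fun t => ‖k t‖ₑ) * nrm s (fun t => ‖f t‖ₑ) := by
  simp_rw [enorm_smul]
  exact holder h.symm hk.enorm.aemeasurable hf.enorm.aemeasurable

lemma integrable_smul_of_InL {s s' : ℝ} (h : s.HolderConjugate s') {k : ℝ → ℂ} {f : ℝ → E}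
    (hk : InL s' k) (hf : InL s f) : Integrable (fun t => k t • f t) :=
  ⟨(hk.1.smul hf.1).aestronglyMeasurable,
    (lintegral_smul_le h hk.1 hf.1).trans_lt (ENNReal.mul_lt_top hk.2.lt_top hf.2.lt_top)⟩

lemma enorm_integral_smul_le {s s' : ℝ} (h : s.HolderConjugate s') {k : ℝ → ℂ} {f : ℝ → E}
    (hk : StronglyMeasurable k) (hf : StronglyMeasurable f) :
    ‖∫ t, k t • f t‖ₑ ≤ nrm s' (fun t => ‖k t‖ₑ) * nrm s (fun t => ‖f t‖ₑ) :=
  (enorm_integral_le_lintegral_enorm _).trans (lintegral_smul_le h hk hf)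

end InL

lemma two_conj : (2 : ℝ).HolderConjugate 2 := Real.HolderConjugate.two_two

lemma integrable_ker_mul {z w : ℂ} (hz : z.im ≠ 0) (hw : w.im ≠ 0) :
    Integrable (fun t => ker z t * ker w t) :=
  integrable_smul_of_InL two_conj (InL_ker hz one_lt_two) (InL_ker hw one_lt_two)

lemma tendsto_ker (z : ℂ) : Tendsto (ker z) (cocompact ℝ) (𝓝 0) := by
  unfold ker
  refine tendsto_inv₀_cobounded.comp ?_
  rw [← tendsto_norm_atTop_iff_cobounded]
  have h1 : Tendsto (fun t : ℝ => ‖t‖ + -‖z‖) (cocompact ℝ) atTop :=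
    tendsto_atTop_add_const_right _ _ tendsto_norm_cocompact_atTop
  refine tendsto_atTop_mono (fun t => ?_) h1
  have := norm_sub_norm_le (t : ℂ) z
  rw [Complex.norm_real] at this
  linarith

lemma hasDerivAt_ker {z : ℂ} (hz : z.im ≠ 0) (t : ℝ) :
    HasDerivAt (ker z) (-(ker z t * ker z t)) t := by
  have h1 : HasDerivAt (fun t : ℝ => (t : ℂ) - z) 1 t :=
    (Complex.ofRealCLM.hasDerivAt (x := t)).sub_const z
  refine (h1.inv (sub_ne hz t)).congr_deriv ?_
  unfold ker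
  have := sub_ne hz t
  field_simp

lemma ne_of_sign {ε : ℝ} {z : ℂ} (h : 0 < ε * z.im) : z.im ≠ 0 := by
  intro h0
  rw [h0, mul_zero] at h
  exact lt_irrefl _ h

lemma ne_of_sign' {ε : ℝ} {z : ℂ} (h : ε * z.im < 0) : z.im ≠ 0 := by
  intro h0
  rw [h0, mul_zero] at h
  exact lt_irrefl _ h

lemma int_same {ε : ℝ} {z w : ℂ} (hz : 0 < ε * z.im) (hw : 0 < ε * w.im) :
    ∫ t, ker z t * ker w t = 0 := by
  have hz0 := ne_of_sign hz
  have hw0 := ne_of_sign hw
  have hbot : atBot ≤ cocompact ℝ := atBot_le_cocompact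
  have htop : atTop ≤ cocompact ℝ := atTop_le_cocompact
  by_cases hzw : z = w
  · subst hzw
    have := integral_of_hasDerivAt_of_tendsto (hasDerivAt_ker hz0)
      (integrable_ker_mul hz0 hz0).neg ((tendsto_ker z).mono_left hbot)
      ((tendsto_ker z).mono_left htop)
    rw [integral_neg] at this
    simpa using this
  have hslit : ∀ t : ℝ, 1 + (w - z) * ker w t ∈ slitPlane := by
    intro t
    have h1 : 1 + (w - z) * ker w t = ((t : ℂ) - z) / ((t : ℂ) - w) := by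
      unfold ker
      have := sub_ne hw0 t
      field_simp
      ring
    rw [h1, mem_slitPlane_iff]
    by_contra hcon
    push Not at hcon
    set r := ((t : ℂ) - z) / ((t : ℂ) - w) with hr
    have h2 : (t : ℂ) - z = r * ((t : ℂ) - w) := by
      rw [hr, div_mul_cancel₀ _ (sub_ne hw0 t)]
    have h3 := congrArg Complex.im h2
    simp [hcon.2] at h3
    have h4 : ε * z.im = r.re * (ε * w.im) := by rw [h3]; ring
    nlinarith [hcon.1]
  have hder : ∀ t : ℝ, HasDerivAt (fun t : ℝ => log (1 + (w - z) * ker w t))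
      ((z - w) * (ker z t * ker w t)) t := by
    intro t
    have h1 := ((hasDerivAt_ker hw0 t).const_mul (w - z)).const_add 1
    refine (h1.clog_real (hslit t)).congr_deriv ?_
    have h3 : 1 + (w - z) * ker w t = ((t : ℂ) - z) / ((t : ℂ) - w) := by
      unfold ker
      have := sub_ne hw0 t
      field_simp
      ring
    rw [h3]
    unfold ker
    have := sub_ne hw0 t
    have := sub_ne hz0 t
    field_simp
    ring
  have hlim : Tendsto (fun t : ℝ => log (1 + (w - z) * ker w t)) (cocompact ℝ) (𝓝 0) := by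
    have h1 : Tendsto (fun t : ℝ => 1 + (w - z) * ker w t) (cocompact ℝ) (𝓝 1) := by
      simpa using ((tendsto_ker w).const_mul (w - z)).const_add 1
    have := h1.clog one_mem_slitPlane
    simpa using this
  have := integral_of_hasDerivAt_of_tendsto hder
    ((integrable_ker_mul hz0 hw0).const_mul _) (hlim.mono_left hbot) (hlim.mono_left htop)
  rw [integral_const_mul, sub_zero, mul_eq_zero] at this
  exact this.resolve_left (sub_ne_zero.2 hzw)

lemma integral_Pk {R : ℝ} (hR : 0 < R) : ∫ t, Pk R t = 1 := by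
  have hπ := Real.pi_pos
  have h1 : ∀ t, Pk R t = (π * R)⁻¹ * (1 + (t / R) ^ 2)⁻¹ := by
    intro t
    unfold Pk
    field_simp
    ring
  simp_rw [h1]
  rw [integral_const_mul, Measure.integral_comp_div (fun x : ℝ => (1 + x ^ 2)⁻¹),
    integral_univ_inv_one_add_sq, abs_of_pos hR, smul_eq_mul]
  field_simp

lemma ker_pt_sub {ε : ℝ} (hε : ε * ε = 1) {y : ℝ} (hy : 0 < y) (x t : ℝ) :
    ker (pt x (ε * y)) t - ker (pt x (-ε * y)) t = (2 * π * I * ε) * (Pk y (t - x) : ℝ) := by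
  have hε0 : ε ≠ 0 := by rintro rfl; simp at hε
  have h1 : (pt x (ε * y)).im ≠ 0 := by simp [hε0, hy.ne']
  have h2 : (pt x (-ε * y)).im ≠ 0 := by simp [hε0, hy.ne']
  rw [ker_sub h1 h2]
  have h3 : ker (pt x (ε * y)) t * ker (pt x (-ε * y)) t
      = ((((t - x) ^ 2 + y ^ 2)⁻¹ : ℝ) : ℂ) := by
    unfold ker
    rw [← mul_inv, Complex.ofReal_inv]
    congr 1
    apply Complex.ext
    · simp [sq]
      linear_combination (y * y) * hε
    · simp [sq]
      ring
  have h4 : pt x (ε * y) - pt x (-ε * y) = 2 * I * ε * y := by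
    apply Complex.ext <;> simp
    ring
  rw [h3, h4]
  unfold Pk
  have hπ : (π : ℂ) ≠ 0 := by exact_mod_cast Real.pi_pos.ne'
  have h5 : ((t : ℂ) - x) ^ 2 + (y : ℂ) ^ 2 ≠ 0 := by exact_mod_cast (sq_pos' hy (t - x)).ne'
  push_cast
  field_simp

lemma eq_pt {ε : ℝ} (hε : ε * ε = 1) (w : ℂ) : w = pt w.re (ε * (ε * w.im)) := by
  apply Complex.ext
  · rfl
  · simp [← mul_assoc, hε]

lemma int_opp {ε : ℝ} (hε : ε * ε = 1) {z w : ℂ} (hz : 0 < -ε * z.im) (hw : 0 < ε * w.im) :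
    (z - w) * ∫ t, ker z t * ker w t = -(2 * π * I * ε) := by
  have hz0 := ne_of_sign hz
  have hw0 := ne_of_sign hw
  set y := ε * w.im with hy
  set w' := pt w.re (-ε * y) with hw'
  have hw'1 : 0 < -ε * w'.im := by
    simp only [hw', pt_im]
    nlinarith
  have hw'0 := ne_of_sign hw'1
  have h1 : ∀ t, (z - w) * (ker z t * ker w t) =
      (z - w') * (ker z t * ker w' t) - (2 * π * I * ε) * (Pk y (t - w.re) : ℝ) := by
    intro t
    rw [← ker_sub hz0 hw0, ← ker_sub hz0 hw'0, ← ker_pt_sub hε hw, ← eq_pt hε w]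
    ring
  have h2 : Integrable fun t => (2 * π * I * ε) * (Pk y (t - w.re) : ℝ) := by
    have : (fun t => (2 * π * I * ε) * (Pk y (t - w.re) : ℝ)) = fun t =>
        (z - w') * (ker z t * ker w' t) - (z - w) * (ker z t * ker w t) := by
      ext t
      rw [h1]
      ring
    rw [this]
    exact ((integrable_ker_mul hz0 hw'0).const_mul _).sub ((integrable_ker_mul hz0 hw0).const_mul _)
  rw [← integral_const_mul]
  simp_rw [h1]
  rw [integral_sub ((integrable_ker_mul hz0 hw'0).const_mul _) h2, integral_const_mul,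
    int_same hz hw'1, integral_const_mul, integral_complex_ofReal,
    integral_sub_right_eq_self (Pk y) w.re, integral_Pk hw]
  simp

end

end Pool.Agent.P.MP_a3f7df_an
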