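import Pool.Agent.P.MP_a3f7df_an.R3

/-! Local consequences of a lower bound for a Toeplitz operator. -/

open MeasureTheory Set Filter Topology Complex
open scoped ENNReal NNReal Real

namespace Pool.Agent.P.MP_a3f7df_an

noncomputable section

variable {ι : Type*} [Fintype ι]

lemma InL.coord {s : ℝ} (hs : 0 < s) {f : ℝ → ι → ℂ} (hf : InL s f) (i : ι) :
    InL s (fun t => f t i) := hf.clm hs (ContinuousLinearMap.proj i)

lemma Ann.coord {ε : ℝ} {f : ℝ → ι → ℂ} (hf : Loc f) (af : Ann ε f) (i : ι) :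
    Ann ε (fun t => f t i) := af.clm hf (ContinuousLinearMap.proj i)

lemma Ann_of_coord {ε : ℝ} {f : ℝ → ι → ℂ} (hf : Loc f) (af : ∀ i, Ann ε (fun t => f t i)) :
    Ann ε f := by
  intro z hz
  ext i
  have := Cau_clm hf (ContinuousLinearMap.proj (R := ℂ) i) (ne_of_sign hz)
  exact this.symm.trans (af i z hz)

lemma enorm_pi_le_sum (v : ι → ℂ) : ‖v‖ₑ ≤ ∑ i, ‖v i‖ₑ := by
  have h : ‖v‖₊ ≤ ∑ i, ‖v i‖₊ := by
    rw [pi_nnnorm_le_iff]
    exact fun i => Finset.single_le_sum (f := fun i => ‖v i‖₊) (fun _ _ => zero_le)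
      (Finset.mem_univ i)
  simp only [enorm_eq_nnnorm]
  exact_mod_cast h

lemma enorm_coord_le (v : ι → ℂ) (i : ι) : ‖v i‖ₑ ≤ ‖v‖ₑ := by
  simp only [enorm_eq_nnnorm]
  exact_mod_cast nnnorm_le_pi_nnnorm v i

lemma nrm_pi_le_sum {s : ℝ} (hs : 1 ≤ s) {f : ℝ → ι → ℂ} (hf : StronglyMeasurable f) :
    nrm s (fun x => ‖f x‖ₑ) ≤ ∑ i, nrm s (fun x => ‖f x i‖ₑ) :=
  (nrm_mono (one_pos.trans_le hs) fun x => enorm_pi_le_sum (f x)).trans
    (nrm_sum_le hs _ fun i =>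
      ((continuous_apply i).comp_stronglyMeasurable hf).enorm.aemeasurable)

/-- The two Hardy classes are at a positive angle (vector case). -/
lemma RI (ι : Type*) [Fintype ι] {s : ℝ} (hs : 1 < s) : ∃ C : ℝ≥0∞, C ≠ ∞ ∧ ∀ ε : ℝ, ε * ε = 1 →
    ∀ k₁ k₂ : ℝ → ι → ℂ, InL s k₁ → InL s k₂ → Ann ε k₁ → Ann (-ε) k₂ →
      nrm s (fun x => ‖k₂ x‖ₑ) ≤ C * nrm s (fun x => ‖k₁ x + k₂ x‖ₑ) := by
  have hs0 : 0 < s := one_pos.trans hs
  obtain ⟨C, hC, h⟩ := RI_scalar hs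
  refine ⟨Fintype.card ι * C, ENNReal.mul_ne_top (by simp) hC, fun ε hε k₁ k₂ h₁ h₂ a₁ a₂ => ?_⟩
  refine (nrm_pi_le_sum hs.le h₂.1).trans ?_
  rw [mul_assoc, ← nsmul_eq_mul, ← Finset.card_univ, ← Finset.sum_const]
  refine Finset.sum_le_sum fun i _ => ?_
  refine (h ε hε _ _ (h₁.coord hs0 i) (h₂.coord hs0 i) (a₁.coord (h₁.loc hs) i)
    (a₂.coord (h₂.loc hs) i)).trans (mul_le_mul_right (nrm_mono hs0 fun x => ?_) _)
  exact enorm_coord_le (k₁ x + k₂ x) i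

lemma Ann.pois {ε : ℝ} (hε : ε * ε = 1) {s : ℝ} (hs : 1 < s) {f : ℝ → ι → ℂ} (hf : InL s f)
    (af : Ann ε f) {y : ℝ} (hy : 0 < y) : Ann ε (Pois y f) := by
  refine Ann_of_coord ((hf.pois hs hy).loc hs) fun i => ?_
  have h1 := (af.coord (hf.loc hs) i).pois_scalar hε hs (hf.coord (one_pos.trans hs) i) hy
  refine h1.congr_ae (Eventually.of_forall fun x => ?_)
  exact Pois_clm (hf.loc hs) (ContinuousLinearMap.proj (R := ℂ) i) hy x

section general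

variable {E : Type*} [NormedAddCommGroup E] [NormedSpace ℂ E]

/-- The lower bound for the Toeplitz operator with symbol `G`, in terms of functions. -/
def LB (ε s : ℝ) (C : ℝ≥0∞) (G : ℝ → E →L[ℂ] E) : Prop :=
  ∀ f g : ℝ → E, InL s f → InL s g → Ann ε f → Ann (-ε) g →
    nrm s (fun x => ‖f x‖ₑ) ≤ C * nrm s (fun x => ‖G x (f x) - g x‖ₑ)

/-- The local norm at scale `R` and centre `a`. -/
def N (R s : ℝ) (f : ℝ → E) (a : ℝ) : ℝ≥0∞ := A (U R s) s (fun x => ‖f x‖ₑ) a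

lemma sm_apply {G : ℝ → E →L[ℂ] E} (hG : Continuous G) {f : ℝ → E} (hf : StronglyMeasurable f) :
    StronglyMeasurable fun x => G x (f x) :=
  (isBoundedBilinearMap_apply (𝕜 := ℂ) (E := E) (F := E)).continuous.comp_stronglyMeasurable
    (hG.stronglyMeasurable.prodMk hf)

omit [NormedSpace ℂ E] in
lemma N_measurable (R s : ℝ) {f : ℝ → E} (hf : StronglyMeasurable f) : Measurable (N R s f) :=
  A_measurable (U_measurable R s) hf.enorm s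

omit [NormedSpace ℂ E] in
lemma N_le_add {R s : ℝ} (hs : 1 ≤ s) {f g h : ℝ → E} (hg : StronglyMeasurable g)
    (hh : StronglyMeasurable h) {b c : ℝ≥0∞} (hb : b ≠ ∞) (hc : c ≠ ∞)
    (H : ∀ x, ‖f x‖ₑ ≤ b * ‖g x‖ₑ + c * ‖h x‖ₑ) (a : ℝ) :
    N R s f a ≤ b * N R s g a + c * N R s h a := by
  have hs0 : 0 < s := one_pos.trans_le hs
  unfold N
  refine (A_mono hs0 H a).trans ((A_add_le (U_measurable R s) hs (hg.enorm.const_mul b)
    (hh.enorm.const_mul c) a).trans (le_of_eq ?_))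
  rw [A_const_mul hs0 hb, A_const_mul hs0 hc]

omit [NormedSpace ℂ E] in
lemma N_shift (R s : ℝ) (f : ℝ → E) (a τ : ℝ) : N R s (fun x => f (x + τ)) a = N R s f (a + τ) :=
  A_shift _ _ (fun x => ‖f x‖ₑ) a τ

lemma abs_eps {ε : ℝ} (hε : ε * ε = 1) : |ε| = 1 := by
  have : |ε| * |ε| = 1 := by rw [← abs_mul, hε, abs_one]
  nlinarith [abs_nonneg ε]

lemma enorm_psi {ε : ℝ} (hε : ε * ε = 1) {R : ℝ} (hR : 0 < R) (s a t : ℝ) (v : E) :
    ‖((R ^ (1 - 1 / s) : ℝ) : ℂ) • ker (pt a (ε * R)) t • v‖ₑ = U R s (t - a) * ‖v‖ₑ := by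
  have h1 : |(pt a (ε * R)).im| = R := by
    rw [pt_im, abs_mul, abs_eps hε, one_mul, abs_of_pos hR]
  rw [enorm_smul, enorm_smul, enorm_ker (ne_of_sign (pt_pos hε hR a)) s, h1, pt_re, ← mul_assoc,
    ← mul_assoc, ← ofReal_norm, Complex.norm_real, Real.norm_eq_abs, abs_of_pos (by positivity),
    ← ENNReal.ofReal_mul (by positivity), ← Real.rpow_add hR]
  simp

variable [CompleteSpace E]

lemma local1 {ε : ℝ} (hε : ε * ε = 1) {r : ℝ} (hr : 1 < r) {C : ℝ≥0∞} {G : ℝ → E →L[ℂ] E}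
    (hG : Continuous G) (hLB : LB ε r C G) {R : ℝ} (hR : 0 < R) {a : ℝ} {g₁ g₂ : ℝ → E}
    (l₁ : Loc g₁) (l₂ : Loc g₂) (a₁ : Ann ε g₁) (a₂ : Ann (-ε) g₂) (n₁ : N R r g₁ a ≠ ∞)
    (n₂ : N R r g₂ a ≠ ∞) :
    N R r g₁ a ≤ C * (N R r (fun x => G x (g₁ x) - g₂ x) a + cc r * ‖Pois R g₂ a‖ₑ) := by
  have hr0 : 0 < r := one_pos.trans hr
  have hw := pt_pos hε hR a
  set c : ℂ := ((R ^ (1 - 1 / r) : ℝ) : ℂ) with hc
  set w := pt a (ε * R) with hwdef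
  set β := Pois R g₂ a with hβ
  have hk := (ker_measurable w).stronglyMeasurable
  have e₁ : nrm r (fun t => ‖c • ker w t • g₁ t‖ₑ) = N R r g₁ a := by
    simp only [hc, hwdef, enorm_psi hε hR]
    rfl
  have b₂ : ∀ f : ℝ → E, StronglyMeasurable f → ∀ v : E, ‖v‖ₑ = ‖β‖ₑ →
      nrm r (fun t => ‖c • ker w t • (f t + v)‖ₑ) ≤ N R r f a + cc r * ‖β‖ₑ := by
    intro f hf v hv
    simp only [hc, hwdef, enorm_psi hε hR]
    refine (A_mono hr0 (w := U R r) (fun t => enorm_add_le (f t) v) a).trans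
      ((A_add_le (U_measurable R r) hr.le hf.enorm measurable_const a).trans (le_of_eq ?_))
    rw [A_const hr0 enorm_ne_top, nrm_U hR hr0, hv]
    rfl
  have i₁ : InL r (fun t => c • ker w t • g₁ t) := ⟨(hk.smul l₁.1).const_smul c, e₁ ▸ n₁⟩
  have i₂ : InL r (fun t => c • ker w t • (g₂ t - β)) := by
    refine ⟨(hk.smul (l₂.1.sub stronglyMeasurable_const)).const_smul c, ?_⟩
    simp only [sub_eq_add_neg]
    exact ne_top_of_le_ne_top (ENNReal.add_ne_top.2 ⟨n₂, ENNReal.mul_ne_top (cc_ne_top hr)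
      enorm_ne_top⟩) (b₂ g₂ l₂.1 (-β) (enorm_neg β))
  have key := hLB _ _ i₁ i₂ ((a₁.ker_smul l₁ hw).const_smul c)
    ((a₂.ker_smul_sub hε l₂ hR a).const_smul c)
  rw [e₁] at key
  refine key.trans (mul_le_mul_right (le_trans (le_of_eq ?_)
    (b₂ _ ((sm_apply hG l₁.1).sub l₂.1) β rfl)) _)
  congr 1
  ext t
  congr 1
  simp only [map_smul, Pi.sub_apply, smul_sub, smul_add]
  abel

lemma local2 {ε : ℝ} (hε : ε * ε = 1) {r : ℝ} {C : ℝ≥0∞} {G : ℝ → E →L[ℂ] E}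
    (hLB : LB ε r C G) {R : ℝ} (hR : 0 < R) {a : ℝ} {g₁ g₂ : ℝ → E}
    (l₁ : Loc g₁) (l₂ : Loc g₂) (a₁ : Ann ε g₁) (a₂ : Ann (-ε) g₂) (n₁ : N R r g₁ a ≠ ∞)
    (n₂ : N R r g₂ a ≠ ∞) (h0 : Pois R g₁ a = 0) :
    N R r g₁ a ≤ C * N R r (fun x => G x (g₁ x) - g₂ x) a := by
  have hε' : -ε * -ε = 1 := by simpa using hε
  have hw := pt_pos hε' hR a
  set c : ℂ := ((R ^ (1 - 1 / r) : ℝ) : ℂ) with hc
  set w := pt a (-ε * R) with hwdef
  have hk := (ker_measurable w).stronglyMeasurable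
  have e₁ : ∀ f : ℝ → E, nrm r (fun t => ‖c • ker w t • f t‖ₑ) = N R r f a := by
    intro f
    simp only [hc, hwdef, enorm_psi hε' hR]
    rfl
  have i₁ : InL r (fun t => c • ker w t • g₁ t) := ⟨(hk.smul l₁.1).const_smul c, e₁ g₁ ▸ n₁⟩
  have i₂ : InL r (fun t => c • ker w t • g₂ t) := ⟨(hk.smul l₂.1).const_smul c, e₁ g₂ ▸ n₂⟩
  have a₃ := Ann.ker_smul_sub hε' l₁ (by rwa [neg_neg]) hR a
  simp only [h0, sub_zero, neg_neg] at a₃
  have key := hLB _ _ i₁ i₂ (a₃.const_smul c) ((a₂.ker_smul l₂ hw).const_smul c)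
  rw [e₁] at key
  refine key.trans (le_of_eq ?_)
  rw [← e₁]
  congr 2
  ext t
  simp only [map_smul, smul_sub]

end general

lemma HB_factor {X : Type*} [AddCommGroup X] [Module ℂ X] (α β : X →ₗ[ℂ] (ι → ℂ))
    (ρ : Seminorm ℂ X) (σ : (ι → ℂ) →ₗ[ℂ] X) (hσ : ∀ v, α (σ v) = v) (hβ : ∀ v, β (σ v) = 0)
    (h : ∀ x, α x = 0 → ‖β x‖ ≤ ρ x) :
    ∃ T : (ι → ℂ) →ₗ[ℂ] (ι → ℂ), (∀ v, ‖T v‖ ≤ ρ (σ v)) ∧ ∀ x, ‖T (α x) + β x‖ ≤ ρ x := by
  have h1 : ∀ i, ∃ g : Module.Dual ℂ X, (∀ x : LinearMap.ker α, g x = β x i) ∧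
      ∀ x, ‖g x‖ ≤ ρ x := fun i =>
    Module.Dual.exists_extension_of_le_seminorm (LinearMap.ker α)
      ((LinearMap.proj i ∘ₗ β) ∘ₗ (LinearMap.ker α).subtype)
      fun x => (norm_le_pi_norm (β x) i).trans (h x x.2)
  choose g hg hg' using h1
  set β' : X →ₗ[ℂ] (ι → ℂ) := LinearMap.pi g with hβ'
  have h2 : ∀ x, ‖β' x‖ ≤ ρ x := fun x =>
    (pi_norm_le_iff_of_nonneg (apply_nonneg ρ x)).2 fun i => hg' i x
  refine ⟨β' ∘ₗ σ, fun v => h2 _, fun x => le_trans (le_of_eq ?_) (h2 x)⟩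
  congr 1
  ext i
  have h3 := hg i ⟨x - σ (α x), by simp [hσ]⟩
  simp only [map_sub, hβ, sub_zero] at h3
  simp only [hβ', LinearMap.comp_apply, Pi.add_apply, LinearMap.pi_apply]
  rw [← h3]
  ring

lemma Pois_test {ε : ℝ} (hε : ε * ε = 1) {R : ℝ} (hR : 0 < R) :
    Pois R (fun t => (pt 0 (-ε * R) - pt 0 (ε * R)) • ker (pt 0 (ε * R)) t) 0 = 1 := by
  have hε' : -ε * -ε = 1 := by simpa using hε
  have hw := pt_pos hε hR 0
  have h1 := Cau_eq_Pois hε' ((InL_ker (ne_of_sign hw) one_lt_two).loc one_lt_two)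
    (by rw [neg_neg]; exact Ann_ker hw) hR 0
  have h2 := int_opp hε (pt_neg hε hR 0) hw
  rw [Pois_smul]
  have h3 : (pt 0 (-ε * R) - pt 0 (ε * R)) * Cau (ker (pt 0 (ε * R))) (pt 0 (-ε * R)) =
      -(2 * π * I * ε) := h2
  rw [h1, smul_eq_mul] at h3
  refine mul_left_cancel₀ (twoPiI_ne hε) ?_
  push_cast at h3
  rw [smul_eq_mul]
  linear_combination -h3

lemma enorm_test {ε : ℝ} (hε : ε * ε = 1) {R : ℝ} (hR : 0 < R) (t : ℝ) :
    ‖(pt 0 (-ε * R) - pt 0 (ε * R)) • ker (pt 0 (ε * R)) t‖ₑ ≤ 2 := by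
  have hw := pt_pos hε hR 0
  have h1 := norm_ker_le (ne_of_sign hw) t
  rw [pt_im, abs_mul, abs_eps hε, one_mul, abs_of_pos hR] at h1
  have h2 : ‖pt 0 (-ε * R) - pt 0 (ε * R)‖ = 2 * R := by
    have : pt 0 (-ε * R) - pt 0 (ε * R) = ((-2 * ε * R : ℝ) : ℂ) * I := by
      apply Complex.ext <;> simp
      ring
    rw [this, norm_mul, Complex.norm_I, mul_one, Complex.norm_real, Real.norm_eq_abs, abs_mul,
      abs_mul, abs_eps hε, abs_of_pos hR]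
    simp
  rw [← ofReal_norm, ← ENNReal.ofReal_ofNat, norm_smul, h2]
  refine ENNReal.ofReal_le_ofReal ?_
  calc 2 * R * ‖ker (pt 0 (ε * R)) t‖ ≤ 2 * R * R⁻¹ := by gcongr
    _ = 2 := by field_simp

/-- The admissible pairs for the local analysis at the origin. -/
def XX (ι : Type*) [Fintype ι] (ε : ℝ) {r : ℝ} (hr : 1 < r) (R : ℝ) :
    Submodule ℂ ((ℝ → ι → ℂ) × (ℝ → ι → ℂ)) where
  carrier := {g | (Loc g.1 ∧ Loc g.2) ∧ (Ann ε g.1 ∧ Ann (-ε) g.2) ∧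
    N R r g.1 0 ≠ ∞ ∧ N R r g.2 0 ≠ ∞}
  add_mem' := by
    rintro f g ⟨⟨l1, l2⟩, ⟨a1, a2⟩, n1, n2⟩ ⟨⟨l3, l4⟩, ⟨a3, a4⟩, n3, n4⟩
    refine ⟨⟨l1.add l3, l2.add l4⟩, ⟨a1.add l1 l3 a3, a2.add l2 l4 a4⟩, ?_, ?_⟩
    · refine ne_top_of_le_ne_top ?_ (N_le_add hr.le l1.1 l3.1 ENNReal.one_ne_top
        ENNReal.one_ne_top (fun x => by simpa using enorm_add_le _ _) 0)
      simp [n1, n3]
    · refine ne_top_of_le_ne_top ?_ (N_le_add hr.le l2.1 l4.1 ENNReal.one_ne_top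
        ENNReal.one_ne_top (fun x => by simpa using enorm_add_le _ _) 0)
      simp [n2, n4]
  zero_mem' := by
    have h1 : Loc fun _ : ℝ => (0 : ι → ℂ) := (InL.zero two_pos).loc one_lt_two
    have h2 : N R r (fun _ : ℝ => (0 : ι → ℂ)) 0 ≠ ∞ := by
      simp [N, A, nrm_zero (one_pos.trans hr)]
    exact ⟨⟨h1, h1⟩, ⟨Ann.zero _, Ann.zero _⟩, h2, h2⟩
  smul_mem' := by
    rintro c g ⟨⟨l1, l2⟩, ⟨a1, a2⟩, n1, n2⟩
    have h : ∀ f : ℝ → ι → ℂ, N R r f 0 ≠ ∞ → N R r (fun t => c • f t) 0 ≠ ∞ := by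
      intro f hf
      unfold N
      simp_rw [enorm_smul]
      rw [A_const_mul (one_pos.trans hr) enorm_ne_top]
      exact ENNReal.mul_ne_top enorm_ne_top hf
    exact ⟨⟨l1.clm (c • ContinuousLinearMap.id ℂ _), l2.clm (c • ContinuousLinearMap.id ℂ _)⟩,
      ⟨a1.const_smul c, a2.const_smul c⟩, h _ n1, h _ n2⟩

lemma local3 {ε : ℝ} (hε : ε * ε = 1) {r : ℝ} (hr : 1 < r) {C B : ℝ≥0∞} (hC : C ≠ ∞)
    (hB : B ≠ ∞) {G : ℝ → (ι → ℂ) →L[ℂ] (ι → ℂ)} (hG : Continuous G) (hGB : ∀ x, ‖G x‖ₑ ≤ B)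
    (hLB : LB ε r C G) {R : ℝ} (hR : 0 < R) :
    ∃ T : (ι → ℂ) →L[ℂ] (ι → ℂ),
      (∀ v, ‖T v‖ₑ ≤ cP r * (B * C + 1) * (cc r * (B * 2)) * ‖v‖ₑ) ∧
      ∀ g₁ g₂ : ℝ → ι → ℂ, Loc g₁ → Loc g₂ → Ann ε g₁ → Ann (-ε) g₂ → N R r g₁ 0 ≠ ∞ →
        N R r g₂ 0 ≠ ∞ → ‖T (Pois R g₁ 0) + Pois R g₂ 0‖ₑ ≤
          cP r * (B * C + 1) * N R r (fun x => G x (g₁ x) - g₂ x) 0 := by
  have hr0 : 0 < r := one_pos.trans hr
  set K := cP r * (B * C + 1) with hK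
  have hKt : K ≠ ∞ := ENNReal.mul_ne_top (cP_ne_top hr)
    (ENNReal.add_ne_top.2 ⟨ENNReal.mul_ne_top hB hC, ENNReal.one_ne_top⟩)
  have hGv : ∀ x v, ‖G x v‖ₑ ≤ B * ‖v‖ₑ := fun x v =>
    ((G x).le_opENorm v).trans (mul_le_mul_left (hGB x) _)
  let α : XX ι ε hr R →ₗ[ℂ] (ι → ℂ) :=
    { toFun := fun g => Pois R g.1.1 0
      map_add' := fun f g => Pois_add f.2.1.1 g.2.1.1 hR 0
      map_smul' := fun c g => Pois_smul c g.1.1 R 0 }
  let β : XX ι ε hr R →ₗ[ℂ] (ι → ℂ) :=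
    { toFun := fun g => Pois R g.1.2 0
      map_add' := fun f g => Pois_add f.2.1.2 g.2.1.2 hR 0
      map_smul' := fun c g => Pois_smul c g.1.2 R 0 }
  let ν : XX ι ε hr R → ℝ≥0∞ := fun g => K * N R r (fun x => G x (g.1.1 x) - g.1.2 x) 0
  have hsm : ∀ g : XX ι ε hr R, StronglyMeasurable fun x => G x (g.1.1 x) - g.1.2 x :=
    fun g => (sm_apply hG g.2.1.1.1).sub g.2.1.2.1
  have hν : ∀ g, ν g ≠ ∞ := by
    intro g
    refine ENNReal.mul_ne_top hKt (ne_top_of_le_ne_top ?_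
      (N_le_add hr.le g.2.1.1.1 g.2.1.2.1 hB ENNReal.one_ne_top (fun x => ?_) 0))
    · exact ENNReal.add_ne_top.2 ⟨ENNReal.mul_ne_top hB g.2.2.2.1,
        ENNReal.mul_ne_top ENNReal.one_ne_top g.2.2.2.2⟩
    · rw [one_mul]
      exact enorm_sub_le.trans (add_le_add (hGv _ _) le_rfl)
  let ρ : Seminorm ℂ (XX ι ε hr R) := Seminorm.of (fun g => (ν g).toReal)
    (fun f g => by
      rw [← ENNReal.toReal_add (hν f) (hν g)]
      refine ENNReal.toReal_mono (ENNReal.add_ne_top.2 ⟨hν f, hν g⟩) ?_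
      rw [← mul_add]
      refine mul_le_mul_right ?_ _
      have := N_le_add (R := R) (f := fun x => G x ((f + g).1.1 x) - (f + g).1.2 x) hr.le (hsm f)
        (hsm g) ENNReal.one_ne_top ENNReal.one_ne_top (fun x => by
          rw [one_mul, one_mul]
          refine le_trans (le_of_eq ?_) (enorm_add_le _ _)
          congr 1
          simp only [Submodule.coe_add, Prod.fst_add, Prod.snd_add, Pi.add_apply, map_add]
          abel) 0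
      simpa using this)
    (fun c g => by
      have : ν (c • g) = ‖c‖ₑ * ν g := by
        simp only [ν, N, Submodule.coe_smul, Prod.smul_fst, Prod.smul_snd, Pi.smul_apply, map_smul,
          ← smul_sub, enorm_smul]
        rw [A_const_mul hr0 enorm_ne_top]
        ring
      rw [this, ENNReal.toReal_mul, toReal_enorm])
  have hw := pt_pos hε hR 0
  set φ : ℝ → ℂ := fun t => (pt 0 (-ε * R) - pt 0 (ε * R)) • ker (pt 0 (ε * R)) t with hφ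
  have hφL : InL 2 φ := (InL_ker (ne_of_sign hw) one_lt_two).const_smul two_pos _
  have hφN : ∀ (c : ℝ≥0∞) (f : ℝ → ι → ℂ), c ≠ ∞ → (∀ t, ‖f t‖ₑ ≤ c) → N R r f 0 ≤ cc r * c := by
    intro c f hc hf
    refine (A_mono hr0 hf 0).trans (le_of_eq ?_)
    rw [A_const hr0 hc, nrm_U hR hr0]
  have hφv : ∀ (v : ι → ℂ) t, ‖φ t • v‖ₑ ≤ 2 * ‖v‖ₑ := fun v t => by
    rw [enorm_smul]
    exact mul_le_mul_left (enorm_test hε hR t) _
  have h2v : ∀ v : ι → ℂ, 2 * ‖v‖ₑ ≠ ∞ := fun v => ENNReal.mul_ne_top (by simp) enorm_ne_top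
  let σ : (ι → ℂ) →ₗ[ℂ] XX ι ε hr R :=
    { toFun := fun v => ⟨(fun t => φ t • v, fun _ => 0),
        ⟨(hφL.smul_const two_pos v).loc one_lt_two, (XX ι ε hr R).zero_mem.1.2⟩,
        ⟨((Ann_ker hw).const_smul _).smul_const v, Ann.zero _⟩,
        ne_top_of_le_ne_top (ENNReal.mul_ne_top (cc_ne_top hr) (h2v v))
          (hφN _ _ (h2v v) (hφv v)), (XX ι ε hr R).zero_mem.2.2.2⟩
      map_add' := fun v w => by
        ext t i <;> simp [mul_add]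
      map_smul' := fun c v => by
        ext t i <;> simp [mul_left_comm] }
  have hσ : ∀ v, α (σ v) = v := by
    intro v
    have := Pois_clm (hφL.loc one_lt_two) (ContinuousLinearMap.toSpanSingleton ℂ v) hR 0
    have h1 : Pois R φ 0 = 1 := Pois_test hε hR
    rw [h1] at this
    simp only [ContinuousLinearMap.toSpanSingleton_apply, one_smul] at this
    exact this
  have hβ : ∀ v, β (σ v) = 0 := by
    intro v
    simp [β, σ, Pois]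
  have hle : ∀ (v : ι → ℂ) (g : XX ι ε hr R), ‖v‖ ≤ ρ g ↔ ‖v‖ₑ ≤ ν g := by
    intro v g
    rw [← ofReal_norm, ENNReal.ofReal_le_iff_le_toReal (hν g)]
    rfl
  obtain ⟨T, hT1, hT2⟩ := HB_factor α β ρ σ hσ hβ (fun g hg => by
    rw [hle]
    obtain ⟨⟨g₁, g₂⟩, ⟨l₁, l₂⟩, ⟨a₁, a₂⟩, n₁, n₂⟩ := g
    have h1 := local2 hε hLB hR l₁ l₂ a₁ a₂ n₁ n₂ hg
    have h2 := N_le_add (R := R) (f := g₂) hr.le l₁.1 ((sm_apply hG l₁.1).sub l₂.1) hB
      ENNReal.one_ne_top (fun x => by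
        rw [one_mul]
        refine le_trans (le_of_eq ?_) (enorm_sub_le.trans (add_le_add (hGv x (g₁ x)) le_rfl))
        simp) 0
    refine (enorm_Pois_le hr l₂.1 hR 0).trans ?_
    simp only [ν, hK]
    rw [mul_assoc]
    refine mul_le_mul_right (h2.trans ?_) _
    rw [add_mul, mul_assoc]
    exact add_le_add (mul_le_mul_right h1 _) le_rfl)
  refine ⟨LinearMap.toContinuousLinearMap T, fun v => ?_, fun g₁ g₂ l₁ l₂ a₁ a₂ n₁ n₂ => ?_⟩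
  · rw [LinearMap.coe_toContinuousLinearMap']
    refine ((hle _ _).1 (hT1 v)).trans ?_
    rw [mul_assoc]
    refine mul_le_mul_right ((hφN (B * (2 * ‖v‖ₑ)) _ (ENNReal.mul_ne_top hB (h2v v))
      fun t => ?_).trans (le_of_eq (by ring))) _
    simpa [σ] using (hGv t (φ t • v)).trans (mul_le_mul_right (hφv v t) _)
  · rw [LinearMap.coe_toContinuousLinearMap']
    have := (hle _ _).1 (hT2 ⟨(g₁, g₂), ⟨l₁, l₂⟩, ⟨a₁, a₂⟩, n₁, n₂⟩)
    simp only [α, β, ν, LinearMap.coe_mk, AddHom.coe_mk] at this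
    exact this

end

end Pool.Agent.P.MP_a3f7df_an
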