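import Pool.Agent.P.MP_a3f7df_an.L1

/-! The large scale estimate for almost periodic symbols. -/

open MeasureTheory Set Filter Topology Complex
open scoped ENNReal NNReal Real

namespace Pool.Agent.P.MP_a3f7df_an

noncomputable section

variable {ι : Type*} [Fintype ι]

/-- Almost periods are relatively dense. -/
def AlmostPer {F : Type*} [NormedAddCommGroup F] (G : ℝ → F) : Prop :=
  ∀ e : ℝ, 0 < e → ∃ L : ℝ, 0 < L ∧ ∀ a, ∃ τ, |a - τ| ≤ L ∧ ∀ x, ‖G (x + τ) - G x‖ ≤ e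

/-- The mixed norm. -/
def MX (R r q : ℝ) (φ : ℝ → ℝ≥0∞) : ℝ≥0∞ := nrm q (A (U R r) r φ)

lemma MX_mono {R r q : ℝ} (hr : 0 < r) (hq : 0 < q) {φ ψ : ℝ → ℝ≥0∞} (h : ∀ x, φ x ≤ ψ x) :
    MX R r q φ ≤ MX R r q ψ := nrm_mono hq (A_mono hr h)

lemma MX_add_le {R r q : ℝ} (hr : 1 ≤ r) (hq : 1 ≤ q) {φ ψ : ℝ → ℝ≥0∞} (hφ : Measurable φ)
    (hψ : Measurable ψ) : MX R r q (fun x => φ x + ψ x) ≤ MX R r q φ + MX R r q ψ :=
  (nrm_mono (one_pos.trans_le hq) (A_add_le (U_measurable R r) hr hφ hψ)).trans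
    (nrm_add_le hq (A_measurable (U_measurable R r) hφ r).aemeasurable
      (A_measurable (U_measurable R r) hψ r).aemeasurable)

lemma MX_const_mul {R r q : ℝ} (hr : 0 < r) (hq : 0 < q) {c : ℝ≥0∞} (hc : c ≠ ∞)
    (φ : ℝ → ℝ≥0∞) : MX R r q (fun x => c * φ x) = c * MX R r q φ := by
  unfold MX
  rw [← nrm_const_mul hq hc]
  congr 1
  ext a
  exact A_const_mul hr hc φ a

lemma nrm_le_add {q : ℝ} (hq : 1 ≤ q) {φ ψ χ : ℝ → ℝ≥0∞} (hψ : Measurable ψ) (hχ : Measurable χ)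
    {b c : ℝ≥0∞} (hb : b ≠ ∞) (hc : c ≠ ∞) (h : ∀ x, φ x ≤ b * ψ x + c * χ x) :
    nrm q φ ≤ b * nrm q ψ + c * nrm q χ := by
  have hq0 : 0 < q := one_pos.trans_le hq
  refine (nrm_mono hq0 h).trans ((nrm_add_le hq (hψ.const_mul b).aemeasurable
    (hχ.const_mul c).aemeasurable).trans (le_of_eq ?_))
  rw [nrm_const_mul hq0 hb, nrm_const_mul hq0 hc]

lemma MX_le_add {R r q : ℝ} (hr : 1 ≤ r) (hq : 1 ≤ q) {φ ψ χ : ℝ → ℝ≥0∞} (hψ : Measurable ψ)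
    (hχ : Measurable χ) {b c : ℝ≥0∞} (hb : b ≠ ∞) (hc : c ≠ ∞)
    (h : ∀ x, φ x ≤ b * ψ x + c * χ x) :
    MX R r q φ ≤ b * MX R r q ψ + c * MX R r q χ := by
  have hq0 : 0 < q := one_pos.trans_le hq
  have hr0 : 0 < r := one_pos.trans_le hr
  refine (MX_mono hr0 hq0 h).trans ((MX_add_le hr hq (hψ.const_mul b)
    (hχ.const_mul c)).trans (le_of_eq ?_))
  rw [MX_const_mul hr0 hq0 hb, MX_const_mul hr0 hq0 hc]

theorem largeScale {ε : ℝ} (hε : ε * ε = 1) {r q : ℝ} (hr : 1 < r) (hq : 1 < q) {C B : ℝ≥0∞}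
    (hC : C ≠ ∞) (hB : B ≠ ∞) {G : ℝ → (ι → ℂ) →L[ℂ] (ι → ℂ)} (hG : Continuous G)
    (hGB : ∀ x, ‖G x‖ₑ ≤ B) (hAP : AlmostPer G) (hLB : LB ε r C G) :
    ∃ C₀ : ℝ≥0∞, C₀ ≠ ∞ ∧ ∃ R : ℝ, 0 < R ∧ ∀ g₁ g₂ : ℝ → ι → ℂ, InL q g₁ → InL q g₂ →
      Ann ε g₁ → Ann (-ε) g₂ → MX R r q (fun x => ‖g₁ x‖ₑ) ≠ ∞ →
      MX R r q (fun x => ‖g₂ x‖ₑ) ≠ ∞ →
      MX R r q (fun x => ‖g₁ x‖ₑ) ≤ C₀ * MX R r q (fun x => ‖G x (g₁ x) - g₂ x‖ₑ) := by
  have hr0 : 0 < r := one_pos.trans hr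
  have hq0 : 0 < q := one_pos.trans hq
  obtain ⟨Cq, hCq, hRI⟩ := RI ι hq
  have hcP := cP_ne_top hr
  have hcc := cc_ne_top hr
  set K := cP r * (B * C + 1) with hK
  have hKt : K ≠ ∞ := by finiteness
  set K' := K * (cc r * (B * 2)) with hK'
  have hK't : K' ≠ ∞ := by finiteness
  set K₁ := K * 2 + 2 * cP r with hK₁
  have hK₁t : K₁ ≠ ∞ := by finiteness
  set K₂ := K * 2 + K' * (2 * cP r) + 2 * cP r * B with hK₂
  have hK₂t : K₂ ≠ ∞ := by finiteness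
  obtain ⟨δ, hδ, hδ1, hδ2⟩ := exists_small (C := C * cc r * Cq * K₂) (by finiteness)
    (η := 2⁻¹) (by simp)
  obtain ⟨L, hL, hτ⟩ := hAP δ hδ
  have hR : 0 < L / δ := div_pos hL hδ
  set R := L / δ with hRdef
  have hLR : L = δ * R := by rw [hRdef]; field_simp
  have hLR' : L ≤ R := by rw [hLR]; nlinarith
  set d := ENNReal.ofReal δ with hd
  have hdt : d ≠ ∞ := ENNReal.ofReal_ne_top
  have hd1 : d ≤ 1 := ENNReal.ofReal_le_one.2 hδ1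
  have hGv : ∀ x v, ‖G x v‖ₑ ≤ B * ‖v‖ₑ := fun x v =>
    ((G x).le_opENorm v).trans (mul_le_mul_left (hGB x) _)
  obtain ⟨T, hT1, hT2⟩ := local3 hε hr hC hB hG hGB hLB hR
  refine ⟨2 * (C * (1 + cc r * Cq * K₁)), by finiteness, R, hR,
    fun g₁ g₂ i₁ i₂ a₁ a₂ m₁ m₂ => ?_⟩
  have l₁ := i₁.loc hq
  have l₂ := i₂.loc hq
  have n₁ : ∀ a, N R r g₁ a ≠ ∞ := A_ne_top_of_nrm hR hr0 hq0 i₁.1.enorm m₁
  have n₂ : ∀ a, N R r g₂ a ≠ ∞ := A_ne_top_of_nrm hR hr0 hq0 i₂.1.enorm m₂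
  set h : ℝ → ι → ℂ := fun x => G x (g₁ x) - g₂ x with hh
  have hm : StronglyMeasurable h := (sm_apply hG i₁.1).sub i₂.1
  have hg₂ : ∀ a, N R r g₂ a ≤ B * N R r g₁ a + 1 * N R r h a := fun a =>
    N_le_add hr.le i₁.1 hm hB ENNReal.one_ne_top (fun x => by
      rw [one_mul]
      refine le_trans (le_of_eq ?_) (enorm_sub_le.trans (add_le_add (hGv x (g₁ x)) le_rfl))
      simp [hh]) a
  have hpt : ∀ a, ‖T (Pois R g₁ a) + Pois R g₂ a‖ₑ ≤ K₁ * N R r h a + (d * K₂) * N R r g₁ a := by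
    intro a
    obtain ⟨τ, hτ1, hτ2⟩ := hτ a
    have hτ3 : |τ - a| ≤ R := by rw [abs_sub_comm]; exact hτ1.trans hLR'
    have e1 := hT2 _ _ (l₁.shift τ) (l₂.shift τ) (a₁.shift τ) (a₂.shift τ)
      (by rw [N_shift]; exact n₁ _) (by rw [N_shift]; exact n₂ _)
    rw [Pois_shift, Pois_shift, zero_add] at e1
    have e2 : N R r (fun x => G x (g₁ (x + τ)) - g₂ (x + τ)) 0 ≤
        1 * N R r (fun x => h (x + τ)) 0 + d * N R r (fun x => g₁ (x + τ)) 0 :=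
      N_le_add hr.le (hm.comp_measurable (measurable_id.add_const τ)) (i₁.shift τ).1
        ENNReal.one_ne_top hdt (fun x => by
          have h1 : G x (g₁ (x + τ)) - g₂ (x + τ) =
              h (x + τ) - (G (x + τ) - G x) (g₁ (x + τ)) := by
            simp [hh]
          rw [h1, one_mul]
          refine enorm_sub_le.trans (add_le_add le_rfl ?_)
          refine (ContinuousLinearMap.le_opENorm _ _).trans (mul_le_mul_left ?_ _)
          rw [← ofReal_norm]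
          exact ENNReal.ofReal_le_ofReal (hτ2 x)) 0
    rw [N_shift, N_shift, zero_add] at e2
    have e3 : N R r h τ ≤ 2 * N R r h a := A_U_shift hR hr0 _ hτ3
    have e4 : N R r g₁ τ ≤ 2 * N R r g₁ a := A_U_shift hR hr0 _ hτ3
    have e5 : ‖Pois R g₁ τ - Pois R g₁ a‖ₑ ≤ d * (2 * cP r) * N R r g₁ a :=
      enorm_Pois_sub_le hr l₁ hR hδ1 (hLR ▸ hτ1)
    have e6 : ‖Pois R g₂ τ - Pois R g₂ a‖ₑ ≤ d * (2 * cP r) * N R r g₂ a :=
      enorm_Pois_sub_le hr l₂ hR hδ1 (hLR ▸ hτ1)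
    have e7 : T (Pois R g₁ a) + Pois R g₂ a = (T (Pois R g₁ τ) + Pois R g₂ τ) -
        T (Pois R g₁ τ - Pois R g₁ a) - (Pois R g₂ τ - Pois R g₂ a) := by
      rw [map_sub]
      abel
    rw [e7]
    calc _ ≤ ‖T (Pois R g₁ τ) + Pois R g₂ τ‖ₑ + ‖T (Pois R g₁ τ - Pois R g₁ a)‖ₑ +
          ‖Pois R g₂ τ - Pois R g₂ a‖ₑ :=
          enorm_sub_le.trans (add_le_add enorm_sub_le le_rfl)
      _ ≤ K * (1 * (2 * N R r h a) + d * (2 * N R r g₁ a)) + K' * (d * (2 * cP r) * N R r g₁ a) +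
          d * (2 * cP r) * (B * N R r g₁ a + 1 * N R r h a) := by
          refine add_le_add (add_le_add (e1.trans ?_) ((hT1 _).trans ?_)) (e6.trans ?_)
          · exact mul_le_mul_right (e2.trans (by gcongr)) _
          · exact mul_le_mul_right e5 _
          · exact mul_le_mul_right (hg₂ a) _
      _ = (K * 2 + d * (2 * cP r)) * N R r h a + (d * K₂) * N R r g₁ a := by
          rw [hK₂]
          ring
      _ ≤ (K * 2 + 1 * (2 * cP r)) * N R r h a + (d * K₂) * N R r g₁ a := by gcongr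
      _ = _ := by rw [one_mul]
  have hP₁ := i₁.pois hq hR
  have hP₂ := i₂.pois hq hR
  have s1 := hRI ε hε _ _ (hP₁.clm hq0 T) hP₂ ((a₁.pois hε hq i₁ hR).clm (hP₁.loc hq) T)
    (a₂.pois (by simpa using hε) hq i₂ hR)
  have s2 := nrm_le_add hq.le (N_measurable R r hm) (N_measurable R r i₁.1) hK₁t
    (ENNReal.mul_ne_top hdt hK₂t) hpt
  have s3 := nrm_le_add (φ := N R r g₁) hq.le (N_measurable R r hm) hP₂.1.enorm hC
    (ENNReal.mul_ne_top hC hcc) (fun a => (local1 hε hr hG hLB hR l₁ l₂ a₁ a₂ (n₁ a) (n₂ a)).trans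
      (le_of_eq (by rw [mul_add, mul_assoc])))
  change nrm q (N R r g₁) ≤ 2 * (C * (1 + cc r * Cq * K₁)) * nrm q (N R r h)
  rw [mul_assoc]
  refine absorb m₁ (s3.trans ?_)
  change _ ≤ _ + 2⁻¹ * nrm q (N R r g₁)
  calc _ ≤ C * nrm q (N R r h) + C * cc r *
        (Cq * (K₁ * nrm q (N R r h) + d * K₂ * nrm q (N R r g₁))) := by
        gcongr
        exact s1.trans (mul_le_mul_right s2 _)
    _ = C * (1 + cc r * Cq * K₁) * nrm q (N R r h) +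
        (C * cc r * Cq * K₂ * d) * nrm q (N R r g₁) := by ring
    _ ≤ _ := by gcongr

end

end Pool.Agent.P.MP_a3f7df_an
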