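import Pool.Agent.P.MP_a3f7df_an.L2

/-! Independence of the exponent for the lower bound. -/

open MeasureTheory Set Filter Topology Complex
open scoped ENNReal NNReal Real

namespace Pool.Agent.P.MP_a3f7df_an

noncomputable section

variable {ι : Type*} [Fintype ι]

lemma small_scale {F : Type*} [NormedAddCommGroup F] {G : ℝ → F} (hG : UniformContinuous G)
    {B : ℝ≥0∞} (hB : B ≠ ∞) (hGB : ∀ x, ‖G x‖ₑ ≤ B) {s : ℝ} (hs : 1 < s) {e : ℝ} (he : 0 < e)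
    {η : ℝ≥0∞} (hη : η ≠ 0) (hη' : η ≠ ∞) : ∃ σ : ℝ, 0 < σ ∧ ∀ φ : ℝ → ℝ≥0∞, Measurable φ → ∀ x,
      A (U σ s) s (fun t => ‖G t - G x‖ₑ * φ t) x ≤
        ENNReal.ofReal e * A (U σ s) s φ x + η * A (U 1 s) s φ x := by
  obtain ⟨δ, hδ, h1⟩ := Metric.uniformContinuous_iff_le.1 hG e he
  obtain ⟨e', he', -, h2⟩ := exists_small (C := 2 * B) (by finiteness) hη
  obtain ⟨σ, hσ, h3⟩ := W6 hs hδ (η := ENNReal.ofReal e') (by simpa using he')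
  refine ⟨σ, hσ, fun φ hφ x => ?_⟩
  refine nrm_le_add hs.le (by fun_prop) (by fun_prop) ENNReal.ofReal_ne_top hη' fun t => ?_
  rw [← mul_assoc, ← mul_assoc, ← mul_assoc, ← add_mul]
  refine mul_le_mul_left ?_ _
  rcases le_or_gt |t - x| δ with h | h
  · refine le_trans ?_ le_self_add
    rw [mul_comm]
    refine mul_le_mul_left ?_ _
    rw [← ofReal_norm, ← dist_eq_norm]
    exact ENNReal.ofReal_le_ofReal (h1 (by rwa [Real.dist_eq]))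
  · refine le_trans ?_ le_add_self
    calc U σ s (t - x) * ‖G t - G x‖ₑ ≤ (ENNReal.ofReal e' * U 1 s (t - x)) * (2 * B) := by
          refine mul_le_mul' (h3 σ hσ le_rfl _ h) (enorm_sub_le.trans ?_)
          rw [two_mul]
          exact add_le_add (hGB t) (hGB x)
      _ = (2 * B * ENNReal.ofReal e') * U 1 s (t - x) := by ring
      _ ≤ _ := mul_le_mul_left h2 _

lemma lower_bound {ε : ℝ} (hε : ε * ε = 1) {r : ℝ} (hr : 1 < r) {C B : ℝ≥0∞}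
    (hC : C ≠ ∞) (hB : B ≠ ∞) {G : ℝ → (ι → ℂ) →L[ℂ] (ι → ℂ)} (hG : UniformContinuous G)
    (hGB : ∀ x, ‖G x‖ₑ ≤ B) (hLB : LB ε r C G) (x : ℝ) (v : ι → ℂ) :
    ‖v‖ₑ ≤ 2 * C * ‖G x v‖ₑ := by
  have hr0 : 0 < r := one_pos.trans hr
  obtain ⟨e, he, -, he2⟩ := exists_small (C := C * 2) (by finiteness) (η := 2⁻¹) (by simp)
  obtain ⟨σ, hσ, h⟩ := small_scale hG hB hGB hr he (η := ENNReal.ofReal e) (by simpa using he)
    ENNReal.ofReal_ne_top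
  have hw := pt_pos hε hσ x
  have i₁ : InL r fun t => ((σ ^ (1 - 1 / r) : ℝ) : ℂ) • ker (pt x (ε * σ)) t • v :=
    ((InL_ker (ne_of_sign hw) hr).smul_const hr0 v).const_smul hr0 _
  have key := hLB _ _ i₁ (InL.zero hr0) (((Ann_ker hw).smul_const v).const_smul _) (Ann.zero _)
  simp only [map_smul, sub_zero, enorm_psi hε hσ] at key
  have h1 : nrm r (fun t => U σ r (t - x) * ‖v‖ₑ) = cc r * ‖v‖ₑ := by
    rw [← nrm_U hσ hr0]
    exact A_const hr0 enorm_ne_top x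
  have h2 := h (fun _ => ‖v‖ₑ) measurable_const x
  rw [A_const hr0 enorm_ne_top, A_const hr0 enorm_ne_top, nrm_U hσ hr0, nrm_U one_pos hr0] at h2
  have h3 : nrm r (fun t => U σ r (t - x) * ‖G t v‖ₑ) ≤
      cc r * ‖G x v‖ₑ + A (U σ r) r (fun t => ‖G t - G x‖ₑ * ‖v‖ₑ) x := by
    have hm : Measurable fun t => ‖G t - G x‖ₑ * ‖v‖ₑ :=
      ((hG.continuous.sub continuous_const).enorm.measurable).mul_const _
    refine (A_mono hr0 (w := U σ r) (fun t => ?_) x).trans ((A_add_le (U_measurable σ r) hr.le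
      (measurable_const (a := ‖G x v‖ₑ)) hm x).trans (le_of_eq ?_))
    · have : G t v = G x v + (G t - G x) v := by simp
      rw [this]
      exact (enorm_add_le _ _).trans (add_le_add le_rfl (ContinuousLinearMap.le_opENorm _ _))
    · rw [A_const hr0 enorm_ne_top, nrm_U hσ hr0]
  rw [h1] at key
  have h4 : cc r * ‖v‖ₑ ≤ 2 * (C * (cc r * ‖G x v‖ₑ)) := by
    refine absorb (ENNReal.mul_ne_top (cc_ne_top hr) enorm_ne_top) (key.trans ?_)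
    calc _ ≤ C * (cc r * ‖G x v‖ₑ + (ENNReal.ofReal e * (cc r * ‖v‖ₑ) +
          ENNReal.ofReal e * (cc r * ‖v‖ₑ))) := mul_le_mul_right (h3.trans (by gcongr)) _
      _ = C * (cc r * ‖G x v‖ₑ) + (C * 2 * ENNReal.ofReal e) * (cc r * ‖v‖ₑ) := by ring
      _ ≤ _ := by gcongr
  refine (ENNReal.mul_le_mul_iff_right (cc_ne_zero hr0) (cc_ne_top hr)).1 (h4.trans (le_of_eq ?_))
  ring

lemma small_a {ε : ℝ} (hε : ε * ε = 1) {r q : ℝ} (hr : 1 < r) (hq : 1 < q) {C B : ℝ≥0∞}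
    (hC : C ≠ ∞) (hB : B ≠ ∞) {G : ℝ → (ι → ℂ) →L[ℂ] (ι → ℂ)} (hG : UniformContinuous G)
    (hGB : ∀ x, ‖G x‖ₑ ≤ B) (hLB : LB ε r C G) : ∃ Ca : ℝ≥0∞, Ca ≠ ∞ ∧
      ∀ σ, 0 < σ → ∀ f₁ f₂ : ℝ → ι → ℂ, InL q f₁ → InL q f₂ → Ann ε f₁ → Ann (-ε) f₂ → ∀ x,
      N σ q f₁ x ≤ Ca * (N σ q (fun t => G x (f₁ t) - f₂ t) x + cc q * ‖Pois σ f₂ x‖ₑ) := by
  have hq0 : 0 < q := one_pos.trans hq
  obtain ⟨Cq, hCq, hRI⟩ := RI ι hq
  refine ⟨2 * C * Cq, by finiteness, fun σ hσ f₁ f₂ i₁ i₂ a₁ a₂ x => ?_⟩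
  have hfin : ∀ f : ℝ → ι → ℂ, InL q f → N σ q f x ≠ ∞ := fun f hf =>
    ne_top_of_le_ne_top (ENNReal.mul_ne_top ENNReal.ofReal_ne_top hf.2) (A_le_of_nrm hσ hq0 _ x)
  refine local1 (G := fun _ => G x) hε hq continuous_const (fun f g hf hg af ag => ?_) hσ
    (i₁.loc hq) (i₂.loc hq) a₁ a₂ (hfin _ i₁) (hfin _ i₂)
  have h1 := hRI (-ε) (by simpa using hε) _ _ hg.neg (hf.clm hq0 (G x)) ag.neg
    (by rw [neg_neg]; exact af.clm (hf.loc hq) (G x))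
  simp only [neg_add_eq_sub] at h1
  refine (nrm_mono hq0 fun t => lower_bound hε hr hC hB hG hGB hLB x (f t)).trans ?_
  rw [nrm_const_mul hq0 (by finiteness), mul_assoc (2 * C)]
  exact mul_le_mul_right h1 _

lemma small_Z {q : ℝ} (hq : 1 < q) {G : ℝ → (ι → ℂ) →L[ℂ] (ι → ℂ)} (hG : Continuous G)
    {σ : ℝ} {f₁ f₂ : ℝ → ι → ℂ} (m₁ : StronglyMeasurable f₁) (m₂ : StronglyMeasurable f₂) (x : ℝ) :
    N σ q (fun t => G x (f₁ t) - f₂ t) x ≤ N σ q (fun t => G t (f₁ t) - f₂ t) x +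
      A (U σ q) q (fun t => ‖G t - G x‖ₑ * ‖f₁ t‖ₑ) x := by
  refine (A_mono (one_pos.trans hq) (fun t => ?_) x).trans (A_add_le (U_measurable σ q) hq.le
    ((sm_apply hG m₁).sub m₂).enorm
    ((hG.sub continuous_const).enorm.measurable.mul m₁.enorm) x)
  have : G x (f₁ t) - f₂ t = (G t (f₁ t) - f₂ t) - (G t - G x) (f₁ t) := by simp
  change ‖G x (f₁ t) - f₂ t‖ₑ ≤ ‖G t (f₁ t) - f₂ t‖ₑ + ‖G t - G x‖ₑ * ‖f₁ t‖ₑ
  rw [this]
  exact enorm_sub_le.trans (add_le_add le_rfl (ContinuousLinearMap.le_opENorm _ _))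

lemma nrm_N {E : Type*} [NormedAddCommGroup E] {σ q : ℝ} (hσ : 0 < σ) (hq : 0 < q) {f : ℝ → E}
    (hf : StronglyMeasurable f) : nrm q (N σ q f) = cc q * nrm q (fun x => ‖f x‖ₑ) := by
  rw [← nrm_U hσ hq]
  exact nrm_A (U_measurable σ q) hf.enorm hq

theorem LB_up {ε : ℝ} (hε : ε * ε = 1) {r q : ℝ} (hr : 1 < r) (hrq : r ≤ q) {C B : ℝ≥0∞}
    (hC : C ≠ ∞) (hB : B ≠ ∞) {G : ℝ → (ι → ℂ) →L[ℂ] (ι → ℂ)} (hG : UniformContinuous G)
    (hGB : ∀ x, ‖G x‖ₑ ≤ B) (hAP : AlmostPer G) (hLB : LB ε r C G) :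
    ∃ C' : ℝ≥0∞, C' ≠ ∞ ∧ LB ε q C' G := by
  have hq : 1 < q := hr.trans_le hrq
  have hr0 : 0 < r := one_pos.trans hr
  have hq0 : 0 < q := one_pos.trans hq
  have hcP := cP_ne_top hr
  have hcc := cc_ne_top hq
  obtain ⟨C₀, hC₀, R, hR, hLS⟩ := largeScale hε hr hq hC hB hG.continuous hGB hAP hLB
  obtain ⟨Ca, hCa, ha⟩ := small_a hε hr hq hC hB hG hGB hLB
  obtain ⟨C₂, hC₂, hW2⟩ := W2 (U_measurable R r) hr0 hrq
    (by rw [nrm_U hR hr0]; exact cc_ne_top hr)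
  obtain ⟨e, he, -, he2⟩ := exists_small (C := Ca * 2) (by finiteness) (η := 2⁻¹) (by simp)
  obtain ⟨σ, hσ, hsm⟩ := small_scale hG hB hGB hq he (η := ENNReal.ofReal e) (by simpa using he)
    ENNReal.ofReal_ne_top
  obtain ⟨K, hK, hcomp⟩ := A_compare hσ hR hr0 0
  set d := ENNReal.ofReal e with hd
  have hdt : d ≠ ∞ := ENNReal.ofReal_ne_top
  have hGv : ∀ x v, ‖G x v‖ₑ ≤ B * ‖v‖ₑ := fun x v =>
    ((G x).le_opENorm v).trans (mul_le_mul_left (hGB x) _)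
  refine ⟨2 * (Ca * (1 + cP r * K * ((B * C₀ + 1) * C₂))), by finiteness,
    fun f₁ f₂ i₁ i₂ a₁ a₂ => ?_⟩
  set h : ℝ → ι → ℂ := fun x => G x (f₁ x) - f₂ x with hh
  have hm : StronglyMeasurable h := (sm_apply hG.continuous i₁.1).sub i₂.1
  have fin : ∀ f : ℝ → ι → ℂ, InL q f → MX R r q (fun x => ‖f x‖ₑ) ≠ ∞ := fun f hf =>
    ne_top_of_le_ne_top (ENNReal.mul_ne_top hC₂ hf.2) (hW2 _ hf.1.enorm)
  have s1 := hLS f₁ f₂ i₁ i₂ a₁ a₂ (fin _ i₁) (fin _ i₂)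
  have s2 : MX R r q (fun x => ‖f₂ x‖ₑ) ≤
      B * MX R r q (fun x => ‖f₁ x‖ₑ) + 1 * MX R r q (fun x => ‖h x‖ₑ) :=
    MX_le_add hr.le hq.le i₁.1.enorm hm.enorm hB ENNReal.one_ne_top fun x => by
      rw [one_mul]
      refine le_trans (le_of_eq ?_) (enorm_sub_le.trans (add_le_add (hGv x (f₁ x)) le_rfl))
      simp [hh]
  have s3 : MX R r q (fun x => ‖h x‖ₑ) ≤ C₂ * nrm q (fun x => ‖h x‖ₑ) := hW2 _ hm.enorm
  have s4 : nrm q (fun x => ‖Pois σ f₂ x‖ₑ) ≤ cP r * K * MX R r q (fun x => ‖f₂ x‖ₑ) := by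
    rw [MX, ← nrm_const_mul hq0 (by finiteness)]
    refine nrm_mono hq0 fun x => (enorm_Pois_le hr i₂.1 hσ x).trans ?_
    rw [mul_assoc]
    simpa using mul_le_mul_right (hcomp (fun x => ‖f₂ x‖ₑ) x) (cP r)
  have s5 : nrm q (fun x => ‖Pois σ f₂ x‖ₑ) ≤
      cP r * K * ((B * C₀ + 1) * C₂) * nrm q (fun x => ‖h x‖ₑ) := by
    refine s4.trans ?_
    rw [mul_assoc (cP r * K)]
    refine mul_le_mul_right (s2.trans ?_) _
    calc _ ≤ B * (C₀ * MX R r q (fun x => ‖h x‖ₑ)) + 1 * MX R r q (fun x => ‖h x‖ₑ) := by gcongr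
      _ = (B * C₀ + 1) * MX R r q (fun x => ‖h x‖ₑ) := by ring
      _ ≤ (B * C₀ + 1) * (C₂ * nrm q (fun x => ‖h x‖ₑ)) := by gcongr
      _ = _ := by ring
  have mN₁ := N_measurable σ q i₁.1
  have mN₂ := N_measurable 1 q i₁.1
  have mNh := N_measurable σ q hm
  set Z : ℝ → ℝ≥0∞ := fun x => 1 * N σ q h x + 1 * (d * N σ q f₁ x + d * N 1 q f₁ x) with hZ
  have mZ' : Measurable fun x => d * N σ q f₁ x + d * N 1 q f₁ x := by fun_prop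
  have mZ : Measurable Z := by fun_prop
  have s6 : nrm q Z ≤ cc q * nrm q (fun x => ‖h x‖ₑ) + 2 * d * (cc q * nrm q (fun x => ‖f₁ x‖ₑ)) := by
    refine (nrm_le_add hq.le mNh mZ' ENNReal.one_ne_top ENNReal.one_ne_top fun _ => le_rfl).trans ?_
    rw [one_mul, one_mul, nrm_N hσ hq0 hm]
    refine add_le_add le_rfl ((nrm_le_add hq.le mN₁ mN₂ hdt hdt fun _ => le_rfl).trans (le_of_eq ?_))
    rw [nrm_N hσ hq0 i₁.1, nrm_N one_pos hq0 i₁.1]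
    ring
  have s7 := nrm_le_add (φ := N σ q f₁) hq.le mZ (Pois_stronglyMeasurable i₂.1 σ).enorm hCa
    (ENNReal.mul_ne_top hCa hcc) fun x => by
      refine (ha σ hσ f₁ f₂ i₁ i₂ a₁ a₂ x).trans ?_
      rw [mul_add, mul_assoc]
      refine add_le_add (mul_le_mul_right ((small_Z hq hG.continuous i₁.1 i₂.1 x).trans ?_) _) le_rfl
      simp only [hZ, one_mul]
      exact add_le_add le_rfl (hsm _ i₁.1.enorm x)
  rw [nrm_N hσ hq0 i₁.1] at s7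
  refine (ENNReal.mul_le_mul_iff_right (cc_ne_zero hq0) hcc).1 ?_
  have s8 : cc q * nrm q (fun x => ‖f₁ x‖ₑ) ≤ 2 * (cc q *
      (Ca * (1 + cP r * K * ((B * C₀ + 1) * C₂)) * nrm q (fun x => ‖h x‖ₑ))) := by
    refine absorb (ENNReal.mul_ne_top hcc i₁.2) (s7.trans ?_)
    calc _ ≤ Ca * (cc q * nrm q (fun x => ‖h x‖ₑ) + 2 * d * (cc q * nrm q (fun x => ‖f₁ x‖ₑ))) +
          Ca * cc q * (cP r * K * ((B * C₀ + 1) * C₂) * nrm q (fun x => ‖h x‖ₑ)) := by gcongr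
      _ = cc q * (Ca * (1 + cP r * K * ((B * C₀ + 1) * C₂)) * nrm q (fun x => ‖h x‖ₑ)) +
          (Ca * 2 * d) * (cc q * nrm q (fun x => ‖f₁ x‖ₑ)) := by ring
      _ ≤ _ := by gcongr
  exact s8.trans (le_of_eq (by ring))

theorem LB_down {ε : ℝ} (hε : ε * ε = 1) {r q : ℝ} (hq : 1 < q) (hqr : q ≤ r) {C B : ℝ≥0∞}
    (hC : C ≠ ∞) (hB : B ≠ ∞) {G : ℝ → (ι → ℂ) →L[ℂ] (ι → ℂ)} (hG : UniformContinuous G)
    (hGB : ∀ x, ‖G x‖ₑ ≤ B) (hAP : AlmostPer G) (hLB : LB ε r C G) :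
    ∃ C' : ℝ≥0∞, C' ≠ ∞ ∧ LB ε q C' G := by
  have hr : 1 < r := hq.trans_le hqr
  have hr0 : 0 < r := one_pos.trans hr
  have hq0 : 0 < q := one_pos.trans hq
  have hcP := cP_ne_top hq
  have hcc := cc_ne_top hq
  have hcc' : (cc q)⁻¹ ≠ ∞ := ENNReal.inv_ne_top.2 (cc_ne_zero hq0)
  obtain ⟨C₀, hC₀, R, hR, hLS⟩ := largeScale hε hr hq hC hB hG.continuous hGB hAP hLB
  obtain ⟨Ca, hCa, ha⟩ := small_a hε hr hq hC hB hG hGB hLB
  obtain ⟨C₃, hC₃, hW3⟩ := W3 (U_measurable R r) hq0 hqr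
    (by rw [nrm_U hR hr0]; exact cc_ne_top hr) (by rw [nrm_U hR hr0]; exact cc_ne_zero hr0)
  obtain ⟨C₄, hC₄, hW4⟩ := W4 one_pos hR hq hqr
  set C₁ := Ca * (1 + cc q * ((B * C₀ + 1) * cP q)) with hC₁
  have hC₁t : C₁ ≠ ∞ := by finiteness
  obtain ⟨e, he, -, he2⟩ := exists_small hC₁t (η := 2⁻¹) (by simp)
  obtain ⟨e', he', -, he2'⟩ := exists_small (C := (cc q)⁻¹ * C₃ * (2 * C₁) * C₄) (by finiteness)
    (η := 2⁻¹) (by simp)
  obtain ⟨σ, hσ, hsm⟩ := small_scale hG hB hGB hq he (η := ENNReal.ofReal e') (by simpa using he')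
    ENNReal.ofReal_ne_top
  obtain ⟨C₅, hC₅, hW5⟩ := W4 hσ hR hq hqr
  set d := ENNReal.ofReal e with hd
  have hdt : d ≠ ∞ := ENNReal.ofReal_ne_top
  set d' := ENNReal.ofReal e' with hd'
  have hdt' : d' ≠ ∞ := ENNReal.ofReal_ne_top
  have hGv : ∀ x v, ‖G x v‖ₑ ≤ B * ‖v‖ₑ := fun x v =>
    ((G x).le_opENorm v).trans (mul_le_mul_left (hGB x) _)
  refine ⟨2 * ((cc q)⁻¹ * C₃ * (2 * C₁) * C₅), by finiteness, fun f₁ f₂ i₁ i₂ a₁ a₂ => ?_⟩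
  set h : ℝ → ι → ℂ := fun x => G x (f₁ x) - f₂ x with hh
  have hm : StronglyMeasurable h := (sm_apply hG.continuous i₁.1).sub i₂.1
  have j₁ := i₁.pois hq hσ
  have j₂ := i₂.pois hq hσ
  have finN : ∀ f : ℝ → ι → ℂ, InL q f → MX R r q (N σ q f) ≠ ∞ := fun f hf =>
    ne_top_of_le_ne_top (ENNReal.mul_ne_top hC₅ hf.2) (hW5 _ hf.1.enorm)
  have fin : ∀ f : ℝ → ι → ℂ, InL q f → MX R r q (fun x => ‖Pois σ f x‖ₑ) ≠ ∞ := fun f hf => by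
    refine ne_top_of_le_ne_top ?_ (MX_mono hr0 hq0 (enorm_Pois_le hq hf.1 hσ))
    rw [MX_const_mul hr0 hq0 hcP]
    exact ENNReal.mul_ne_top hcP (finN f hf)
  have s1 := hLS _ _ j₁ j₂ (a₁.pois hε hq i₁ hσ) (a₂.pois (by simpa using hε) hq i₂ hσ)
    (fin _ i₁) (fin _ i₂)
  set k : ℝ → ι → ℂ := fun x => G x (Pois σ f₁ x) - Pois σ f₂ x with hk
  have km : StronglyMeasurable k := (sm_apply hG.continuous j₁.1).sub j₂.1
  have s2 : MX R r q (fun x => ‖Pois σ f₂ x‖ₑ) ≤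
      B * MX R r q (fun x => ‖Pois σ f₁ x‖ₑ) + 1 * MX R r q (fun x => ‖k x‖ₑ) :=
    MX_le_add hr.le hq.le j₁.1.enorm km.enorm hB ENNReal.one_ne_top fun x => by
      rw [one_mul]
      refine le_trans (le_of_eq ?_) (enorm_sub_le.trans (add_le_add (hGv x (Pois σ f₁ x)) le_rfl))
      simp [hk]
  have mN₁ := N_measurable σ q i₁.1
  have mN₂ := N_measurable 1 q i₁.1
  have mNh := N_measurable σ q hm
  set Z : ℝ → ℝ≥0∞ := fun x => 1 * N σ q h x + 1 * (d * N σ q f₁ x + d' * N 1 q f₁ x) with hZ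
  have mZ' : Measurable fun x => d * N σ q f₁ x + d' * N 1 q f₁ x := by fun_prop
  have mZ : Measurable Z := by fun_prop
  have hZ1 : ∀ x, N σ q (fun t => G x (f₁ t) - f₂ t) x ≤ Z x := fun x => by
    refine (small_Z hq hG.continuous i₁.1 i₂.1 x).trans ?_
    simp only [hZ, one_mul]
    exact add_le_add le_rfl (hsm _ i₁.1.enorm x)
  have s3 : MX R r q (fun x => ‖k x‖ₑ) ≤ cP q * MX R r q Z := by
    rw [← MX_const_mul hr0 hq0 hcP]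
    refine MX_mono hr0 hq0 fun x => ?_
    have h1 : k x = Pois σ (fun t => G x (f₁ t) - f₂ t) x := by
      rw [Pois_sub ((i₁.loc hq).clm (G x)) (i₂.loc hq) hσ, Pois_clm (i₁.loc hq) (G x) hσ]
    rw [h1]
    exact (enorm_Pois_le hq ((i₁.clm hq0 (G x)).1.sub i₂.1) hσ x).trans
      (mul_le_mul_right (hZ1 x) _)
  have s4 : MX R r q (N σ q f₁) ≤ C₁ * MX R r q Z := by
    have := MX_le_add (R := R) (φ := N σ q f₁) hr.le hq.le mZ j₂.1.enorm hCa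
      (ENNReal.mul_ne_top hCa hcc) fun x => by
        refine (ha σ hσ f₁ f₂ i₁ i₂ a₁ a₂ x).trans ?_
        rw [mul_add, mul_assoc]
        exact add_le_add (mul_le_mul_right (hZ1 x) _) le_rfl
    refine this.trans ?_
    calc _ ≤ Ca * MX R r q Z + Ca * cc q * (B * (C₀ * (cP q * MX R r q Z)) +
          1 * (cP q * MX R r q Z)) := by
          gcongr
          refine s2.trans ?_
          gcongr
          exact s1.trans (by gcongr)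
      _ = _ := by rw [hC₁]; ring
  have s5 : MX R r q Z ≤ C₅ * nrm q (fun x => ‖h x‖ₑ) + (d * MX R r q (N σ q f₁) +
      d' * (C₄ * nrm q (fun x => ‖f₁ x‖ₑ))) := by
    refine (MX_le_add hr.le hq.le mNh mZ' ENNReal.one_ne_top ENNReal.one_ne_top
      fun _ => le_rfl).trans ?_
    rw [one_mul, one_mul]
    refine add_le_add (hW5 _ hm.enorm) ((MX_le_add hr.le hq.le mN₁ mN₂ hdt hdt'
      fun _ => le_rfl).trans (add_le_add le_rfl (mul_le_mul_right (hW4 _ i₁.1.enorm) _)))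
  have s6 : MX R r q (N σ q f₁) ≤ 2 * (C₁ * (C₅ * nrm q (fun x => ‖h x‖ₑ) +
      d' * (C₄ * nrm q (fun x => ‖f₁ x‖ₑ)))) := by
    refine absorb (finN _ i₁) (s4.trans ?_)
    calc _ ≤ C₁ * (C₅ * nrm q (fun x => ‖h x‖ₑ) + (d * MX R r q (N σ q f₁) +
          d' * (C₄ * nrm q (fun x => ‖f₁ x‖ₑ)))) := by gcongr
      _ = C₁ * (C₅ * nrm q (fun x => ‖h x‖ₑ) + d' * (C₄ * nrm q (fun x => ‖f₁ x‖ₑ))) +
          (C₁ * d) * MX R r q (N σ q f₁) := by ring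
      _ ≤ _ := by gcongr
  have s7 : cc q * nrm q (fun x => ‖f₁ x‖ₑ) ≤ C₃ * MX R r q (N σ q f₁) := by
    rw [← nrm_N hσ hq0 i₁.1]
    exact hW3 _ mN₁
  rw [mul_assoc]
  refine absorb i₁.2 ?_
  calc nrm q (fun x => ‖f₁ x‖ₑ) = (cc q)⁻¹ * (cc q * nrm q (fun x => ‖f₁ x‖ₑ)) := by
        rw [← mul_assoc, ENNReal.inv_mul_cancel (cc_ne_zero hq0) hcc, one_mul]
    _ ≤ (cc q)⁻¹ * (C₃ * (2 * (C₁ * (C₅ * nrm q (fun x => ‖h x‖ₑ) +
      d' * (C₄ * nrm q (fun x => ‖f₁ x‖ₑ)))))) :=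
        mul_le_mul_right (s7.trans (mul_le_mul_right s6 _)) _
    _ = (cc q)⁻¹ * C₃ * (2 * C₁) * C₅ * nrm q (fun x => ‖h x‖ₑ) +
        ((cc q)⁻¹ * C₃ * (2 * C₁) * C₄ * d') * nrm q (fun x => ‖f₁ x‖ₑ) := by ring
    _ ≤ _ := by gcongr

/-- **Core theorem**: the lower bound does not depend on the exponent. -/
theorem LB_indep {ε : ℝ} (hε : ε * ε = 1) {r q : ℝ} (hr : 1 < r) (hq : 1 < q) {C B : ℝ≥0∞}
    (hC : C ≠ ∞) (hB : B ≠ ∞) {G : ℝ → (ι → ℂ) →L[ℂ] (ι → ℂ)} (hG : UniformContinuous G)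
    (hGB : ∀ x, ‖G x‖ₑ ≤ B) (hAP : AlmostPer G) (hLB : LB ε r C G) :
    ∃ C' : ℝ≥0∞, C' ≠ ∞ ∧ LB ε q C' G := by
  rcases le_total r q with h | h
  · exact LB_up hε hr h hC hB hG hGB hAP hLB
  · exact LB_down hε hq h hC hB hG hGB hAP hLB

end

end Pool.Agent.P.MP_a3f7df_an
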