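import Pool.Agent.P.MP_a3f7df_an.D
import Pool.Agent.P.MP_a3f7df_an.Defs

/-! The Hardy spaces of boundary values are described by the annihilation condition. -/

open MeasureTheory Set Filter Topology Complex
open scoped ENNReal NNReal Real

namespace Pool.Agent.P.MP_a3f7df_an

noncomputable section

lemma abs_sig {σ : ℝ} (hσ : σ * σ = 1) : |σ| = 1 := by
  have : |σ| * |σ| = 1 := by rw [← abs_mul, hσ, abs_one]
  nlinarith [abs_nonneg σ]

lemma line_integral_zero' {σ : ℝ} (hσ : σ * σ = 1) {Φ : ℂ → ℂ} {y C : ℝ} (hy : 0 < σ * y)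
    (hd : DifferentiableOn ℂ Φ {z | σ * y ≤ σ * z.im})
    (hb : ∀ z : ℂ, σ * y ≤ σ * z.im → ‖Φ z‖ ≤ C * ‖σ * z + I‖⁻¹ ^ (2 : ℝ)) :
    ∫ x, Φ (pt x y) = 0 := by
  have hσc : (σ : ℂ) * σ = 1 := by exact_mod_cast hσ
  have him : ∀ w : ℂ, σ * ((σ : ℂ) * w).im = w.im := fun w => by
    simp [← mul_assoc, hσ]
  have h := (line_integral_zero (Φ := fun w => Φ (σ * w)) (C := C) hy one_lt_two
    (hd.comp (differentiableOn_id.const_mul _) fun w hw => by
      simp only [mem_ofPred_eq, him] at hw ⊢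
      exact hw) (fun z hz => by
      have := hb (σ * z) (by rwa [him])
      rwa [← mul_assoc, hσc, one_mul] at this)).2
  have h1 : ∀ x : ℝ, (σ : ℂ) * pt x (σ * y) = pt (σ * x) y := fun x => by
    apply Complex.ext <;> simp [← mul_assoc, hσ]
  simp only [h1] at h
  rw [Measure.integral_comp_mul_left (fun x => Φ (pt x y)) σ, abs_inv, abs_sig hσ] at h
  simpa using h

lemma inv_bound {σ : ℝ} (hσ : σ * σ = 1) {y : ℝ} (hy : 0 < y) {a : ℂ} (ha : σ * a.im < y) :
    ∃ C : ℝ, 0 ≤ C ∧ ∀ w : ℂ, y ≤ σ * w.im → w - a ≠ 0 ∧ ‖(w - a)⁻¹‖ ≤ C * ‖σ * w + I‖⁻¹ := by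
  set d := y - σ * a.im with hd
  have hd0 : 0 < d := by linarith
  refine ⟨1 + ‖σ * a + I‖ / d, by positivity, fun w hw => ?_⟩
  have h1 : d ≤ ‖w - a‖ := by
    have h2 := Complex.abs_im_le_norm (w - a)
    have h3 : σ * (w - a).im ≤ |(w - a).im| := by
      calc σ * (w - a).im ≤ |σ * (w - a).im| := le_abs_self _
        _ = _ := by rw [abs_mul, abs_sig hσ, one_mul]
    rw [Complex.sub_im, mul_sub] at h3
    rw [Complex.sub_im] at h2
    linarith
  have h4 : 0 < ‖σ * w + I‖ := by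
    refine lt_of_lt_of_le ?_ (Complex.im_le_norm _)
    simp
    linarith
  have h5 : ‖σ * w + I‖ ≤ ‖w - a‖ + ‖σ * a + I‖ := by
    calc ‖σ * w + I‖ = ‖σ * (w - a) + (σ * a + I)‖ := by congr 1; ring
      _ ≤ ‖σ * (w - a)‖ + ‖σ * a + I‖ := norm_add_le _ _
      _ = _ := by rw [norm_mul, Complex.norm_real, Real.norm_eq_abs, abs_sig hσ, one_mul]
  have h6 : ‖σ * a + I‖ ≤ ‖σ * a + I‖ / d * ‖w - a‖ := by
    rw [div_mul_eq_mul_div, le_div_iff₀ hd0]
    exact mul_le_mul_of_nonneg_left h1 (norm_nonneg _)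
  refine ⟨norm_pos_iff.1 (hd0.trans_le h1), ?_⟩
  rw [norm_inv, ← div_eq_mul_inv, inv_eq_one_div, div_le_div_iff₀ (by linarith) h4]
  nlinarith

lemma Ann_slice {σ : ℝ} (hσ : σ * σ = 1) {s : ℝ} (hs : 1 < s) {F : ℂ → ℂ}
    (hF : DifferentiableOn ℂ F {z | 0 < σ * z.im}) {C : ℝ≥0∞} (hC : C ≠ ∞)
    (hb : ∀ y, 0 < σ * y → nrm s (fun x => ‖F (pt x y)‖ₑ) ≤ C) {y : ℝ} (hy : 0 < σ * y) :
    InL s (fun x => F (pt x y)) ∧ Ann (-σ) (fun x => F (pt x y)) := by
  have hs0 : 0 < s := one_pos.trans hs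
  have hc := conj_of_one_lt hs
  have hcont : ∀ y, 0 < σ * y → Continuous fun x => F (pt x y) := fun y hy =>
    hF.continuousOn.comp_continuous (continuous_pt y) fun _ => hy
  have hL : InL s (fun x => F (pt x y)) :=
    ⟨(hcont y hy).stronglyMeasurable, ne_top_of_le_ne_top hC (hb y hy)⟩
  refine ⟨hL, ?_⟩
  set f : ℝ → ℂ := fun x => F (pt x y) with hf
  have hopen : IsOpen {z : ℂ | 0 < σ * z.im} :=
    isOpen_lt continuous_const (continuous_const.mul Complex.continuous_im)
  have hconv : Convex ℝ {z : ℂ | 0 < σ * z.im} :=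
    convex_halfSpace_gt (f := fun z : ℂ => σ * z.im)
      ⟨fun a b => by simp [mul_add], fun c a => by simp; ring⟩ 0
  obtain ⟨Ψ, hΨ'⟩ := hconv.exists_forall_hasDerivWithinAt hF
  have hΨ : ∀ w : ℂ, 0 < σ * w.im → HasDerivAt Ψ (F w) w := fun w hw =>
    (hΨ' w hw).hasDerivAt (hopen.mem_nhds hw)
  have hpt : ∀ (w : ℂ) (t : ℝ), w + t = pt (t + w.re) w.im := fun w t => by
    apply Complex.ext <;> simp [add_comm]
  have hFTC : ∀ w : ℂ, 0 < σ * w.im → ∀ b : ℝ,
      Ψ (w + b) - Ψ (w + (-1 : ℝ)) = ∫ t in (-1)..b, F (w + t) := by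
    intro w hw b
    rw [intervalIntegral.integral_eq_sub_of_hasDerivAt (f := fun t : ℝ => Ψ (w + t))]
    · intro t _
      have h1 : HasDerivAt (fun t : ℝ => w + (t : ℂ)) 1 t :=
        (Complex.ofRealCLM.hasDerivAt (x := t)).const_add w
      exact ((hΨ (w + t) (by simpa using hw)).comp_of_eq t h1 rfl).congr_deriv (mul_one _)
    · refine Continuous.intervalIntegrable ?_ _ _
      simp_rw [hpt w]
      exact (hcont _ hw).comp (continuous_id.add continuous_const)
  have hind : InL (Real.conjExponent s) ((Ioc (-1 : ℝ) 1).indicator fun _ => (1 : ℂ)) := by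
    refine Nice.inL ⟨measurable_const.indicator measurableSet_Ioc, 1, fun x => ?_, fun x hx => ?_⟩
      hc.symm.pos
    · by_cases hx : x ∈ Ioc (-1 : ℝ) 1 <;> simp [hx]
    · refine indicator_of_notMem (fun h => ?_) _
      exact absurd (abs_le.2 ⟨h.1.le, h.2⟩) (not_le.2 hx)
  set K := nrm (Real.conjExponent s) (fun x => ‖(Ioc (-1 : ℝ) 1).indicator (fun _ => (1 : ℂ)) x‖ₑ) * C
    with hK
  have hKt : K ≠ ∞ := ENNReal.mul_ne_top hind.2 hC
  have hbd : ∀ w : ℂ, 0 < σ * w.im → ∀ b ∈ Ioo (-1 : ℝ) 1,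
      ‖Ψ (w + b) - Ψ (w + (-1 : ℝ))‖ ≤ K.toReal := by
    intro w hw b hb'
    rw [hFTC w hw, intervalIntegral.integral_of_le hb'.1.le, ← toReal_enorm]
    refine ENNReal.toReal_mono hKt ((enorm_integral_le_lintegral_enorm _).trans ?_)
    have h1 := lintegral_smul_le hc hind.1 (f := fun t : ℝ => F (w + t)) (by
      simp_rw [hpt w]
      exact ((hcont _ hw).comp (continuous_id.add continuous_const)).stronglyMeasurable)
    have h2 : nrm s (fun t : ℝ => ‖F (w + t)‖ₑ) ≤ C := by
      simp_rw [hpt w]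
      rw [nrm_shift s (fun t => ‖F (pt t w.im)‖ₑ) w.re]
      exact hb _ hw
    refine le_trans ?_ (h1.trans (mul_le_mul_right h2 _))
    rw [← lintegral_indicator measurableSet_Ioc]
    refine lintegral_mono fun t => ?_
    by_cases ht : t ∈ Ioc (-1 : ℝ) b
    · rw [indicator_of_mem ht, indicator_of_mem (Ioc_subset_Ioc_right hb'.2.le ht)]
      simp
    · rw [indicator_of_notMem ht]
      exact zero_le
  have hconst : ∀ z z' : ℂ, 0 < -σ * z.im → 0 < -σ * z'.im → Cau f z = Cau f z' := by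
    intro z z' hz hz'
    have hz0 := ne_of_sign hz
    have hz0' := ne_of_sign hz'
    set D : ℝ → ℂ := fun t => Cau f (z + t) - Cau f (z' + t) with hD
    have hDc : Continuous D := by
      refine continuous_iff_continuousAt.2 fun t => ContinuousAt.sub ?_ ?_
      · exact ContinuousAt.comp (g := Cau f) (Cau_continuousAt (hL.loc hs) (by simpa using hz0))
          (by fun_prop)
      · exact ContinuousAt.comp (g := Cau f) (Cau_continuousAt (hL.loc hs) (by simpa using hz0'))
          (by fun_prop)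
    have hk : InL (Real.conjExponent s) fun x => ker z x * ker z' x :=
      (InL_ker hz0' hc.symm.lt).of_le hc.symm.pos
        ((ker_measurable z).mul (ker_measurable z')).stronglyMeasurable
        (C := ENNReal.ofReal |z.im|⁻¹) ENNReal.ofReal_ne_top fun x => by
          rw [enorm_mul, ← ofReal_norm (ker z x)]
          exact mul_le_mul_left (ENNReal.ofReal_le_ofReal (norm_ker_le hz0 x)) _
    have hDt : ∀ t, D t = (z - z') * ∫ x, ker z x * ker z' x * f (x + t) := by
      intro t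
      rw [hD]
      beta_reduce
      rw [← Cau_shift, ← Cau_shift, Cau_sub_Cau ((hL.shift t).loc hs) hz0 hz0']
      simp only [Cau, smul_eq_mul, mul_assoc]
    have hzero : ∀ b ∈ Ioo (-1 : ℝ) 1, ∫ t in (-1)..b, D t = 0 := by
      intro b hb'
      obtain ⟨C₁, hC₁, h₁⟩ := inv_bound hσ hy (a := z + y * I) (by simp; linarith)
      obtain ⟨C₂, hC₂, h₂⟩ := inv_bound hσ hy (a := z' + y * I) (by simp; linarith)
      have h3 := line_integral_zero' hσ (C := K.toReal * (C₁ * C₂)) hy
        (Φ := fun w => (w - (z + y * I))⁻¹ * (w - (z' + y * I))⁻¹ *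
          (Ψ (w + b) - Ψ (w + (-1 : ℝ)))) (fun w hw => ?_) (fun w hw => ?_)
      · have h4 : ∀ x : ℝ, (pt x y - (z + y * I))⁻¹ * (pt x y - (z' + y * I))⁻¹ *
            (Ψ (pt x y + b) - Ψ (pt x y + (-1 : ℝ))) =
            ∫ t in Ioc (-1) b, ker z x * ker z' x * f (x + t) := by
          intro x
          rw [hFTC _ hy, intervalIntegral.integral_of_le hb'.1.le, integral_const_mul]
          congr 1
          · unfold ker
            rw [pt_eq]
            congr 2 <;> ring
          · congr 1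
            ext t
            rw [hpt, hf, add_comm]
            rfl
        simp only [h4] at h3
        have hm : Measurable fun q : ℝ × ℝ => ker z q.1 * ker z' q.1 * f (q.1 + q.2) := by
          have := hL.1.measurable
          fun_prop
        rw [integral_integral_swap] at h3
        · simp only [hDt]
          rw [intervalIntegral.integral_of_le hb'.1.le, integral_const_mul, h3, mul_zero]
        · refine ⟨hm.aestronglyMeasurable, ?_⟩
          refine lt_of_le_of_lt (le_of_eq (lintegral_prod_symm _ hm.enorm.aemeasurable)) ?_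
          have h5 : ∀ t, ∫⁻ x, ‖ker z x * ker z' x * f (x + t)‖ₑ ≤
              nrm (Real.conjExponent s) (fun x => ‖ker z x * ker z' x‖ₑ) *
                nrm s (fun x => ‖f x‖ₑ) := by
            intro t
            have := lintegral_smul_le hc hk.1 (hL.shift t).1
            rwa [nrm_shift s (fun x => ‖f x‖ₑ) t] at this
          refine (lintegral_mono h5).trans_lt ?_
          rw [lintegral_const]
          exact ENNReal.mul_lt_top (ENNReal.mul_lt_top hk.2.lt_top hL.2.lt_top) (by simp)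
      · have hw' : 0 < σ * w.im := hy.trans_le hw
        refine DifferentiableAt.differentiableWithinAt ?_
        have d1 : ∀ a : ℂ, w - a ≠ 0 → DifferentiableAt ℂ (fun w => (w - a)⁻¹) w := fun a ha =>
          DifferentiableAt.fun_inv (by fun_prop) ha
        refine ((d1 _ (h₁ w hw).1).fun_mul (d1 _ (h₂ w hw).1)).fun_mul
          (DifferentiableAt.fun_sub ?_ ?_)
        · exact (hΨ _ (by simpa using hw')).differentiableAt.comp w
            (differentiableAt_id.add_const _)
        · exact (hΨ _ (by simpa using hw')).differentiableAt.comp w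
            (differentiableAt_id.add_const _)
      · rw [norm_mul, norm_mul, Real.rpow_two]
        calc _ ≤ (C₁ * ‖σ * w + I‖⁻¹) * (C₂ * ‖σ * w + I‖⁻¹) * K.toReal := by
              gcongr
              · exact (h₁ w hw).2
              · exact (h₂ w hw).2
              · exact hbd w (hy.trans_le hw) b hb'
          _ = _ := by ring
    have h6 := (hDc.integral_hasStrictDerivAt (-1) 0).hasDerivAt
    have h7 : HasDerivAt (fun u => ∫ x in (-1)..u, D x) 0 0 := by
      refine (hasDerivAt_const (0 : ℝ) (0 : ℂ)).congr_of_eventuallyEq ?_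
      filter_upwards [Ioo_mem_nhds (show (-1 : ℝ) < 0 by norm_num) one_pos] with b hb'
      exact hzero b hb'
    have h8 := h6.unique h7
    simpa [hD, sub_eq_zero] using h8
  intro z hz
  have hσ' : -σ * -σ = 1 := by simpa using hσ
  have h1 : ∀ T : ℝ, 0 < T → ‖Cau f z‖ₑ ≤ ENNReal.ofReal (T ^ (-(1 - 1 / Real.conjExponent s))) *
      (cc (Real.conjExponent s) * nrm s (fun x => ‖f x‖ₑ)) := by
    intro T hT
    have h2 := pt_pos hσ' hT 0
    rw [hconst z _ hz h2]
    refine (enorm_integral_smul_le hc (ker_measurable _).stronglyMeasurable hL.1).trans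
      (le_of_eq ?_)
    rw [nrm_ker (ne_of_sign h2) hc.symm.pos, pt_im, abs_mul, abs_sig hσ', one_mul, abs_of_pos hT,
      mul_assoc, neg_sub]
  have h3 : Tendsto (fun T : ℝ => ENNReal.ofReal (T ^ (-(1 - 1 / Real.conjExponent s))) *
      (cc (Real.conjExponent s) * nrm s (fun x => ‖f x‖ₑ))) atTop (𝓝 0) := by
    have h4 : 0 < 1 - 1 / Real.conjExponent s := by
      rw [sub_pos, div_lt_one hc.symm.pos]
      exact hc.symm.lt
    have h5 := ENNReal.tendsto_ofReal (tendsto_rpow_neg_atTop h4)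
    rw [ENNReal.ofReal_zero] at h5
    simpa using ENNReal.Tendsto.mul_const h5
      (Or.inr (ENNReal.mul_ne_top (cc_ne_top hc.symm.lt) hL.2))
  have h6 : ‖Cau f z‖ₑ ≤ 0 := ge_of_tendsto h3 (by
    filter_upwards [eventually_gt_atTop 0] with T hT using h1 T hT)
  simpa using h6

lemma tendsto_sig {σ : ℝ} : Tendsto (fun y : ℝ => σ * y) (𝓝[{y | 0 < σ * y}] 0) (𝓝[>] 0) := by
  refine tendsto_nhdsWithin_iff.2 ⟨?_, self_mem_nhdsWithin⟩
  have : Tendsto (fun y : ℝ => σ * y) (𝓝 0) (𝓝 (σ * 0)) :=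
    (continuous_const.mul continuous_id).tendsto 0
  rw [mul_zero] at this
  exact this.mono_left nhdsWithin_le_nhds

variable {p : ℝ≥0∞} [Fact (1 ≤ p)]

omit [Fact (1 ≤ p)] in
theorem mem_Hardy_iff (h1 : 1 < p) (h2 : p ≠ ∞) {σ : ℝ} (hσ : σ * σ = 1)
    (f : Lp ℂ p (volume : Measure ℝ)) : IsHardy σ p f ↔ Ann (-σ) f := by
  have h0 := ne_zero_of_one_lt h1
  have hs := one_lt_toReal h1 h2
  have hc := conj_of_one_lt hs
  have hf := InL_Lp h0 h2 f
  constructor
  · rintro ⟨F, hF, ⟨C, hC, hb⟩, hlim⟩ z hz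
    simp only [← pt_eq, eLpNorm_eq_nrm h0 h2] at hb hlim
    have hk := InL_ker (ne_of_sign hz) hc.symm.lt
    have h3 := ENNReal.Tendsto.const_mul hlim (Or.inr hk.2)
    rw [mul_zero] at h3
    have : (𝓝[{y : ℝ | 0 < σ * y}] 0).NeBot := by
      have h4 : Tendsto (fun y : ℝ => σ * y) (𝓝[>] 0) (𝓝[{y | 0 < σ * y}] 0) := by
        refine tendsto_nhdsWithin_iff.2 ⟨?_, ?_⟩
        · have : Tendsto (fun y : ℝ => σ * y) (𝓝 0) (𝓝 (σ * 0)) :=
            (continuous_const.mul continuous_id).tendsto 0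
          rw [mul_zero] at this
          exact this.mono_left nhdsWithin_le_nhds
        · filter_upwards [self_mem_nhdsWithin] with y (hy : 0 < y)
          simpa [← mul_assoc, hσ] using hy
      exact h4.neBot
    have h5 : ‖Cau f z‖ₑ ≤ 0 := by
      refine ge_of_tendsto h3 ?_
      filter_upwards [self_mem_nhdsWithin] with y hy
      obtain ⟨i₁, a₁⟩ := Ann_slice hσ hs hF hC hb hy
      have h6 := Cau_sub (i₁.loc hs) (hf.loc hs) (ne_of_sign hz)
      rw [a₁ z hz, zero_sub] at h6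
      rw [← enorm_neg, ← h6]
      exact enorm_integral_smul_le hc hk.1 (i₁.1.sub hf.1)
    simpa using h5
  · intro af
    have h3 : ∀ x y : ℝ, 0 < σ * y →
        (2 * π * I * σ : ℂ)⁻¹ • Cau f (x + y * I) = Pois (σ * y) f x := by
      intro x y hy
      have h4 : (x + y * I : ℂ) = pt x (σ * (σ * y)) := by
        rw [← mul_assoc, hσ, one_mul, pt_eq]
      rw [h4, Cau_eq_Pois hσ (hf.loc hs) af hy, smul_smul, inv_mul_cancel₀ (twoPiI_ne hσ), one_smul]
    refine ⟨fun z => (2 * π * I * σ : ℂ)⁻¹ • Cau f z, fun z hz =>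
      ((Cau_hasDerivAt (hf.loc hs) (ne_of_sign hz)).differentiableAt.fun_const_smul
        _).differentiableWithinAt, ⟨cP p.toReal * cc p.toReal * nrm p.toReal (fun x => ‖f x‖ₑ),
      ENNReal.mul_ne_top (ENNReal.mul_ne_top (cP_ne_top hs) (cc_ne_top hs)) hf.2, fun y hy => ?_⟩,
      ?_⟩
    · simp only [h3 _ y hy, eLpNorm_eq_nrm h0 h2]
      exact nrm_Pois_le hs hf.1 hy
    · refine ((tendsto_Pois hs hf).comp (tendsto_sig (σ := σ))).congr' ?_
      filter_upwards [self_mem_nhdsWithin] with y hy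
      simp only [h3 _ y hy, eLpNorm_eq_nrm h0 h2]
      rfl

end

end Pool.Agent.P.MP_a3f7df_an
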