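import Pool.Agent.P.MP_a3f7df_an.Defs2
import Pool.Agent.P.MP_a3f7df_an.F2
import Pool.Agent.P.MP_a3f7df_an.AP

/-! The main theorems. -/

open MeasureTheory Set Filter Topology Function
open scoped ENNReal BoundedContinuousFunction

namespace Pool.Agent.P.MP_a3f7df_an

noncomputable section

variable {p : ℝ≥0∞} [Fact (1 ≤ p)]

/-- The Hardy space as a subspace of Mathlib's `Lp`. -/
def Hardy0 (σ : ℝ) (p : ℝ≥0∞) [Fact (1 ≤ p)] : Submodule ℂ (Lp ℂ p (volume : Measure ℝ)) :=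
  Hardy σ p

/-- The Riesz projection as an operator on Mathlib's `Lp`. -/
def riesz0 (p : ℝ≥0∞) [Fact (1 ≤ p)] (h1 : 1 < p) (h2 : p ≠ ∞) :
    Lp ℂ p (volume : Measure ℝ) →L[ℂ] Hardy0 (-1) p :=
  rieszMinus p h1 h2

/-- The Toeplitz operator in terms of Mathlib's `Lp`. -/
def toeplitz0 {n : ℕ} (G : Fin n → Fin n → ℝ →ᵇ ℂ) (p : ℝ≥0∞) [Fact (1 ≤ p)]
    (h1 : 1 < p) (h2 : p ≠ ∞) : (Fin n → Hardy0 (-1) p) →L[ℂ] (Fin n → Hardy0 (-1) p) :=
  toeplitz G p h1 h2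

/-- Multiplication in terms of Mathlib's `Lp`. -/
def mul0 (g : ℝ →ᵇ ℂ) (f : Lp ℂ p (volume : Measure ℝ)) : Lp ℂ p (volume : Measure ℝ) :=
  mulFun g f

lemma rieszMinus_spec (h1 : 1 < p) (h2 : p ≠ ∞) (f : Lp ℂ p (volume : Measure ℝ)) :
    Ann (-1) ⇑(f - riesz0 p h1 h2 f) := by
  have h : ∀ f : LP p, f - rieszMinus p h1 h2 f ∈ Hardy 1 p := fun f => by
    rw [← Submodule.projectionOntoL_apply_eq_zero_iff (hardy_isTopCompl p h1 h2), map_sub]
    exact sub_eq_zero.2 (Submodule.projectionOntoL_apply_left _ _).symm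
  exact (mem_Hardy_iff h1 h2 (one_mul 1) _).1 (h f)

omit [Fact (1 ≤ p)] in
lemma mulOp_coe (g : ℝ →ᵇ ℂ) (f : Lp ℂ p (volume : Measure ℝ)) :
    ∀ᵐ x, mul0 g f x = g x * f x :=
  (memLp_mul g f).coeFn_toLp

omit [Fact (1 ≤ p)] in
lemma coeFn_sum {ι : Type*} (s : Finset ι) (f : ι → Lp ℂ p (volume : Measure ℝ)) :
    ∀ᵐ x, (∑ i ∈ s, f i) x = ∑ i ∈ s, f i x := by
  classical
  induction s using Finset.induction_on with
  | empty => simp
  | insert i s hi ih =>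
    simp only [Finset.sum_insert hi]
    filter_upwards [Lp.coeFn_add (f i) (∑ j ∈ s, f j), ih] with x hx hx'
    rw [hx, Pi.add_apply, hx']

/-- The Toeplitz operator as an instance of the abstract setting. -/
def setup {n : ℕ} (G : Fin n → Fin n → ℝ →ᵇ ℂ) (hG : ∀ i j, IsAP (G i j)) (p : ℝ≥0∞)
    [Fact (1 ≤ p)] (h1 : 1 < p) (h2 : p ≠ ∞) : Setup (Fin n) p where
  h1 := h1
  h2 := h2
  H := Hardy0 (-1) p
  hH := fun f => (mem_Hardy_iff h1 h2 (σ := -1) (by norm_num) f).trans (by rw [neg_neg])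
  Pr := riesz0 p h1 h2
  hP := rieszMinus_spec h1 h2
  M := fun t i j => G i j t
  good := good_of_isAP hG
  T := toeplitz0 G p h1 h2
  hT := fun f => by
    have h0 := ne_zero_of_one_lt h1
    have hs := one_lt_toReal h1 h2
    have hraw : ∀ f : Fin n → Hardy0 (-1) p, InL p.toReal (raw f) := fun f =>
      InL_of_coord hs.le fun _ => InL_Lp h0 h2 _
    refine Ann_of_coord (((((good_of_isAP hG).clm (matL (Fin n))).inL_apply (one_pos.trans hs)
      (hraw f)).sub hs.le (hraw _)).loc hs) fun i => ?_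
    set u : Lp ℂ p (volume : Measure ℝ) := ∑ j, mul0 (G i j) (f j) with hu
    have hT : toeplitz0 G p h1 h2 f i = riesz0 p h1 h2 u := rfl
    refine (rieszMinus_spec h1 h2 u).congr_ae ?_
    filter_upwards [Lp.coeFn_sub u (riesz0 p h1 h2 u),
      coeFn_sum Finset.univ fun j => mul0 (G i j) (f j : Lp ℂ p (volume : Measure ℝ)),
      ae_all_iff.2 fun j => mulOp_coe (G i j) (f j : Lp ℂ p (volume : Measure ℝ))] with x hx hx' hx''
    rw [hx, Pi.sub_apply, Pi.sub_apply, matL_apply, hu, hx']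
    simp only [hx'', raw, hT, hu]

variable {q : ℝ≥0∞} [Fact (1 ≤ q)] {n : ℕ} {G : Fin n → Fin n → ℝ →ᵇ ℂ}

theorem left_transfer (hG : ∀ i j, IsAP (G i j)) (h1 : 1 < p) (h2 : p ≠ ∞) (h3 : 1 < q)
    (h4 : q ≠ ∞) (h : LeftFredholm (toeplitz G p h1 h2)) :
    IsClosed (range (toeplitz G q h3 h4)) ∧ Injective (toeplitz G q h3 h4) :=
  left_indep (setup G hG p h1 h2) (setup G hG q h3 h4) rfl h

theorem right_transfer (hG : ∀ i j, IsAP (G i j)) (h1 : 1 < p) (h2 : p ≠ ∞) (h3 : 1 < q)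
    (h4 : q ≠ ∞) (h : RightFredholm (toeplitz G p h1 h2)) : Surjective (toeplitz G q h3 h4) :=
  right_indep (setup G hG p h1 h2) (setup G hG q h3 h4) rfl h

/-- Fredholm for one exponent implies bijective for every exponent. -/
theorem bijective_of_fredholm (hG : ∀ i j, IsAP (G i j)) (h1 : 1 < p) (h2 : p ≠ ∞) (h3 : 1 < q)
    (h4 : q ≠ ∞) (hl : LeftFredholm (toeplitz G p h1 h2))
    (hr : RightFredholm (toeplitz G p h1 h2)) : Bijective (toeplitz G q h3 h4) :=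
  ⟨(left_transfer hG h1 h2 h3 h4 hl).2, right_transfer hG h1 h2 h3 h4 hr⟩

end

end Pool.Agent.P.MP_a3f7df_an
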