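import Pool.Agent.P.MP_a3f7df_an.H

/-! First half of the theorem of M. Riesz: exponents at most two and nice functions. -/

open MeasureTheory Set Filter Topology Complex
open scoped ENNReal NNReal Real

namespace Pool.Agent.P.MP_a3f7df_an

noncomputable section

lemma InL.integrable_rpow {E : Type*} [NormedAddCommGroup E] {s : ℝ} (hs : 0 < s) {f : ℝ → E}
    (hf : InL s f) : Integrable (fun x => ‖f x‖ ^ s) := by
  refine ⟨(hf.1.norm.measurable.pow_const s).aestronglyMeasurable, ?_⟩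
  rw [hasFiniteIntegral_iff_ofReal (Eventually.of_forall fun x => by positivity)]
  refine lt_of_le_of_lt (le_of_eq ?_) ((nrm_ne_top_iff hs _).1 hf.2).lt_top
  refine lintegral_congr fun x => ?_
  rw [← ofReal_norm, ENNReal.ofReal_rpow_of_nonneg (norm_nonneg _) hs.le]

lemma pt_eq (x y : ℝ) : pt x y = x + y * I := by
  apply Complex.ext <;> simp

lemma continuous_pt (y : ℝ) : Continuous fun x => pt x y := by
  simp_rw [pt_eq]
  fun_prop

/-- A holomorphic function decaying faster than `1/|z|` has zero integral on horizontal lines. -/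
lemma line_integral_zero {Φ : ℂ → ℂ} {y p C : ℝ} (hy : 0 < y) (hp : 1 < p)
    (hd : DifferentiableOn ℂ Φ {z | y ≤ z.im})
    (hb : ∀ z : ℂ, y ≤ z.im → ‖Φ z‖ ≤ C * ‖z + I‖⁻¹ ^ p) :
    Integrable (fun x => Φ (pt x y)) ∧ ∫ x, Φ (pt x y) = 0 := by
  have hp0 : 0 < p := one_pos.trans hp
  have hC : 0 ≤ C := by
    have h1 := (norm_nonneg _).trans (hb (pt 0 y) le_rfl)
    have h2 : pt 0 y + I ≠ 0 := by
      intro h
      have := congrArg Complex.im h
      simp at this
      linarith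
    have h3 : 0 < ‖pt 0 y + I‖⁻¹ ^ p := by
      have := norm_pos_iff.2 h2
      positivity
    exact nonneg_of_mul_nonneg_left h1 h3
  have hcont : Continuous fun x => Φ (pt x y) :=
    hd.continuousOn.comp_continuous (continuous_pt y) fun _ => le_refl y
  have hint : Integrable (fun x => Φ (pt x y)) := by
    have hw : (pt 0 (-(y + 1))).im ≠ 0 := by
      simp only [pt_im]; linarith
    refine (((InL_ker hw hp).integrable_rpow hp0).const_mul C).mono' hcont.aestronglyMeasurable
      (Eventually.of_forall fun x => (hb _ le_rfl).trans (le_of_eq ?_))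
    unfold ker
    rw [norm_inv]
    congr 4
    apply Complex.ext <;> simp
  refine ⟨hint, ?_⟩
  have h1 : Tendsto (fun T : ℝ => ∫ x in (-T)..T, Φ (pt x y)) atTop (𝓝 (∫ x, Φ (pt x y))) :=
    intervalIntegral_tendsto_integral hint tendsto_neg_atTop_atBot tendsto_id
  have hb2 : ∀ T : ℝ, 0 < T → ∀ z : ℂ, y ≤ z.im → T ≤ ‖z + I‖ → ‖Φ z‖ ≤ C * T⁻¹ ^ p := by
    intro T hT z hz hTz
    refine (hb z hz).trans (mul_le_mul_of_nonneg_left ?_ hC)
    exact Real.rpow_le_rpow (by positivity) (inv_anti₀ hT hTz) hp0.le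
  have h2 : ∀ T : ℝ, 0 < T → ‖∫ x in (-T)..T, Φ (pt x y)‖ ≤ 4 * C * T ^ (-(p - 1)) := by
    intro T hT
    have key := integral_boundary_rect_eq_zero_of_differentiableOn Φ (pt (-T) y) (pt T (y + T))
      (hd.mono fun z hz => by
        have := (mem_reProdIm.1 hz).2
        simp only [pt_im] at this
        rw [uIcc_of_le (by linarith)] at this
        exact this.1)
    simp only [pt_re, pt_im, ← pt_eq] at key
    have e1 : ‖∫ x in (-T)..T, Φ (pt x (y + T))‖ ≤ C * T⁻¹ ^ p * |T - -T| := by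
      refine intervalIntegral.norm_integral_le_of_norm_le_const fun x _ => ?_
      refine hb2 T hT _ (by simp only [pt_im]; linarith) ?_
      refine le_trans ?_ (Complex.im_le_norm _)
      simp
      linarith
    have e2 : ‖∫ v in y..(y + T), Φ (pt T v)‖ ≤ C * T⁻¹ ^ p * |y + T - y| := by
      refine intervalIntegral.norm_integral_le_of_norm_le_const fun v hv => ?_
      rw [uIoc_of_le (by linarith)] at hv
      refine hb2 T hT _ hv.1.le ?_
      refine le_trans ?_ (Complex.re_le_norm _)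
      simp
    have e3 : ‖∫ v in y..(y + T), Φ (pt (-T) v)‖ ≤ C * T⁻¹ ^ p * |y + T - y| := by
      refine intervalIntegral.norm_integral_le_of_norm_le_const fun v hv => ?_
      rw [uIoc_of_le (by linarith)] at hv
      refine hb2 T hT _ hv.1.le ?_
      refine le_trans ?_ (Complex.abs_re_le_norm _)
      simp [abs_of_pos hT]
    have e4 : ∫ x in (-T)..T, Φ (pt x y) = (∫ x in (-T)..T, Φ (pt x (y + T))) -
        I • (∫ v in y..(y + T), Φ (pt T v)) + I • (∫ v in y..(y + T), Φ (pt (-T) v)) := by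
      linear_combination key
    rw [e4]
    refine (norm_add_le _ _).trans ((add_le_add (norm_sub_le _ _) le_rfl).trans ?_)
    rw [norm_smul, norm_smul, Complex.norm_I, one_mul, one_mul]
    rw [show T - -T = 2 * T by ring, abs_of_pos (by linarith)] at e1
    rw [show y + T - y = T by ring, abs_of_pos hT] at e2 e3
    have e5 : T⁻¹ ^ p * T = T ^ (-(p - 1)) := by
      rw [Real.inv_rpow hT.le, ← Real.rpow_neg hT.le, show -(p - 1) = -p + 1 by ring,
        Real.rpow_add hT, Real.rpow_one]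
    rw [mul_assoc 4 C, ← e5]
    linarith
  have h3 : Tendsto (fun T : ℝ => 4 * C * T ^ (-(p - 1))) atTop (𝓝 0) := by
    simpa using (tendsto_rpow_neg_atTop (sub_pos.2 hp)).const_mul (4 * C)
  have h4 : Tendsto (fun T : ℝ => ∫ x in (-T)..T, Φ (pt x y)) atTop (𝓝 0) := by
    rw [tendsto_zero_iff_norm_tendsto_zero]
    refine squeeze_zero' (Eventually.of_forall fun _ => norm_nonneg _) ?_ h3
    filter_upwards [eventually_gt_atTop 0] with T hT using h2 T hT
  exact tendsto_nhds_unique h1 h4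

/-- The elementary inequality behind the theorem of M. Riesz. -/
lemma riesz_ineq {p : ℝ} (hp : 1 < p) (hp2 : p ≤ 2) : ∃ α β : ℝ, 0 ≤ β ∧
    ∀ w : ℂ, 0 < w.re → ‖w‖ ^ p ≤ β * w.re ^ p - α * (w ^ (p : ℂ)).re := by
  have hπ := Real.pi_pos
  have hp0 : 0 < p := one_pos.trans hp
  set δ := π / (1 + p) with hδ
  have hδ0 : 0 < δ := by positivity
  have hδ1 : δ < π / 2 := div_lt_div_of_pos_left hπ (by norm_num) (by linarith)
  have hδp : δ * p = π - δ := by
    rw [hδ]
    field_simp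
    ring
  have hc : 0 < Real.cos δ := Real.cos_pos_of_mem_Ioo ⟨by linarith, hδ1⟩
  set α := (Real.cos δ)⁻¹ with hα
  have hα0 : 0 < α := by positivity
  refine ⟨α, α ^ p * (1 + α), by positivity, fun w hw => ?_⟩
  have hw0 : w ≠ 0 := by
    rintro rfl
    simp at hw
  have hn : 0 < ‖w‖ := norm_pos_iff.2 hw0
  have harg : |arg w| < π / 2 := abs_arg_lt_pi_div_two_iff.2 (Or.inl hw)
  have hre : w.re = ‖w‖ * Real.cos |arg w| := by
    rw [Real.cos_abs, Complex.cos_arg hw0]
    field_simp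
  have hcp : Real.cos (arg w * p) = Real.cos (|arg w| * p) := by
    rw [← Real.cos_abs (arg w * p), abs_mul, abs_of_pos hp0]
  set θ := |arg w| with hθ
  have hθ0 : 0 ≤ θ := abs_nonneg _
  have hcθ : 0 < Real.cos θ := Real.cos_pos_of_mem_Ioo ⟨by linarith, harg⟩
  have key : 1 ≤ α ^ p * (1 + α) * Real.cos θ ^ p - α * Real.cos (θ * p) := by
    rcases le_total θ δ with h | h
    · have h1 : Real.cos δ ≤ Real.cos θ :=
        Real.cos_le_cos_of_nonneg_of_le_pi hθ0 (by linarith) h
      have h2 : 1 ≤ α * Real.cos θ := by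
        rw [hα, ← div_eq_inv_mul, le_div_iff₀ hc]
        linarith
      have h3 : 1 ≤ α ^ p * Real.cos θ ^ p := by
        rw [← Real.mul_rpow hα0.le hcθ.le]
        exact Real.one_le_rpow h2 hp0.le
      have h4 := Real.cos_le_one (θ * p)
      nlinarith
    · have h1 : Real.cos (θ * p) ≤ Real.cos (δ * p) :=
        Real.cos_le_cos_of_nonneg_of_le_pi (by positivity) (by nlinarith) (by nlinarith)
      rw [hδp, Real.cos_pi_sub] at h1
      have h2 : α * Real.cos δ = 1 := by
        rw [hα]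
        field_simp
      have h3 : 0 ≤ α ^ p * (1 + α) * Real.cos θ ^ p := by positivity
      nlinarith
  rw [cpow_ofReal_re, hcp, hre, Real.mul_rpow hn.le hcθ.le]
  have h5 : 0 < ‖w‖ ^ p := by positivity
  nlinarith

/-- Bounded measurable functions with bounded support. -/
def Nice (g : ℝ → ℂ) : Prop :=
  Measurable g ∧ ∃ n : ℝ, (∀ x, ‖g x‖ ≤ n) ∧ ∀ x, n < |x| → g x = 0

lemma Nice.integrable {g : ℝ → ℂ} (hg : Nice g) : Integrable g := by
  obtain ⟨hm, n, h1, h2⟩ := hg
  have h3 : Integrable ((Icc (-n) n).indicator fun _ : ℝ => n) :=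
    (integrable_indicator_iff measurableSet_Icc).2 (integrableOn_const (by simp))
  refine h3.mono' hm.aestronglyMeasurable (Eventually.of_forall fun x => ?_)
  by_cases hx : x ∈ Icc (-n) n
  · rw [indicator_of_mem hx]
    exact h1 x
  · rw [indicator_of_notMem hx, h2 x (by rwa [mem_Icc, ← abs_le, not_le] at hx), norm_zero]

lemma Nice.inL {g : ℝ → ℂ} (hg : Nice g) {s : ℝ} (hs : 0 < s) : InL s g := by
  obtain ⟨hm, n, h1, h2⟩ := hg
  refine ⟨hm.stronglyMeasurable, (nrm_ne_top_iff hs _).2 ?_⟩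
  have h3 : ∀ x, ‖g x‖ₑ ^ s ≤ (Icc (-n) n).indicator (fun _ => ENNReal.ofReal n ^ s) x := by
    intro x
    by_cases hx : x ∈ Icc (-n) n
    · rw [indicator_of_mem hx, ← ofReal_norm]
      exact ENNReal.rpow_le_rpow (ENNReal.ofReal_le_ofReal (h1 x)) hs.le
    · rw [indicator_of_notMem hx, h2 x (by rwa [mem_Icc, ← abs_le, not_le] at hx), enorm_zero,
        ENNReal.zero_rpow_of_pos hs]
  refine ne_top_of_le_ne_top ?_ (lintegral_mono h3)
  rw [lintegral_indicator_const measurableSet_Icc]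
  exact ENNReal.mul_ne_top (ENNReal.rpow_ne_top_of_nonneg hs.le ENNReal.ofReal_ne_top) (by simp)

lemma Nice.of_le {g h : ℝ → ℂ} (hg : Nice g) (hm : Measurable h) (hle : ∀ x, ‖h x‖ ≤ ‖g x‖) :
    Nice h := by
  obtain ⟨-, n, h1, h2⟩ := hg
  refine ⟨hm, n, fun x => (hle x).trans (h1 x), fun x hx => ?_⟩
  have := hle x
  rw [h2 x hx, norm_zero] at this
  exact norm_le_zero_iff.1 this

lemma Nice.decay {g : ℝ → ℂ} (hg : Nice g) {y : ℝ} (hy : 0 < y) :
    ∃ C : ℝ, 0 ≤ C ∧ ∀ z : ℂ, y ≤ z.im → ‖Cau g z‖ ≤ C * ‖z + I‖⁻¹ := by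
  have hint := hg.integrable
  obtain ⟨hm, n, h1, h2⟩ := hg
  have hn : 0 ≤ n := (norm_nonneg _).trans (h1 0)
  refine ⟨(1 + (n + 1) / y) * ∫ t, ‖g t‖, by positivity, fun z hz => ?_⟩
  have hz0 : z.im ≠ 0 := by linarith [hy.trans_le hz]
  have hzI : 0 < ‖z + I‖ := by
    refine lt_of_lt_of_le ?_ (Complex.im_le_norm _)
    simp
    linarith
  rw [mul_right_comm, ← integral_const_mul]
  refine norm_integral_le_of_norm_le (hint.norm.const_mul _) (Eventually.of_forall fun t => ?_)
  by_cases ht : n < |t|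
  · simp [h2 t ht]
  rw [norm_smul]
  refine mul_le_mul_of_nonneg_right ?_ (norm_nonneg _)
  push Not at ht
  unfold ker
  have h3 : y ≤ ‖(t : ℂ) - z‖ := by
    have := Complex.abs_im_le_norm ((t : ℂ) - z)
    simp at this
    exact hz.trans ((le_abs_self _).trans this)
  have h4 : ‖z + I‖ ≤ ‖(t : ℂ) - z‖ + (n + 1) := by
    calc ‖z + I‖ = ‖-((t : ℂ) - z) + (t + I)‖ := by congr 1; ring
      _ ≤ ‖-((t : ℂ) - z)‖ + ‖(t : ℂ) + I‖ := norm_add_le _ _
      _ ≤ ‖(t : ℂ) - z‖ + (‖(t : ℂ)‖ + ‖I‖) := by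
          rw [norm_neg]
          exact add_le_add le_rfl (norm_add_le _ _)
      _ ≤ _ := by
          rw [Complex.norm_real, Complex.norm_I, Real.norm_eq_abs]
          linarith
  have h5 : n + 1 ≤ (n + 1) / y * ‖(t : ℂ) - z‖ := by
    rw [div_mul_eq_mul_div, le_div_iff₀ hy]
    nlinarith
  rw [norm_inv, ← div_eq_mul_inv, inv_eq_one_div, div_le_div_iff₀ (by linarith) hzI]
  nlinarith

lemma Cau_line_stronglyMeasurable {E : Type*} [NormedAddCommGroup E] [NormedSpace ℂ E]
    {f : ℝ → E} (hf : StronglyMeasurable f) (y : ℝ) :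
    StronglyMeasurable (fun x => Cau f (pt x y)) := by
  unfold Cau
  refine StronglyMeasurable.integral_prod_right (f := fun x t => ker (pt x y) t • f t) ?_
  refine StronglyMeasurable.smul ?_ (hf.comp_measurable measurable_snd)
  refine Measurable.stronglyMeasurable ?_
  unfold ker
  simp_rw [pt_eq]
  fun_prop

lemma re_ker {y : ℝ} (hy : 0 < y) (x t : ℝ) :
    ((π * I : ℂ)⁻¹ * ker (pt x y) t).re = Pk y (t - x) := by
  unfold ker Pk
  have hπ := Real.pi_pos
  have h1 := sq_pos' hy (t - x)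
  rw [← mul_inv, Complex.inv_re, Complex.normSq_apply]
  simp
  field_simp
  ring

lemma riesz_nonneg {p : ℝ} (hp : 1 < p) (hp2 : p ≤ 2) : ∃ C : ℝ≥0∞, C ≠ ∞ ∧
    ∀ y : ℝ, 0 < y → ∀ f : ℝ → ℝ, (∀ t, 0 ≤ f t) → Nice (fun t => (f t : ℂ)) →
      nrm p (fun x => ‖Cau (fun t => (f t : ℂ)) (pt x y)‖ₑ) ≤
        C * nrm p (fun t => ‖(f t : ℂ)‖ₑ) := by
  have hp0 : 0 < p := one_pos.trans hp
  have hπ := Real.pi_pos
  obtain ⟨α, β, hβ, hineq⟩ := riesz_ineq hp hp2
  refine ⟨ENNReal.ofReal π * (ENNReal.ofReal β ^ (1 / p) * (cP p * cc p)),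
    ENNReal.mul_ne_top ENNReal.ofReal_ne_top (ENNReal.mul_ne_top
      (ENNReal.rpow_ne_top_of_nonneg (by positivity) ENNReal.ofReal_ne_top)
      (ENNReal.mul_ne_top (cP_ne_top hp) (cc_ne_top hp))), fun y hy f hf0 hf => ?_⟩
  set g : ℝ → ℂ := fun t => (f t : ℂ) with hg
  have hgL := hf.inL hp0
  have hloc := hgL.loc hp
  by_cases hz : g =ᵐ[volume] fun _ => 0
  · have : ∀ x, Cau g (pt x y) = 0 := fun x => by
      rw [Cau_congr_ae hz]
      simp [Cau]
    simp [this, nrm_zero hp0]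
  set F : ℂ → ℂ := fun z => (π * I : ℂ)⁻¹ * Cau g z with hF
  have hre : ∀ x v : ℝ, 0 < v → (F (pt x v)).re = ∫ t, Pk v (t - x) * f t := by
    intro x v hv
    have h1 : F (pt x v) = ∫ t, (π * I : ℂ)⁻¹ * (ker (pt x v) t • g t) := by
      rw [integral_const_mul]
      rfl
    have h2 := (hloc.2 (pt x v) hv.ne').const_mul (π * I : ℂ)⁻¹
    rw [h1, ← RCLike.re_to_complex, ← integral_re h2]
    congr 1
    ext t
    rw [RCLike.re_to_complex, smul_eq_mul, ← mul_assoc, hg, Complex.re_mul_ofReal, re_ker hv]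
  have hPois : ∀ x v : ℝ, Pois v g x = ((∫ t, Pk v (t - x) * f t : ℝ) : ℂ) := by
    intro x v
    rw [← integral_complex_ofReal]
    unfold Pois
    congr 1
    ext t
    simp [hg]
  have hpos : ∀ z : ℂ, 0 < z.im → 0 < (F z).re := by
    intro z hz'
    have h0 : z = pt z.re z.im := rfl
    rw [h0, hre _ _ hz']
    have h1 : Integrable fun t => Pk z.im (t - z.re) * f t := by
      have := (hloc.integrable_Pk hz' z.re).re
      refine this.congr (Eventually.of_forall fun t => ?_)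
      simp [hg]
    have h2 : ∀ t, 0 ≤ Pk z.im (t - z.re) * f t := fun t =>
      mul_nonneg (Pk_pos hz' _).le (hf0 t)
    refine lt_of_le_of_ne (integral_nonneg h2) fun h => hz ?_
    have h3 := (integral_eq_zero_iff_of_nonneg h2 h1).1 h.symm
    filter_upwards [h3] with t ht
    have := (mul_eq_zero.1 ht).resolve_left (Pk_pos hz' _).ne'
    simp [hg, this]
  obtain ⟨C, hC, hdec⟩ := hf.decay hy
  have hFd : ∀ z : ℂ, 0 < z.im → DifferentiableAt ℂ F z := fun z hz' =>
    (Cau_hasDerivAt hloc hz'.ne').differentiableAt.const_mul _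
  have hΦ := line_integral_zero (Φ := fun z => F z ^ (p : ℂ)) (C := (π⁻¹ * C) ^ p) hy hp
    (fun z hz' => ((hFd z (hy.trans_le hz')).cpow_const
      (Or.inl (hpos z (hy.trans_le hz')))).differentiableWithinAt) (by
      intro z hz'
      rw [norm_cpow_real, ← Real.mul_rpow (by positivity) (by positivity)]
      refine Real.rpow_le_rpow (norm_nonneg _) ?_ hp0.le
      rw [hF]
      simp only [norm_mul, norm_inv, Complex.norm_real, Complex.norm_I, mul_one,
        Real.norm_eq_abs, abs_of_pos hπ, mul_assoc]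
      exact mul_le_mul_of_nonneg_left (hdec z hz') (by positivity))
  have ha : Integrable fun x => ‖F (pt x y)‖ ^ p := by
    simpa only [norm_cpow_real] using hΦ.1.norm
  have hFm : Measurable fun x => F (pt x y) :=
    (Cau_line_stronglyMeasurable hgL.1 y).measurable.const_mul _
  have hb : Integrable fun x => (F (pt x y)).re ^ p := by
    refine ha.mono' ((Complex.measurable_re.comp hFm).pow_const p).aestronglyMeasurable
      (Eventually.of_forall fun x => ?_)
    have h1 := (hpos (pt x y) hy).le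
    rw [Real.norm_eq_abs, abs_of_nonneg (by positivity)]
    exact Real.rpow_le_rpow h1 (Complex.re_le_norm _) hp0.le
  have hc := hΦ.1.re
  have hc0 : ∫ x, (F (pt x y) ^ (p : ℂ)).re = 0 := by
    have := integral_re hΦ.1
    rw [hΦ.2] at this
    simpa using this
  have hmain : ∫ x, ‖F (pt x y)‖ ^ p ≤ β * ∫ x, (F (pt x y)).re ^ p := by
    have h1 := integral_mono ha ((hb.const_mul β).sub (hc.const_mul α))
      (fun x => hineq _ (hpos (pt x y) hy))
    simp only [Pi.sub_apply] at h1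
    rw [integral_sub (hb.const_mul β) (hc.const_mul α), integral_const_mul,
      integral_const_mul] at h1
    simp only [RCLike.re_to_complex] at h1
    rwa [hc0, mul_zero, sub_zero] at h1
  have hmain2 : nrm p (fun x => ‖F (pt x y)‖ₑ) ≤
      ENNReal.ofReal β ^ (1 / p) * nrm p (fun x => ‖Pois y g x‖ₑ) := by
    refine nrm_le_of_rpow_le hp0 ?_
    rw [ENNReal.mul_rpow_of_nonneg _ _ hp0.le, ← ENNReal.rpow_mul, one_div_mul_cancel hp0.ne',
      ENNReal.rpow_one, nrm_rpow hp0]
    have h1 : ∫⁻ x, ‖F (pt x y)‖ₑ ^ p = ENNReal.ofReal (∫ x, ‖F (pt x y)‖ ^ p) := by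
      rw [ofReal_integral_eq_lintegral_ofReal ha (Eventually.of_forall fun x => by positivity)]
      refine lintegral_congr fun x => ?_
      rw [← ofReal_norm, ENNReal.ofReal_rpow_of_nonneg (norm_nonneg _) hp0.le]
    have h2 : ∫⁻ x, ‖Pois y g x‖ₑ ^ p = ENNReal.ofReal (∫ x, (F (pt x y)).re ^ p) := by
      rw [ofReal_integral_eq_lintegral_ofReal hb (Eventually.of_forall fun x =>
        Real.rpow_nonneg (hpos (pt x y) hy).le p)]
      refine lintegral_congr fun x => ?_
      rw [← ofReal_norm, ENNReal.ofReal_rpow_of_nonneg (norm_nonneg _) hp0.le, hPois,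
        ← hre x y hy, Complex.norm_real, Real.norm_eq_abs, abs_of_pos (hpos (pt x y) hy)]
    rw [h1, h2, ← ENNReal.ofReal_mul hβ]
    exact ENNReal.ofReal_le_ofReal hmain
  have h3 : ∀ x, ‖Cau g (pt x y)‖ₑ = ENNReal.ofReal π * ‖F (pt x y)‖ₑ := by
    intro x
    rw [← ofReal_norm, ← ofReal_norm, ← ENNReal.ofReal_mul hπ.le, hF]
    simp only [norm_mul, norm_inv, Complex.norm_real, Complex.norm_I, mul_one,
      Real.norm_eq_abs, abs_of_pos hπ]
    congr 1
    field_simp
  simp_rw [h3]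
  rw [nrm_const_mul hp0 ENNReal.ofReal_ne_top, mul_assoc, mul_assoc]
  exact mul_le_mul_right (hmain2.trans (mul_le_mul_right (nrm_Pois_le hp hgL.1 hy) _)) _

end

end Pool.Agent.P.MP_a3f7df_an
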