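import Pool.Agent.P.MP_a3f7df_an.R1

/-! The theorem of M. Riesz for all exponents, duality and the approximate identity. -/

open MeasureTheory Set Filter Topology Complex
open scoped ENNReal NNReal Real ComplexConjugate

namespace Pool.Agent.P.MP_a3f7df_an

noncomputable section

lemma Cau_conj (g : ℝ → ℂ) (x y : ℝ) :
    Cau g (pt x (-y)) = conj (Cau (fun t => conj (g t)) (pt x y)) := by
  unfold Cau
  rw [← integral_conj]
  congr 1
  ext t
  unfold ker
  simp only [smul_eq_mul, map_mul, map_inv₀, map_sub, conj_ofReal, conj_conj]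
  rfl

lemma riesz_nice {p : ℝ} (hp : 1 < p) (hp2 : p ≤ 2) : ∃ C : ℝ≥0∞, C ≠ ∞ ∧
    ∀ y : ℝ, y ≠ 0 → ∀ g : ℝ → ℂ, Nice g →
      nrm p (fun x => ‖Cau g (pt x y)‖ₑ) ≤ C * nrm p (fun t => ‖g t‖ₑ) := by
  have hp0 : 0 < p := one_pos.trans hp
  obtain ⟨C, hC, h⟩ := riesz_nonneg hp hp2
  have hreal : ∀ y : ℝ, 0 < y → ∀ g : ℝ → ℂ, Nice g → ∀ f : ℝ → ℝ, Measurable f →
      (∀ t, |f t| ≤ ‖g t‖) → nrm p (fun x => ‖Cau (fun t => (f t : ℂ)) (pt x y)‖ₑ) ≤
        2 * C * nrm p (fun t => ‖g t‖ₑ) := by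
    intro y hy g hg f hf hfg
    have h1 : ∀ f : ℝ → ℝ, Measurable f → (∀ t, |f t| ≤ ‖g t‖) →
        Nice (fun t => ((max (f t) 0 : ℝ) : ℂ)) ∧
        nrm p (fun x => ‖Cau (fun t => ((max (f t) 0 : ℝ) : ℂ)) (pt x y)‖ₑ) ≤
          C * nrm p (fun t => ‖g t‖ₑ) := by
      intro f hf hfg
      have h2 : ∀ t, ‖((max (f t) 0 : ℝ) : ℂ)‖ ≤ ‖g t‖ := by
        intro t
        rw [Complex.norm_real, Real.norm_eq_abs, abs_of_nonneg (le_max_right _ _)]
        exact max_le ((le_abs_self _).trans (hfg t)) (norm_nonneg _)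
      have h3 : Nice (fun t => ((max (f t) 0 : ℝ) : ℂ)) := hg.of_le (by fun_prop) h2
      refine ⟨h3, (h y hy _ (fun t => le_max_right _ _) h3).trans (mul_le_mul_right ?_ _)⟩
      refine nrm_mono hp0 fun t => ?_
      rw [← ofReal_norm, ← ofReal_norm]
      exact ENNReal.ofReal_le_ofReal (h2 t)
    obtain ⟨n1, b1⟩ := h1 f hf hfg
    obtain ⟨n2, b2⟩ := h1 (fun t => -f t) hf.neg (by simpa using hfg)
    have h4 : ∀ x, Cau (fun t => (f t : ℂ)) (pt x y) =
        Cau (fun t => ((max (f t) 0 : ℝ) : ℂ)) (pt x y) -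
          Cau (fun t => ((max (-f t) 0 : ℝ) : ℂ)) (pt x y) := by
      intro x
      rw [← Cau_sub ((n1.inL hp0).loc hp) ((n2.inL hp0).loc hp) hy.ne']
      congr 1
      ext t
      rw [← Complex.ofReal_sub, max_zero_sub_max_neg_zero_eq_self]
    simp_rw [h4]
    refine (nrm_enorm_sub_le hp.le (Cau_line_stronglyMeasurable (n1.inL hp0).1 y)
      (Cau_line_stronglyMeasurable (n2.inL hp0).1 y)).trans ((add_le_add b1 b2).trans (le_of_eq ?_))
    ring
  have hpos : ∀ y : ℝ, 0 < y → ∀ g : ℝ → ℂ, Nice g →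
      nrm p (fun x => ‖Cau g (pt x y)‖ₑ) ≤ 4 * C * nrm p (fun t => ‖g t‖ₑ) := by
    intro y hy g hg
    have m1 : Measurable fun t => (g t).re := Complex.measurable_re.comp hg.1
    have m2 : Measurable fun t => (g t).im := Complex.measurable_im.comp hg.1
    have b1 := hreal y hy g hg _ m1 fun t => Complex.abs_re_le_norm _
    have b2 := hreal y hy g hg _ m2 fun t => Complex.abs_im_le_norm _
    have n1 : Nice fun t => ((g t).re : ℂ) :=
      hg.of_le (by fun_prop) fun t => by simpa using Complex.abs_re_le_norm _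
    have n2 : Nice fun t => ((g t).im : ℂ) :=
      hg.of_le (by fun_prop) fun t => by simpa using Complex.abs_im_le_norm _
    have h4 : ∀ x, Cau g (pt x y) = Cau (fun t => ((g t).re : ℂ)) (pt x y) +
        I • Cau (fun t => ((g t).im : ℂ)) (pt x y) := by
      intro x
      rw [← Cau_smul, ← Cau_add ((n1.inL hp0).loc hp)
        (((n2.inL hp0).const_smul hp0 I).loc hp) hy.ne']
      congr 1
      ext t
      rw [smul_eq_mul, mul_comm, Complex.re_add_im]
    simp_rw [h4]
    refine (nrm_enorm_add_le hp.le (Cau_line_stronglyMeasurable (n1.inL hp0).1 y)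
      ((Cau_line_stronglyMeasurable (n2.inL hp0).1 y).const_smul I)).trans ?_
    have h5 : ∀ v : ℂ, ‖I • v‖ₑ = ‖v‖ₑ := fun v => by
      rw [← ofReal_norm, ← ofReal_norm, norm_smul, Complex.norm_I, one_mul]
    simp only [Pi.smul_apply, h5]
    refine (add_le_add b1 b2).trans (le_of_eq ?_)
    ring
  refine ⟨4 * C, ENNReal.mul_ne_top (by simp) hC, fun y hy g hg => ?_⟩
  rcases lt_or_gt_of_ne hy with h0 | h0
  · have h1 := hpos (-y) (neg_pos.2 h0) (fun t => conj (g t))
      (hg.of_le (Complex.continuous_conj.measurable.comp hg.1) fun t => by simp)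
    have h2 : ∀ v : ℂ, ‖conj v‖ₑ = ‖v‖ₑ := fun v => by
      rw [← ofReal_norm, ← ofReal_norm, Complex.norm_conj]
    have h3 : ∀ x, Cau g (pt x y) = conj (Cau (fun t => conj (g t)) (pt x (-y))) := by
      intro x
      rw [← Cau_conj, neg_neg]
    simpa only [h3, h2] using h1
  · exact hpos y h0 g hg

lemma ker_swap (x t y : ℝ) : ker (pt x y) t = -ker (pt t (-y)) x := by
  unfold ker
  rw [← inv_neg]
  congr 1
  apply Complex.ext <;> simp

lemma fubini_Cau {s : ℝ} (hs : 1 < s) {f g : ℝ → ℂ} (hf : InL s f) (hg : Measurable g)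
    (hgi : Integrable g) {y : ℝ} (hy : y ≠ 0) :
    ∫ x, g x * Cau f (pt x y) = -∫ t, f t * Cau g (pt t (-y)) := by
  have hc := conj_of_one_lt hs
  have hm : Measurable fun q : ℝ × ℝ => g q.1 * (ker (pt q.1 y) q.2 * f q.2) := by
    have := hf.1.measurable
    unfold ker
    simp_rw [pt_eq]
    fun_prop
  have hint : Integrable (fun q : ℝ × ℝ => g q.1 * (ker (pt q.1 y) q.2 * f q.2))
      (volume.prod volume) := by
    refine ⟨hm.aestronglyMeasurable, ?_⟩
    rw [HasFiniteIntegral, lintegral_prod _ hm.enorm.aemeasurable]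
    set K := ENNReal.ofReal (|y| ^ (1 / Real.conjExponent s - 1)) * cc (Real.conjExponent s) *
      nrm s (fun t => ‖f t‖ₑ) with hK
    have hKt : K ≠ ∞ := ENNReal.mul_ne_top
      (ENNReal.mul_ne_top ENNReal.ofReal_ne_top (cc_ne_top hc.symm.lt)) hf.2
    have h1 : ∀ x, ∫⁻ t, ‖g x * (ker (pt x y) t * f t)‖ₑ ≤ K * ‖g x‖ₑ := by
      intro x
      simp_rw [enorm_mul (g x)]
      rw [lintegral_const_mul' _ _ enorm_ne_top, mul_comm]
      refine mul_le_mul_left ?_ _
      have := lintegral_smul_le hc (ker_measurable (pt x y)).stronglyMeasurable hf.1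
      rw [nrm_ker (z := pt x y) hy hc.symm.pos] at this
      exact this
    refine (lintegral_mono h1).trans_lt ?_
    rw [lintegral_const_mul' _ _ hKt]
    exact ENNReal.mul_lt_top hKt.lt_top hgi.2
  have h2 := integral_integral_swap (f := fun x t => g x * (ker (pt x y) t * f t)) hint
  unfold Cau
  simp_rw [← integral_const_mul, smul_eq_mul]
  rw [h2, ← integral_neg]
  congr 1
  ext t
  rw [← integral_neg]
  congr 1
  ext x
  rw [ker_swap]
  ring

/-- The norm of a measurable function is determined by testing against nice functions. -/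
lemma norming {s s' : ℝ} (h : s.HolderConjugate s') {k : ℝ → ℂ} (hk : Measurable k) {C : ℝ≥0∞}
    (hb : ∀ g : ℝ → ℂ, Nice g → Integrable (fun x => g x * k x) →
      ‖∫ x, g x * k x‖ₑ ≤ C * nrm s' (fun x => ‖g x‖ₑ)) :
    nrm s (fun x => ‖k x‖ₑ) ≤ C := by
  have hs := h.pos
  have hs' := h.symm.pos
  have hs1 : 0 < s - 1 := h.sub_one_pos
  set S : ℕ → Set ℝ := fun n => {x | |x| ≤ n ∧ ‖k x‖ ≤ n} with hS
  have hSm : ∀ n, MeasurableSet (S n) := fun n =>
    (measurableSet_le measurable_id.abs measurable_const).inter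
      (measurableSet_le hk.norm measurable_const)
  have hstep : ∀ n, ∫⁻ x, (S n).indicator (fun x => ‖k x‖ₑ ^ s) x ≤ C ^ s := by
    intro n
    set g : ℝ → ℂ := (S n).indicator fun x => ((‖k x‖ ^ s : ℝ) : ℂ) * (k x)⁻¹ with hg
    have hgm : Measurable g := Measurable.indicator (by fun_prop) (hSm n)
    have hgn : ∀ x, ‖g x‖ = (S n).indicator (fun x => ‖k x‖ ^ (s - 1)) x := by
      intro x
      by_cases hx : x ∈ S n
      · rw [hg, indicator_of_mem hx, indicator_of_mem hx, norm_mul, norm_inv, Complex.norm_real,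
          Real.norm_eq_abs, abs_of_nonneg (by positivity),
          Real.rpow_sub_one' (norm_nonneg _) hs1.ne', div_eq_mul_inv]
      · rw [hg, indicator_of_notMem hx, indicator_of_notMem hx, norm_zero]
    have hgk : ∀ x, g x * k x = (((S n).indicator (fun x => ‖k x‖ ^ s) x : ℝ) : ℂ) := by
      intro x
      by_cases hx : x ∈ S n
      · rw [hg, indicator_of_mem hx, indicator_of_mem hx]
        by_cases h0 : k x = 0
        · simp [h0, hs.ne']
        · rw [mul_assoc, inv_mul_cancel₀ h0, mul_one]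
      · rw [hg, indicator_of_notMem hx, indicator_of_notMem hx]
        simp
    have hnice : Nice g := by
      refine ⟨hgm, max n ((n : ℝ) ^ (s - 1)), fun x => ?_, fun x hx => ?_⟩
      · rw [hgn]
        by_cases hx : x ∈ S n
        · rw [indicator_of_mem hx]
          exact (Real.rpow_le_rpow (norm_nonneg _) hx.2 hs1.le).trans (le_max_right _ _)
        · rw [indicator_of_notMem hx]
          positivity
      · refine indicator_of_notMem (fun hx' => ?_) _
        exact absurd ((le_max_left _ _).trans_lt hx) (not_lt.2 hx'.1)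
    have hnice2 : Nice fun x => g x * k x := by
      refine ⟨hgm.mul hk, max n ((n : ℝ) ^ s), fun x => ?_, fun x hx => ?_⟩
      · beta_reduce
        rw [hgk]
        by_cases hx : x ∈ S n
        · rw [indicator_of_mem hx, Complex.norm_real, Real.norm_eq_abs,
            abs_of_nonneg (by positivity)]
          exact (Real.rpow_le_rpow (norm_nonneg _) hx.2 hs.le).trans (le_max_right _ _)
        · rw [indicator_of_notMem hx]
          simp
      · have : g x = 0 := by
          refine indicator_of_notMem (fun hx' => ?_) _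
          exact absurd ((le_max_left _ _).trans_lt hx) (not_lt.2 hx'.1)
        beta_reduce
        rw [this, zero_mul]
    have h1 := hb g hnice hnice2.integrable
    set J := ∫⁻ x, (S n).indicator (fun x => ‖k x‖ₑ ^ s) x with hJ
    have hpt : ∀ x, ‖g x * k x‖ₑ = (S n).indicator (fun x => ‖k x‖ₑ ^ s) x := by
      intro x
      rw [hgk]
      by_cases hx : x ∈ S n
      · rw [indicator_of_mem hx, indicator_of_mem hx, ← ofReal_norm, ← ofReal_norm,
          Complex.norm_real, Real.norm_eq_abs, abs_of_nonneg (by positivity),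
          ENNReal.ofReal_rpow_of_nonneg (norm_nonneg _) hs.le]
      · rw [indicator_of_notMem hx, indicator_of_notMem hx]
        simp
    have hJt : J ≠ ∞ := by
      have := hnice2.integrable.2
      rw [HasFiniteIntegral] at this
      simp_rw [hpt] at this
      exact this.ne
    have h2 : ‖∫ x, g x * k x‖ₑ = J := by
      have h3 : ∀ x, 0 ≤ (S n).indicator (fun x => ‖k x‖ ^ s) x := fun x =>
        indicator_nonneg (fun x _ => by positivity) x
      have h4 : Integrable ((S n).indicator fun x => ‖k x‖ ^ s) := by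
        have := hnice2.integrable.re
        simp_rw [hgk] at this
        simpa using this
      rw [hJ]
      simp_rw [← hpt, hgk]
      rw [integral_complex_ofReal, ← ofReal_norm, Complex.norm_real, Real.norm_eq_abs,
        abs_of_nonneg (integral_nonneg h3),
        ofReal_integral_eq_lintegral_ofReal h4 (Eventually.of_forall h3)]
      refine lintegral_congr fun x => ?_
      rw [← ofReal_norm, Complex.norm_real, Real.norm_eq_abs, abs_of_nonneg (h3 x)]
    have h5 : nrm s' (fun x => ‖g x‖ₑ) = J ^ (1 / s') := by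
      unfold nrm
      congr 1
      refine lintegral_congr fun x => ?_
      beta_reduce
      rw [← ofReal_norm, hgn]
      by_cases hx : x ∈ S n
      · rw [indicator_of_mem hx, indicator_of_mem hx, ← ofReal_norm,
          ENNReal.ofReal_rpow_of_nonneg (by positivity) hs'.le,
          ENNReal.ofReal_rpow_of_nonneg (norm_nonneg _) hs.le, ← Real.rpow_mul (norm_nonneg _),
          h.sub_one_mul_conj]
      · rw [indicator_of_notMem hx, indicator_of_notMem hx]
        simp [hs']
    rw [h2, h5] at h1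
    by_cases hJ0 : J = 0
    · rw [hJ0]
      exact zero_le
    have h6 : J ^ (1 / s) ≤ C := by
      have h7 : J = J ^ (1 / s) * J ^ (1 / s') := by
        rw [← ENNReal.rpow_add _ _ hJ0 hJt, one_div, one_div, h.inv_add_inv_eq_one,
          ENNReal.rpow_one]
      refine (ENNReal.mul_le_mul_iff_left (c := J ^ (1 / s')) ?_ ?_).1 (h7 ▸ h1)
      · simp [hJ0, hJt]
      · exact ENNReal.rpow_ne_top_of_nonneg (by positivity) hJt
    have := ENNReal.rpow_le_rpow h6 hs.le
    rwa [← ENNReal.rpow_mul, one_div_mul_cancel hs.ne', ENNReal.rpow_one] at this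
  refine nrm_le_of_rpow_le hs ?_
  have hsup : ∀ x, ‖k x‖ₑ ^ s ≤ ⨆ n, (S n).indicator (fun x => ‖k x‖ₑ ^ s) x := by
    intro x
    obtain ⟨n, hn⟩ := exists_nat_ge (max |x| ‖k x‖)
    refine le_iSup_of_le n (le_of_eq ?_)
    rw [indicator_of_mem]
    exact ⟨(le_max_left _ _).trans hn, (le_max_right _ _).trans hn⟩
  refine (lintegral_mono hsup).trans ?_
  rw [lintegral_iSup (fun n => (hk.enorm.pow_const s).indicator (hSm n))]
  · exact iSup_le hstep
  · intro m n hmn x
    refine indicator_le_indicator_of_subset (fun x hx => ?_) (fun _ => zero_le) x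
    have : (m : ℝ) ≤ n := by exact_mod_cast hmn
    exact ⟨hx.1.trans this, hx.2.trans this⟩

lemma riesz_dual {s s' : ℝ} (h : s.HolderConjugate s') {C : ℝ≥0∞}
    (hC : ∀ y : ℝ, y ≠ 0 → ∀ g : ℝ → ℂ, Nice g →
      nrm s' (fun x => ‖Cau g (pt x y)‖ₑ) ≤ C * nrm s' (fun t => ‖g t‖ₑ))
    (y : ℝ) (hy : y ≠ 0) (f : ℝ → ℂ) (hf : InL s f) :
    nrm s (fun x => ‖Cau f (pt x y)‖ₑ) ≤ C * nrm s (fun t => ‖f t‖ₑ) := by
  refine norming h (Cau_line_stronglyMeasurable hf.1 y).measurable fun g hg _ => ?_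
  rw [fubini_Cau h.lt hf hg.1 hg.integrable hy, enorm_neg]
  have h1 := enorm_integral_smul_le h.symm hf.1
    (Cau_line_stronglyMeasurable hg.1.stronglyMeasurable (-y))
  refine h1.trans ((mul_le_mul_right (hC (-y) (neg_ne_zero.2 hy) g hg) _).trans (le_of_eq ?_))
  ring

/-- **The theorem of M. Riesz**, for Cauchy integrals on horizontal lines. -/
theorem riesz {s : ℝ} (hs : 1 < s) : ∃ C : ℝ≥0∞, C ≠ ∞ ∧
    ∀ y : ℝ, y ≠ 0 → ∀ f : ℝ → ℂ, InL s f →
      nrm s (fun x => ‖Cau f (pt x y)‖ₑ) ≤ C * nrm s (fun t => ‖f t‖ₑ) := by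
  have hc := conj_of_one_lt hs
  rcases le_total s 2 with h2 | h2
  · obtain ⟨C, hC, h⟩ := riesz_nice hs h2
    refine ⟨C, hC, riesz_dual hc fun y hy g hg => ?_⟩
    exact riesz_dual hc.symm h y hy g (hg.inL hc.symm.pos)
  · have h3 : Real.conjExponent s ≤ 2 := by
      unfold Real.conjExponent
      rw [div_le_iff₀ (by linarith)]
      linarith
    obtain ⟨C, hC, h⟩ := riesz_nice hc.symm.lt h3
    exact ⟨C, hC, riesz_dual hc h⟩

end

end Pool.Agent.P.MP_a3f7df_an
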