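import Pool.Agent.P.MP_a3f7df_an.R2

/-! Density of nice functions, the approximate identity and the Riesz inequality for the two
Hardy classes. -/

open MeasureTheory Set Filter Topology Complex
open scoped ENNReal NNReal Real ComplexConjugate

namespace Pool.Agent.P.MP_a3f7df_an

noncomputable section

lemma tendsto_nrm_zero {α : Type*} {l : Filter α} {s : ℝ} (hs : 0 < s) {φ : α → ℝ → ℝ≥0∞}
    (h : Tendsto (fun i => ∫⁻ x, φ i x ^ s) l (𝓝 0)) :
    Tendsto (fun i => nrm s (φ i)) l (𝓝 0) := by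
  have := (ENNReal.continuous_rpow_const (y := 1 / s)).continuousAt.tendsto.comp h
  rwa [ENNReal.zero_rpow_of_pos (by positivity)] at this

lemma exists_nice_approx {s : ℝ} (hs : 0 < s) {f : ℝ → ℂ} (hf : InL s f) :
    ∃ g : ℕ → ℝ → ℂ, (∀ n, Nice (g n)) ∧
      Tendsto (fun n => nrm s (fun x => ‖f x - g n x‖ₑ)) atTop (𝓝 0) := by
  have hk := hf.1.measurable
  set S : ℕ → Set ℝ := fun n => {x | |x| ≤ n ∧ ‖f x‖ ≤ n} with hS
  have hSm : ∀ n, MeasurableSet (S n) := fun n =>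
    (measurableSet_le measurable_id.abs measurable_const).inter
      (measurableSet_le hk.norm measurable_const)
  refine ⟨fun n => (S n).indicator f, fun n => ⟨hk.indicator (hSm n), n, fun x => ?_,
    fun x hx => ?_⟩, tendsto_nrm_zero hs ?_⟩
  · beta_reduce
    by_cases hx : x ∈ S n
    · rw [indicator_of_mem hx]
      exact hx.2
    · rw [indicator_of_notMem hx]
      simp
  · exact indicator_of_notMem (fun hx' => absurd hx (not_lt.2 hx'.1)) _
  · have := tendsto_lintegral_of_dominated_convergence (μ := volume)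
      (F := fun n x => ‖f x - (S n).indicator f x‖ₑ ^ s) (f := fun _ => 0)
      (fun x => ‖f x‖ₑ ^ s) (fun n => (hk.sub (hk.indicator (hSm n))).enorm.pow_const s)
      (fun n => Eventually.of_forall fun x => ?_) ((nrm_ne_top_iff hs _).1 hf.2)
      (Eventually.of_forall fun x => ?_)
    · simpa using this
    · refine ENNReal.rpow_le_rpow ?_ hs.le
      by_cases hx : x ∈ S n
      · simp [indicator_of_mem hx]
      · simp [indicator_of_notMem hx]
    · refine tendsto_const_nhds.congr' ?_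
      obtain ⟨n, hn⟩ := exists_nat_ge (max |x| ‖f x‖)
      filter_upwards [eventually_ge_atTop n] with m hm
      have h1 : (n : ℝ) ≤ m := by exact_mod_cast hm
      have hx : x ∈ S m := ⟨(le_max_left _ _).trans (hn.trans h1),
        (le_max_right _ _).trans (hn.trans h1)⟩
      simp [indicator_of_mem hx, hs]

lemma ext_nice {s : ℝ} (hs : 0 < s) {Λ : (ℝ → ℂ) → ℂ} {K : ℝ≥0∞} (hK : K ≠ ∞)
    (hb : ∀ f g, InL s f → InL s g → ‖Λ f - Λ g‖ₑ ≤ K * nrm s (fun x => ‖f x - g x‖ₑ))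
    (h0 : ∀ g, Nice g → Λ g = 0) {f : ℝ → ℂ} (hf : InL s f) : Λ f = 0 := by
  obtain ⟨g, hg, hlim⟩ := exists_nice_approx hs hf
  have h1 := ENNReal.Tendsto.const_mul hlim (Or.inr hK)
  rw [mul_zero] at h1
  have h2 : ‖Λ f‖ₑ ≤ 0 := ge_of_tendsto' h1 fun n => by
    simpa [h0 _ (hg n)] using hb f (g n) hf ((hg n).inL hs)
  simpa using h2

lemma InL.cau {s : ℝ} (hs : 1 < s) {f : ℝ → ℂ} (hf : InL s f) {y : ℝ} (hy : y ≠ 0) :
    InL s (fun x => Cau f (pt x y)) := by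
  obtain ⟨C, hC, h⟩ := riesz hs
  exact ⟨Cau_line_stronglyMeasurable hf.1 y,
    ne_top_of_le_ne_top (ENNReal.mul_ne_top hC hf.2) (h y hy f hf)⟩

lemma integrable_mul_of_InL {s s' : ℝ} (h : s.HolderConjugate s') {k f : ℝ → ℂ}
    (hk : InL s' k) (hf : InL s f) : Integrable (fun t => k t * f t) :=
  integrable_smul_of_InL h hk hf

lemma enorm_integral_mul_le {s s' : ℝ} (h : s.HolderConjugate s') {k f : ℝ → ℂ}
    (hk : StronglyMeasurable k) (hf : StronglyMeasurable f) :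
    ‖∫ t, k t * f t‖ₑ ≤ nrm s' (fun t => ‖k t‖ₑ) * nrm s (fun t => ‖f t‖ₑ) :=
  enorm_integral_smul_le h hk hf

lemma fubini_Cau' {s s' : ℝ} (h : s.HolderConjugate s') {f g : ℝ → ℂ} (hf : InL s f)
    (hg : InL s' g) {y : ℝ} (hy : y ≠ 0) :
    ∫ x, g x * Cau f (pt x y) = -∫ t, f t * Cau g (pt t (-y)) := by
  obtain ⟨C, hC, hR⟩ := riesz h.symm.lt
  have hy' := neg_ne_zero.2 hy
  have hcf := hf.cau h.lt hy
  rw [eq_neg_iff_add_eq_zero]
  refine ext_nice h.symm.pos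
    (Λ := fun g => (∫ x, g x * Cau f (pt x y)) + ∫ t, f t * Cau g (pt t (-y)))
    (K := nrm s (fun x => ‖Cau f (pt x y)‖ₑ) + nrm s (fun x => ‖f x‖ₑ) * C)
    (ENNReal.add_ne_top.2 ⟨hcf.2, ENNReal.mul_ne_top hf.2 hC⟩) (fun g₁ g₂ h₁ h₂ => ?_)
    (fun g hg => ?_) hg
  · have h3 := h₁.sub h.symm.lt.le h₂
    have e1 : (∫ x, g₁ x * Cau f (pt x y)) - ∫ x, g₂ x * Cau f (pt x y) =
        ∫ x, (g₁ x - g₂ x) • Cau f (pt x y) := by
      rw [← integral_sub (integrable_mul_of_InL h h₁ hcf) (integrable_mul_of_InL h h₂ hcf)]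
      simp [sub_mul]
    have e2 : (∫ t, f t * Cau g₁ (pt t (-y))) - ∫ t, f t * Cau g₂ (pt t (-y)) =
        ∫ t, f t • Cau (fun x => g₁ x - g₂ x) (pt t (-y)) := by
      rw [← integral_sub (integrable_mul_of_InL h.symm hf (h₁.cau h.symm.lt hy'))
        (integrable_mul_of_InL h.symm hf (h₂.cau h.symm.lt hy'))]
      congr 1
      ext t
      rw [Cau_sub (h₁.loc h.symm.lt) (h₂.loc h.symm.lt) hy', smul_eq_mul, mul_sub]
    rw [add_sub_add_comm, e1, e2, add_mul]
    refine (enorm_add_le _ _).trans (add_le_add ?_ ?_)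
    · rw [mul_comm]
      exact enorm_integral_smul_le h h3.1 hcf.1
    · rw [mul_assoc]
      exact (enorm_integral_smul_le h.symm hf.1 (h3.cau h.symm.lt hy').1).trans
        (mul_le_mul_right (hR _ hy' _ h3) _)
  · rw [fubini_Cau h.lt hf hg.1 hg.integrable hy, neg_add_cancel]

lemma Ann_Cau {ε : ℝ} (hε : ε * ε = 1) {s : ℝ} (hs : 1 < s) {f : ℝ → ℂ} (hf : InL s f) {y : ℝ}
    (hy : 0 < y) : Ann (-ε) (fun x => Cau f (pt x (ε * y))) := by
  intro z hz
  have hc := conj_of_one_lt hs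
  have := fubini_Cau' hc hf (InL_ker (ne_of_sign hz) hc.symm.lt)
    (mul_ne_zero (eps_ne hε) hy.ne')
  refine this.trans ?_
  have h1 : ∀ t, Cau (ker z) (pt t (-(ε * y))) = 0 := fun t =>
    Ann_ker hz _ (by simpa using pt_neg hε hy t)
  simp [h1]

lemma Ann.pois_scalar {ε : ℝ} (hε : ε * ε = 1) {s : ℝ} (hs : 1 < s) {f : ℝ → ℂ} (hf : InL s f)
    (af : Ann ε f) {y : ℝ} (hy : 0 < y) : Ann ε (Pois y f) := by
  have hε' : -ε * -ε = 1 := by simpa using hε
  have h1 := (Ann_Cau hε' hs hf hy).const_smul (2 * π * I * (-ε : ℝ) : ℂ)⁻¹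
  rw [neg_neg] at h1
  refine h1.congr_ae (Eventually.of_forall fun x => ?_)
  beta_reduce
  rw [Cau_eq_Pois hε' (hf.loc hs) (by rwa [neg_neg]) hy, smul_smul,
    inv_mul_cancel₀ (twoPiI_ne hε'), one_smul]

variable {E : Type*} [NormedAddCommGroup E]

lemma InL.memLp {p : ℝ≥0∞} (h0 : p ≠ 0) (h1 : p ≠ ∞) {f : ℝ → E} (hf : InL p.toReal f) :
    MemLp f p volume :=
  ⟨hf.1.aestronglyMeasurable, by rw [eLpNorm_eq_nrm h0 h1]; exact hf.2.lt_top⟩

lemma InL_Lp {p : ℝ≥0∞} (h0 : p ≠ 0) (h1 : p ≠ ∞) (f : Lp E p (volume : Measure ℝ)) :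
    InL p.toReal f :=
  ⟨Lp.stronglyMeasurable f, by rw [← eLpNorm_eq_nrm h0 h1]; exact Lp.eLpNorm_ne_top f⟩

lemma enorm_Lp {p : ℝ≥0∞} (h0 : p ≠ 0) (h1 : p ≠ ∞) (f : Lp E p (volume : Measure ℝ)) :
    ‖f‖ₑ = nrm p.toReal (fun x => ‖f x‖ₑ) := by
  rw [Lp.enorm_def, eLpNorm_eq_nrm h0 h1]

lemma tendsto_nrm_shift {s : ℝ} (hs : 1 < s) {f : ℝ → E} (hf : InL s f) :
    Tendsto (fun τ => nrm s (fun x => ‖f (x + τ) - f x‖ₑ)) (𝓝 0) (𝓝 0) := by
  have hs0 : 0 < s := one_pos.trans hs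
  set p := ENNReal.ofReal s with hp
  have hps : p.toReal = s := ENNReal.toReal_ofReal hs0.le
  have h0 : p ≠ 0 := by simpa [hp] using hs0
  have h1 : p ≠ ∞ := ENNReal.ofReal_ne_top
  have : Fact (1 ≤ p) := ⟨by simpa [hp] using hs.le⟩
  have hm : MemLp f p volume := InL.memLp h0 h1 (hps.symm ▸ hf)
  let g : C(ℝ, C(ℝ, ℝ)) := ContinuousMap.curry ⟨fun q : ℝ × ℝ => q.2 + q.1, by fun_prop⟩
  have hg : ∀ τ, MeasurePreserving (g τ) volume volume := fun τ =>
    measurePreserving_add_right volume τ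
  have hc : Continuous fun τ => Lp.compMeasurePreserving (g τ) (hg τ) (hm.toLp f) :=
    continuous_const.compMeasurePreservingLp g.continuous hg h1
  have h2 := (hc.edist (continuous_const (y := hm.toLp f))).tendsto 0
  have h3 : ∀ τ, edist (Lp.compMeasurePreserving (g τ) (hg τ) (hm.toLp f)) (hm.toLp f) =
      nrm s (fun x => ‖f (x + τ) - f x‖ₑ) := by
    intro τ
    rw [Lp.toLp_compMeasurePreserving, Lp.edist_toLp_toLp, eLpNorm_eq_nrm h0 h1, hps]
    rfl
  simp only [h3] at h2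
  simpa [nrm_zero hs0] using h2

variable [NormedSpace ℂ E] [CompleteSpace E]

lemma Pois_const {y : ℝ} (hy : 0 < y) (v : E) (x : ℝ) : Pois y (fun _ => v) x = v := by
  unfold Pois
  rw [integral_smul_const, integral_complex_ofReal, integral_sub_right_eq_self (Pk y) x,
    integral_Pk hy]
  simp

lemma tendsto_Pois {s : ℝ} (hs : 1 < s) {f : ℝ → E} (hf : InL s f) :
    Tendsto (fun y => nrm s (fun x => ‖Pois y f x - f x‖ₑ)) (𝓝[>] 0) (𝓝 0) := by
  have hs0 : 0 < s := one_pos.trans hs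
  set D : ℝ → ℝ≥0∞ := fun τ => ∫⁻ x, ‖f (x + τ) - f x‖ₑ ^ s with hD
  have hm : Measurable fun q : ℝ × ℝ => ‖f (q.2 + q.1) - f q.2‖ₑ ^ s :=
    ((hf.1.comp_measurable (measurable_snd.add measurable_fst)).sub
      (hf.1.comp_measurable measurable_snd)).enorm.pow_const s
  have hDm : Measurable D := hm.lintegral_prod_right'
  have hD0 : Tendsto D (𝓝 0) (𝓝 0) := by
    have := (ENNReal.continuous_rpow_const (y := s)).continuousAt.tendsto.comp
      (tendsto_nrm_shift hs hf)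
    rw [ENNReal.zero_rpow_of_pos hs0] at this
    exact this.congr fun τ => nrm_rpow hs0 _
  set M := (2 * nrm s (fun x => ‖f x‖ₑ)) ^ s with hM
  have hMt : M ≠ ∞ := ENNReal.rpow_ne_top_of_nonneg hs0.le (ENNReal.mul_ne_top (by simp) hf.2)
  have hDb : ∀ τ, D τ ≤ M := by
    intro τ
    rw [hD, hM]
    beta_reduce
    rw [← nrm_rpow hs0]
    refine ENNReal.rpow_le_rpow ((nrm_enorm_sub_le hs.le (hf.shift τ).1 hf.1).trans ?_) hs0.le
    rw [nrm_shift s (fun x => ‖f x‖ₑ) τ, two_mul]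
  have hlim : Tendsto (fun y => ∫⁻ τ, U 1 s τ ^ s * D (y * τ)) (𝓝[>] 0) (𝓝 0) := by
    have := tendsto_lintegral_filter_of_dominated_convergence (μ := volume) (l := 𝓝[>] (0 : ℝ))
      (F := fun y τ => U 1 s τ ^ s * D (y * τ)) (f := fun _ => 0) (fun τ => U 1 s τ ^ s * M)
      (Eventually.of_forall fun y => by fun_prop)
      (Eventually.of_forall fun y => Eventually.of_forall fun τ => mul_le_mul_right (hDb _) _)
      ?_ (Eventually.of_forall fun τ => ?_)
    · simpa using this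
    · rw [lintegral_mul_const _ (by fun_prop)]
      exact ENNReal.mul_ne_top ((nrm_ne_top_iff hs0 _).1 (cc_ne_top hs)) hMt
    · have h1 : Tendsto (fun y : ℝ => y * τ) (𝓝[>] 0) (𝓝 0) := by
        have : Tendsto (fun y : ℝ => y * τ) (𝓝 0) (𝓝 (0 * τ)) :=
          (continuous_id.mul continuous_const).tendsto 0
        rw [zero_mul] at this
        exact this.mono_left nhdsWithin_le_nhds
      have := ENNReal.Tendsto.const_mul (a := U 1 s τ ^ s) (hD0.comp h1)
        (Or.inr (ENNReal.rpow_ne_top_of_nonneg hs0.le (U_ne_top _ _ _)))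
      simpa using this
  have hcP : cP s ^ s ≠ ∞ := ENNReal.rpow_ne_top_of_nonneg hs0.le (cP_ne_top hs)
  have hlim2 := ENNReal.Tendsto.const_mul hlim (Or.inr hcP)
  rw [mul_zero] at hlim2
  refine tendsto_nrm_zero hs0 (tendsto_of_tendsto_of_tendsto_of_le_of_le' tendsto_const_nhds hlim2
    (Eventually.of_forall fun _ => zero_le) ?_)
  filter_upwards [self_mem_nhdsWithin] with y (hy : 0 < y)
  have h1 : ∀ x, ‖Pois y f x - f x‖ₑ ^ s ≤
      cP s ^ s * ∫⁻ τ, U y s τ ^ s * ‖f (x + τ) - f x‖ₑ ^ s := by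
    intro x
    have h2 : Pois y f x - f x = Pois y (fun t => f t - f x) x := by
      have h3 : Integrable fun t => ((Pk y (t - x) : ℝ) : ℂ) • f x :=
        ((integrable_of_integral_eq_one (integral_Pk hy)).comp_sub_right x).ofReal.smul_const _
      nth_rw 1 [← Pois_const hy (f x) x]
      unfold Pois
      rw [← integral_sub ((hf.loc hs).integrable_Pk hy x) h3]
      simp_rw [smul_sub]
    rw [h2]
    refine (ENNReal.rpow_le_rpow (enorm_Pois_le hs (hf.1.sub stronglyMeasurable_const) hy x)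
      hs0.le).trans (le_of_eq ?_)
    rw [ENNReal.mul_rpow_of_nonneg _ _ hs0.le, A, nrm_rpow hs0,
      ← lintegral_add_left_eq_self _ x]
    simp_rw [ENNReal.mul_rpow_of_nonneg _ _ hs0.le, add_sub_cancel_left]
    rfl
  refine (lintegral_mono h1).trans (le_of_eq ?_)
  rw [lintegral_const_mul' _ _ hcP, lintegral_lintegral_swap]
  · congr 1
    rw [lintegral_scale hy, ← lintegral_const_mul' _ _ ENNReal.ofReal_ne_top]
    refine lintegral_congr fun τ => ?_
    rw [lintegral_const_mul' _ _ (ENNReal.rpow_ne_top_of_nonneg hs0.le (U_ne_top _ _ _)),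
      ← mul_assoc, U_scale_rpow hy hs0]
  · exact ((((U_measurable y s).comp measurable_snd).pow_const s).mul
      (hm.comp measurable_swap)).aemeasurable

lemma le_of_Pois {s : ℝ} (hs : 1 < s) {f : ℝ → E} (hf : InL s f) {M : ℝ≥0∞}
    (h : ∀ y, 0 < y → nrm s (fun x => ‖Pois y f x‖ₑ) ≤ M) : nrm s (fun x => ‖f x‖ₑ) ≤ M := by
  have h1 := (tendsto_const_nhds (x := M)).add (tendsto_Pois hs hf)
  rw [add_zero] at h1
  refine ge_of_tendsto h1 ?_
  filter_upwards [self_mem_nhdsWithin] with y (hy : 0 < y)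
  have h2 := nrm_enorm_sub_le hs.le (Pois_stronglyMeasurable hf.1 y)
    ((Pois_stronglyMeasurable hf.1 y).sub hf.1)
  simp only [Pi.sub_apply, sub_sub_cancel] at h2
  exact h2.trans (add_le_add (h y hy) le_rfl)

lemma one_le_twoPiI {ε : ℝ} (hε : ε * ε = 1) : 1 ≤ ‖(2 * π * I * ε : ℂ)‖ₑ := by
  have h1 : |ε| = 1 := by
    have : |ε| * |ε| = 1 := by rw [← abs_mul, hε, abs_one]
    nlinarith [abs_nonneg ε]
  rw [← ofReal_norm, ENNReal.one_le_ofReal]
  simp only [norm_mul, Complex.norm_real, Complex.norm_I, Real.norm_eq_abs, h1,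
    abs_of_pos Real.pi_pos, Complex.norm_ofNat]
  linarith [Real.pi_gt_three]

/-- The two Hardy classes are at a positive angle (scalar case). -/
lemma RI_scalar {s : ℝ} (hs : 1 < s) : ∃ C : ℝ≥0∞, C ≠ ∞ ∧ ∀ ε : ℝ, ε * ε = 1 →
    ∀ k₁ k₂ : ℝ → ℂ, InL s k₁ → InL s k₂ → Ann ε k₁ → Ann (-ε) k₂ →
      nrm s (fun x => ‖k₂ x‖ₑ) ≤ C * nrm s (fun x => ‖k₁ x + k₂ x‖ₑ) := by
  obtain ⟨C, hC, hR⟩ := riesz hs
  refine ⟨C, hC, fun ε hε k₁ k₂ h₁ h₂ a₁ a₂ => le_of_Pois hs h₂ fun y hy => ?_⟩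
  have hy' := mul_ne_zero (eps_ne hε) hy.ne'
  refine le_trans (nrm_mono (one_pos.trans hs) fun x => ?_) (hR _ hy' _ (h₁.add hs.le h₂))
  rw [Cau_add (h₁.loc hs) (h₂.loc hs) hy', a₁ _ (pt_pos hε hy x), zero_add,
    Cau_eq_Pois hε (h₂.loc hs) a₂ hy, enorm_smul]
  exact le_mul_of_one_le_left' (one_le_twoPiI hε)

/-- Orthogonality of the Hardy classes with conjugate exponents. -/
lemma orth {ε : ℝ} (hε : ε * ε = 1) {s s' : ℝ} (h : s.HolderConjugate s') {f k : ℝ → ℂ}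
    (hf : InL s f) (hk : InL s' k) (af : Ann ε f) (ak : Ann ε k) : ∫ x, k x * f x = 0 := by
  have hε' : -ε * -ε = 1 := by simpa using hε
  have h1 : ∀ y, 0 < y → ∫ x, k x • Pois y f x = 0 := by
    intro y hy
    have h2 := fubini_Cau' h hf hk (mul_ne_zero (eps_ne hε') hy.ne')
    have h3 : ∀ t, Cau k (pt t (-(-ε * y))) = 0 := fun t =>
      ak _ (by simpa using pt_pos hε hy t)
    simp only [h3, mul_zero, integral_zero, neg_zero,
      Cau_eq_Pois hε' (hf.loc h.lt) (by rwa [neg_neg]) hy, smul_eq_mul, mul_left_comm (k _),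
      integral_const_mul] at h2
    exact (mul_eq_zero.1 h2).resolve_left (twoPiI_ne hε')
  have h4 := ENNReal.Tendsto.const_mul (tendsto_Pois h.lt hf) (Or.inr hk.2)
  rw [mul_zero] at h4
  have h5 : ‖∫ x, k x * f x‖ₑ ≤ 0 := by
    refine ge_of_tendsto h4 ?_
    filter_upwards [self_mem_nhdsWithin] with y (hy : 0 < y)
    have h6 := enorm_integral_smul_le h hk.1 ((Pois_stronglyMeasurable hf.1 y).sub hf.1)
    simp only [Pi.sub_apply, smul_sub] at h6
    rwa [integral_sub (integrable_smul_of_InL h hk (hf.pois h.lt hy))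
      (integrable_smul_of_InL h hk hf), h1 y hy, zero_sub, enorm_neg] at h6
  simpa using h5

end

end Pool.Agent.P.MP_a3f7df_an
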