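import Pool.Agent.P.MP_a3f7df_an.W

/-! The concrete weights attached to the Cauchy and Poisson kernels. -/

open MeasureTheory Set Filter Topology
open scoped ENNReal NNReal Real

namespace Pool.Agent.P.MP_a3f7df_an

noncomputable section

def u (R t : ℝ) : ℝ := R / √(t ^ 2 + R ^ 2)

def U (R s t : ℝ) : ℝ≥0∞ := ENNReal.ofReal (R ^ (-(1 / s)) * u R t)

def cc (s : ℝ) : ℝ≥0∞ := nrm s (U 1 s)

def Pk (R t : ℝ) : ℝ := R / (π * (t ^ 2 + R ^ 2))

lemma sq_pos' {R : ℝ} (hR : 0 < R) (t : ℝ) : 0 < t ^ 2 + R ^ 2 := by positivity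

lemma sqrt_pos' {R : ℝ} (hR : 0 < R) (t : ℝ) : 0 < √(t ^ 2 + R ^ 2) :=
  Real.sqrt_pos.2 (sq_pos' hR t)

lemma u_pos {R : ℝ} (hR : 0 < R) (t : ℝ) : 0 < u R t := div_pos hR (sqrt_pos' hR t)

lemma u_le_one {R : ℝ} (hR : 0 < R) (t : ℝ) : u R t ≤ 1 := by
  unfold u
  rw [div_le_one (sqrt_pos' hR t)]
  exact Real.le_sqrt_of_sq_le (by nlinarith [sq_nonneg t])

lemma u_sq {R : ℝ} (hR : 0 < R) (t : ℝ) : u R t * u R t = R ^ 2 / (t ^ 2 + R ^ 2) := by
  unfold u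
  rw [div_mul_div_comm, Real.mul_self_sqrt (sq_pos' hR t).le, sq R]

lemma Pk_pos {R : ℝ} (hR : 0 < R) (t : ℝ) : 0 < Pk R t := by
  unfold Pk
  have := Real.pi_pos
  positivity

@[fun_prop]
lemma u_measurable (R : ℝ) : Measurable (u R) := by
  unfold u
  fun_prop

@[fun_prop]
lemma U_measurable (R s : ℝ) : Measurable (U R s) := by
  unfold U
  fun_prop

@[fun_prop]
lemma Pk_measurable (R : ℝ) : Measurable (Pk R) := by
  unfold Pk
  fun_prop

lemma lintegral_scale {R : ℝ} (hR : 0 < R) (φ : ℝ → ℝ≥0∞) :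
    ∫⁻ t, φ t = ENNReal.ofReal R * ∫⁻ τ, φ (R * τ) := by
  have h := lintegral_map_equiv (μ := volume) φ (MeasurableEquiv.mulLeft₀ R hR.ne')
  have h2 : Measure.map (MeasurableEquiv.mulLeft₀ R hR.ne') volume
      = ENNReal.ofReal |R⁻¹| • (volume : Measure ℝ) := Real.map_volume_mul_left hR.ne'
  rw [h2, lintegral_smul_measure, abs_of_pos (inv_pos.2 hR)] at h
  simp only [MeasurableEquiv.coe_mulLeft₀] at h
  rw [← h, smul_eq_mul, ← mul_assoc, ← ENNReal.ofReal_mul hR.le, mul_inv_cancel₀ hR.ne',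
    ENNReal.ofReal_one, one_mul]

lemma u_scale {R : ℝ} (hR : 0 < R) (τ : ℝ) : u R (R * τ) = u 1 τ := by
  unfold u
  rw [show (R * τ) ^ 2 + R ^ 2 = R ^ 2 * (τ ^ 2 + 1 ^ 2) by ring,
    Real.sqrt_mul (sq_nonneg R), Real.sqrt_sq hR.le]
  have := sqrt_pos' one_pos τ
  field_simp

lemma U_scale_rpow {R s : ℝ} (hR : 0 < R) (hs : 0 < s) (τ : ℝ) :
    ENNReal.ofReal R * U R s (R * τ) ^ s = U 1 s τ ^ s := by
  unfold U
  rw [u_scale hR, Real.one_rpow, one_mul, ENNReal.ofReal_mul (by positivity),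
    ENNReal.mul_rpow_of_nonneg _ _ hs.le, ← mul_assoc,
    ENNReal.ofReal_rpow_of_pos (by positivity), ← Real.rpow_mul hR.le,
    show -(1 / s) * s = -1 by field_simp, Real.rpow_neg_one, ← ENNReal.ofReal_mul hR.le,
    mul_inv_cancel₀ hR.ne', ENNReal.ofReal_one, one_mul]

lemma nrm_U {R s : ℝ} (hR : 0 < R) (hs : 0 < s) : nrm s (U R s) = cc s := by
  unfold cc nrm
  congr 1
  rw [lintegral_scale hR, ← lintegral_const_mul' _ _ ENNReal.ofReal_ne_top]
  simp_rw [U_scale_rpow hR hs]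

lemma cc_ne_top {s : ℝ} (hs : 1 < s) : cc s ≠ ∞ := by
  have hs0 : 0 < s := one_pos.trans hs
  unfold cc
  rw [nrm_ne_top_iff hs0]
  have h := integrable_rpow_neg_one_add_norm_sq (E := ℝ) (μ := volume) (r := s) (by simpa using hs)
  have h2 := h.2
  rw [hasFiniteIntegral_iff_ofReal (Eventually.of_forall fun x => by positivity)] at h2
  refine ne_of_lt (lt_of_le_of_lt (le_of_eq ?_) h2)
  refine lintegral_congr fun x => ?_
  unfold U u
  rw [Real.one_rpow, one_mul, ENNReal.ofReal_rpow_of_pos (div_pos one_pos (sqrt_pos' one_pos x))]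
  congr 1
  rw [Real.sqrt_eq_rpow, one_div, ← Real.rpow_neg (by positivity), ← Real.rpow_mul (by positivity),
    Real.norm_eq_abs, sq_abs, one_pow, add_comm]
  congr 1
  ring

lemma U_ne_zero {R : ℝ} (hR : 0 < R) (s t : ℝ) : U R s t ≠ 0 := by
  unfold U
  have := u_pos hR t
  simp only [ne_eq, ENNReal.ofReal_eq_zero, not_le]
  positivity

lemma U_ne_top (R s t : ℝ) : U R s t ≠ ∞ := ENNReal.ofReal_ne_top

lemma cc_ne_zero {s : ℝ} (hs : 0 < s) : cc s ≠ 0 := by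
  intro h
  have := ae_eq_zero_of_nrm hs (U_measurable 1 s).aemeasurable h
  obtain ⟨x, hx⟩ := this.exists
  exact U_ne_zero one_pos s x hx

lemma Pk_eq {R s s' : ℝ} (hR : 0 < R) (h : s.HolderConjugate s') (t : ℝ) :
    ENNReal.ofReal (Pk R t) = ENNReal.ofReal π⁻¹ * (U R s' t * U R s t) := by
  unfold U
  have hu := u_pos hR t
  have hπ := Real.pi_pos
  rw [← ENNReal.ofReal_mul (by positivity), ← ENNReal.ofReal_mul (by positivity)]
  congr 1
  have h1 : R ^ (-(1 / s')) * R ^ (-(1 / s)) = R⁻¹ := by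
    rw [← Real.rpow_add hR, ← Real.rpow_neg_one]
    congr 1
    have := h.inv_add_inv_eq_one
    simp only [one_div]
    linarith
  calc Pk R t = π⁻¹ * (R⁻¹ * (u R t * u R t)) := by
        rw [u_sq hR]
        unfold Pk
        have := sq_pos' hR t
        field_simp
    _ = _ := by rw [← h1]; ring

/-- The Poisson average is controlled by the local norm. -/
lemma W5 {R s s' : ℝ} (hR : 0 < R) (h : s.HolderConjugate s') {φ : ℝ → ℝ≥0∞}
    (hφ : Measurable φ) (x : ℝ) :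
    ∫⁻ t, ENNReal.ofReal (Pk R (t - x)) * φ t ≤
      (ENNReal.ofReal π⁻¹ * cc s') * A (U R s) s φ x := by
  simp_rw [Pk_eq hR h, mul_assoc]
  rw [lintegral_const_mul' _ _ ENNReal.ofReal_ne_top]
  refine mul_le_mul_right ?_ _
  have := holder h.symm (φ := fun t => U R s' (t - x)) (ψ := fun t => U R s (t - x) * φ t)
    (by fun_prop) (by fun_prop)
  rw [nrm_shift_sub, nrm_U hR h.symm.pos] at this
  exact this

lemma u_shift {R h : ℝ} (hR : 0 < R) (hh : |h| ≤ R) (t : ℝ) : u R (t + h) ≤ 2 * u R t := by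
  unfold u
  rw [← mul_div_assoc, div_le_div_iff₀ (sqrt_pos' hR _) (sqrt_pos' hR _)]
  have h1 : √(t ^ 2 + R ^ 2) ≤ 2 * √((t + h) ^ 2 + R ^ 2) := by
    rw [Real.sqrt_le_left (by positivity), mul_pow, Real.sq_sqrt (by positivity)]
    have : h ^ 2 ≤ R ^ 2 := by
      rw [← sq_abs h]
      exact pow_le_pow_left₀ (abs_nonneg h) hh 2
    nlinarith [sq_nonneg (t + 2 * h), sq_nonneg (t + h)]
  nlinarith

lemma U_shift {R h : ℝ} (hR : 0 < R) (hh : |h| ≤ R) (s t : ℝ) : U R s (t + h) ≤ 2 * U R s t := by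
  unfold U
  rw [← ENNReal.ofReal_ofNat, ← ENNReal.ofReal_mul (by norm_num)]
  refine ENNReal.ofReal_le_ofReal ?_
  have := u_shift hR hh t
  have h2 : 0 < R ^ (-(1 / s)) := by positivity
  nlinarith

lemma A_U_shift {R s : ℝ} (hR : 0 < R) (hs : 0 < s) (φ : ℝ → ℝ≥0∞) {a b : ℝ}
    (hab : |a - b| ≤ R) : A (U R s) s φ a ≤ 2 * A (U R s) s φ b := by
  unfold A
  rw [← nrm_const_mul hs (by simp)]
  refine nrm_mono hs fun x => ?_
  rw [← mul_assoc]
  refine mul_le_mul_left ?_ _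
  have := U_shift hR (h := b - a) (by rwa [abs_sub_comm]) s (x - b)
  rwa [show x - b + (b - a) = x - a by ring] at this

lemma U_compare {ρ R : ℝ} (hρ : 0 < ρ) (hR : 0 < R) (s d : ℝ) :
    ∃ K : ℝ≥0∞, K ≠ ∞ ∧ ∀ t, U ρ s t ≤ K * U R s (t + d) := by
  set k : ℝ := ρ ^ (-(1 / s)) * (R ^ (-(1 / s)))⁻¹ * ((ρ + |d| + R) / R) with hk
  refine ⟨ENNReal.ofReal k, ENNReal.ofReal_ne_top, fun t => ?_⟩
  unfold U
  rw [← ENNReal.ofReal_mul (by positivity)]
  refine ENNReal.ofReal_le_ofReal ?_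
  have h1 : u ρ t ≤ ((ρ + |d| + R) / R) * u R (t + d) := by
    unfold u
    have hs1 := sqrt_pos' hρ t
    have hs2 := sqrt_pos' hR (t + d)
    rw [show (ρ + |d| + R) / R * (R / √((t + d) ^ 2 + R ^ 2))
      = (ρ + |d| + R) / √((t + d) ^ 2 + R ^ 2) by field_simp, div_le_div_iff₀ hs1 hs2]
    have h2 : √((t + d) ^ 2 + R ^ 2) ≤ |t| + |d| + R := by
      rw [Real.sqrt_le_left (by positivity)]
      have h3 : |t + d| ≤ |t| + |d| := abs_add_le t d
      have h4 : (t + d) ^ 2 ≤ (|t| + |d|) ^ 2 := by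
        rw [← sq_abs (t + d)]
        exact pow_le_pow_left₀ (abs_nonneg _) h3 2
      nlinarith [abs_nonneg t, abs_nonneg d]
    have h5 : |t| ≤ √(t ^ 2 + ρ ^ 2) := Real.le_sqrt_of_sq_le (by rw [sq_abs]; nlinarith)
    have h6 : ρ ≤ √(t ^ 2 + ρ ^ 2) := Real.le_sqrt_of_sq_le (by nlinarith [sq_nonneg t])
    have h7 : 0 ≤ |d| + R := by positivity
    nlinarith [mul_le_mul_of_nonneg_left h6 h7, mul_le_mul_of_nonneg_left h5 hρ.le,
      mul_le_mul_of_nonneg_left h2 hρ.le]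
  have h3 : 0 < R ^ (-(1 / s)) := by positivity
  have h4 : 0 < ρ ^ (-(1 / s)) := by positivity
  calc ρ ^ (-(1 / s)) * u ρ t ≤ ρ ^ (-(1 / s)) * (((ρ + |d| + R) / R) * u R (t + d)) :=
        mul_le_mul_of_nonneg_left h1 h4.le
    _ = _ := by
        rw [hk]
        field_simp

lemma A_compare {ρ R s : ℝ} (hρ : 0 < ρ) (hR : 0 < R) (hs : 0 < s) (d : ℝ) :
    ∃ K : ℝ≥0∞, K ≠ ∞ ∧ ∀ (φ : ℝ → ℝ≥0∞) (a : ℝ),
      A (U ρ s) s φ a ≤ K * A (U R s) s φ (a - d) := by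
  obtain ⟨K, hK, h⟩ := U_compare hρ hR s d
  refine ⟨K, hK, fun φ a => ?_⟩
  unfold A
  rw [← nrm_const_mul hs hK]
  refine nrm_mono hs fun x => ?_
  rw [← mul_assoc]
  refine mul_le_mul_left ?_ _
  have := h (x - a)
  rwa [show x - a + d = x - (a - d) by ring] at this

/-- Finiteness of a mixed norm gives finiteness of every local norm. -/
lemma A_ne_top_of_nrm {R r q : ℝ} (hR : 0 < R) (hr : 0 < r) (hq : 0 < q) {φ : ℝ → ℝ≥0∞}
    (hφ : Measurable φ) (h : nrm q (A (U R r) r φ) ≠ ∞) (a : ℝ) : A (U R r) r φ a ≠ ∞ := by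
  obtain ⟨b, hb⟩ := (ae_lt_top_of_nrm hq (A_measurable (U_measurable R r) hφ r).aemeasurable h).exists
  obtain ⟨K, hK, h2⟩ := A_compare hR hR hr (a - b)
  have := h2 φ a
  rw [show a - (a - b) = b by ring] at this
  exact ne_top_of_le_ne_top (ENNReal.mul_ne_top hK hb) this

lemma A_le_of_nrm {R s : ℝ} (hR : 0 < R) (hs : 0 < s) (φ : ℝ → ℝ≥0∞) (a : ℝ) :
    A (U R s) s φ a ≤ ENNReal.ofReal (R ^ (-(1 / s))) * nrm s φ := by
  unfold A
  rw [← nrm_const_mul hs ENNReal.ofReal_ne_top]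
  refine nrm_mono hs fun x => mul_le_mul_left ?_ _
  unfold U
  refine ENNReal.ofReal_le_ofReal ?_
  have := u_le_one hR (x - a)
  have h2 : 0 < R ^ (-(1 / s)) := by positivity
  nlinarith

lemma Pk_shift {R h : ℝ} (hR : 0 < R) (hh : |h| ≤ R) (t : ℝ) :
    |Pk R (t + h) - Pk R t| ≤ 2 * (|h| / R) * Pk R t := by
  have hπ := Real.pi_pos
  have h1 := sq_pos' hR t
  have h2 := sq_pos' hR (t + h)
  have h3 : Pk R (t + h) - Pk R t = - (Pk R t * (h * (2 * t + h) / ((t + h) ^ 2 + R ^ 2))) := by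
    unfold Pk
    field_simp
    ring
  rw [h3, abs_neg, abs_mul, abs_of_pos (Pk_pos hR t), mul_comm]
  refine mul_le_mul_of_nonneg_right ?_ (Pk_pos hR t).le
  rw [abs_div, abs_of_pos h2, abs_mul, ← mul_div_assoc, div_le_div_iff₀ h2 hR]
  have h4 : |2 * t + h| ≤ 2 * |t + h| + R := by
    have : 2 * t + h = 2 * (t + h) + -h := by ring
    rw [this]
    refine (abs_add_le _ _).trans ?_
    rw [abs_mul, abs_neg, abs_two]
    linarith
  have h5 : |2 * t + h| * R ≤ 2 * ((t + h) ^ 2 + R ^ 2) := by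
    rw [← sq_abs (t + h)]
    nlinarith [sq_nonneg (|t + h| - R), abs_nonneg (t + h), sq_nonneg (|t + h|)]
  nlinarith [abs_nonneg h]

/-- A mixed norm of a local norm is controlled by the plain norm. -/
lemma W4 {ρ R q r : ℝ} (hρ : 0 < ρ) (hR : 0 < R) (hq : 1 < q) (hqr : q ≤ r) :
    ∃ C : ℝ≥0∞, C ≠ ∞ ∧ ∀ φ : ℝ → ℝ≥0∞, Measurable φ →
      nrm q (A (U R r) r (A (U ρ q) q φ)) ≤ C * nrm q φ := by
  have hq0 : 0 < q := one_pos.trans hq
  have hr : 0 < r := hq0.trans_le hqr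
  obtain ⟨C, hC, h⟩ := slow (lt_min hρ hR) hq0 hqr (2 * 2) (ENNReal.mul_ne_top (by simp) (by simp))
  set k : ℝ≥0∞ := ENNReal.ofReal (R ^ (-(1 / r)) * (R ^ (-(1 / q)))⁻¹) with hk
  have hU : ∀ t, U R r t = k * U R q t := by
    intro t
    unfold U
    have h3 : 0 < R ^ (-(1 / q)) := by positivity
    rw [hk, ← ENNReal.ofReal_mul (by positivity)]
    congr 1
    field_simp
  refine ⟨C * k * cc q * cc q, ENNReal.mul_ne_top (ENNReal.mul_ne_top
    (ENNReal.mul_ne_top hC ENNReal.ofReal_ne_top) (cc_ne_top hq)) (cc_ne_top hq), fun φ hφ => ?_⟩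
  have hF : Measurable (A (U ρ q) q φ) := A_measurable (U_measurable ρ q) hφ q
  have h1 : ∀ a, A (U R r) r (A (U ρ q) q φ) a ≤ (C * k) * A (U R q) q (A (U ρ q) q φ) a := by
    intro a
    have h2 := h (fun x => U R r (x - a) * A (U ρ q) q φ x) (by fun_prop) (by
      intro x y hxy
      have h3 := U_shift hR (h := x - y) (hxy.trans (min_le_right _ _)) r (y - a)
      rw [show y - a + (x - y) = x - a by ring] at h3
      have h4 := A_U_shift hρ hq0 φ (hxy.trans (min_le_left _ _))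
      calc _ ≤ (2 * U R r (y - a)) * (2 * A (U ρ q) q φ y) := mul_le_mul' h3 h4
        _ = _ := by ring)
    refine h2.trans (le_of_eq ?_)
    simp_rw [hU, mul_assoc]
    rw [nrm_const_mul hq0 ENNReal.ofReal_ne_top]
    rfl
  refine (nrm_mono hq0 h1).trans (le_of_eq ?_)
  rw [nrm_const_mul hq0 (ENNReal.mul_ne_top hC ENNReal.ofReal_ne_top),
    nrm_A (U_measurable R q) hF hq0, nrm_A (U_measurable ρ q) hφ hq0, nrm_U hR hq0, nrm_U hρ hq0]
  ring

/-- Small scale weights against a modulus of continuity. -/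
lemma W6 {s δ : ℝ} (hs : 1 < s) (hδ : 0 < δ) {η : ℝ≥0∞} (hη : η ≠ 0) :
    ∃ σ₀ : ℝ, 0 < σ₀ ∧ ∀ σ, 0 < σ → σ ≤ σ₀ → ∀ t, δ < |t| → U σ s t ≤ η * U 1 s t := by
  obtain ⟨e, he, -, he2⟩ := exists_small (C := ENNReal.ofReal (1 + 1 / δ))
    ENNReal.ofReal_ne_top hη
  have h0 : 0 < 1 - 1 / s := by
    rw [sub_pos, div_lt_one (one_pos.trans hs)]; exact hs
  refine ⟨e ^ (1 / (1 - 1 / s)), by positivity, fun σ hσ hσ0 t ht => ?_⟩
  have h1 : σ ^ (1 - 1 / s) ≤ e := by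
    calc σ ^ (1 - 1 / s) ≤ (e ^ (1 / (1 - 1 / s))) ^ (1 - 1 / s) :=
          Real.rpow_le_rpow hσ.le hσ0 h0.le
      _ = e := by
          rw [← Real.rpow_mul he.le, one_div_mul_cancel h0.ne', Real.rpow_one]
  refine le_trans ?_ (mul_le_mul_left he2 _)
  unfold U
  rw [← ENNReal.ofReal_mul (by positivity), ← ENNReal.ofReal_mul (by positivity), Real.one_rpow,
    one_mul]
  refine ENNReal.ofReal_le_ofReal ?_
  have ht0 : 0 < |t| := hδ.trans ht
  have h2 : u σ t ≤ σ / |t| := by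
    unfold u
    refine div_le_div_of_nonneg_left hσ.le ht0 ?_
    exact Real.le_sqrt_of_sq_le (by rw [sq_abs]; nlinarith)
  have h3 : 1 / |t| ≤ (1 + 1 / δ) * u 1 t := by
    unfold u
    have hs1 := sqrt_pos' one_pos t
    rw [← mul_div_assoc, mul_one, div_le_div_iff₀ ht0 hs1, one_mul]
    have h4 : √(t ^ 2 + 1 ^ 2) ≤ |t| + 1 := by
      rw [Real.sqrt_le_left (by positivity), ← sq_abs t]
      nlinarith
    have h5 : 1 ≤ 1 / δ * |t| := by
      rw [one_div, ← div_eq_inv_mul, le_div_iff₀ hδ]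
      linarith
    rw [add_mul, one_mul]
    exact h4.trans (add_le_add le_rfl h5)
  have h6 : σ ^ (-(1 / s)) * σ = σ ^ (1 - 1 / s) := by
    rw [sub_eq_add_neg, Real.rpow_add hσ, Real.rpow_one, mul_comm]
  have h7 : 0 < σ ^ (-(1 / s)) := by positivity
  calc σ ^ (-(1 / s)) * u σ t ≤ σ ^ (-(1 / s)) * (σ / |t|) := mul_le_mul_of_nonneg_left h2 h7.le
    _ = σ ^ (1 - 1 / s) * (1 / |t|) := by rw [← h6]; ring
    _ ≤ e * ((1 + 1 / δ) * u 1 t) := mul_le_mul h1 h3 (by positivity) he.le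
    _ = _ := by ring

end

end Pool.Agent.P.MP_a3f7df_an
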