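import Mathlib

/-! Weighted local norms of extended nonnegative functions on the line. -/

open MeasureTheory Set Filter Topology
open scoped ENNReal NNReal

namespace Pool.Agent.P.MP_a3f7df_an

noncomputable section

/-- The `L^s` norm of an extended nonnegative function. -/
def nrm (s : ℝ) (φ : ℝ → ℝ≥0∞) : ℝ≥0∞ := (∫⁻ x, φ x ^ s) ^ (1 / s)

lemma nrm_mono_ae {s : ℝ} (hs : 0 < s) {φ ψ : ℝ → ℝ≥0∞} (h : ∀ᵐ x, φ x ≤ ψ x) :
    nrm s φ ≤ nrm s ψ := by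
  unfold nrm
  refine ENNReal.rpow_le_rpow (lintegral_mono_ae ?_) (by positivity)
  filter_upwards [h] with x hx using ENNReal.rpow_le_rpow hx hs.le

lemma nrm_mono {s : ℝ} (hs : 0 < s) {φ ψ : ℝ → ℝ≥0∞} (h : ∀ x, φ x ≤ ψ x) :
    nrm s φ ≤ nrm s ψ := nrm_mono_ae hs (Eventually.of_forall h)

lemma nrm_congr_ae {s : ℝ} {φ ψ : ℝ → ℝ≥0∞} (h : ∀ᵐ x, φ x = ψ x) :
    nrm s φ = nrm s ψ := by
  unfold nrm
  congr 1
  refine lintegral_congr_ae ?_
  filter_upwards [h] with x hx using by rw [hx]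

lemma nrm_add_le {s : ℝ} (hs : 1 ≤ s) {φ ψ : ℝ → ℝ≥0∞} (hφ : AEMeasurable φ)
    (hψ : AEMeasurable ψ) : nrm s (fun x => φ x + ψ x) ≤ nrm s φ + nrm s ψ :=
  ENNReal.lintegral_Lp_add_le hφ hψ hs

lemma nrm_const_mul {s : ℝ} (hs : 0 < s) {c : ℝ≥0∞} (hc : c ≠ ∞) (φ : ℝ → ℝ≥0∞) :
    nrm s (fun x => c * φ x) = c * nrm s φ := by
  unfold nrm
  simp_rw [ENNReal.mul_rpow_of_nonneg _ _ hs.le]
  rw [lintegral_const_mul' _ _ (ENNReal.rpow_ne_top_of_nonneg hs.le hc),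
    ENNReal.mul_rpow_of_nonneg _ _ (by positivity), ← ENNReal.rpow_mul,
    mul_one_div_cancel hs.ne', ENNReal.rpow_one]

lemma nrm_mul_const {s : ℝ} (hs : 0 < s) {c : ℝ≥0∞} (hc : c ≠ ∞) (φ : ℝ → ℝ≥0∞) :
    nrm s (fun x => φ x * c) = nrm s φ * c := by
  simp_rw [mul_comm _ c]
  exact nrm_const_mul hs hc φ

lemma nrm_shift (s : ℝ) (φ : ℝ → ℝ≥0∞) (a : ℝ) : nrm s (fun x => φ (x + a)) = nrm s φ := by
  unfold nrm
  rw [lintegral_add_right_eq_self (fun x => φ x ^ s) a]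

lemma nrm_shift_sub (s : ℝ) (φ : ℝ → ℝ≥0∞) (a : ℝ) : nrm s (fun x => φ (x - a)) = nrm s φ := by
  simpa [sub_eq_add_neg] using nrm_shift s φ (-a)

lemma nrm_zero {s : ℝ} (hs : 0 < s) : nrm s (fun _ => 0) = 0 := by
  unfold nrm
  simp [ENNReal.zero_rpow_of_pos hs, hs]

lemma holder {s t : ℝ} (hst : s.HolderConjugate t) {φ ψ : ℝ → ℝ≥0∞} (hφ : AEMeasurable φ)
    (hψ : AEMeasurable ψ) : ∫⁻ x, φ x * ψ x ≤ nrm s φ * nrm t ψ :=
  ENNReal.lintegral_mul_le_Lp_mul_Lq _ hst hφ hψ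

lemma nrm_rpow {s : ℝ} (hs : 0 < s) (φ : ℝ → ℝ≥0∞) : nrm s φ ^ s = ∫⁻ x, φ x ^ s := by
  unfold nrm
  rw [← ENNReal.rpow_mul, one_div_mul_cancel hs.ne', ENNReal.rpow_one]

lemma nrm_ne_top_iff {s : ℝ} (hs : 0 < s) (φ : ℝ → ℝ≥0∞) :
    nrm s φ ≠ ∞ ↔ ∫⁻ x, φ x ^ s ≠ ∞ := by
  constructor
  · intro h
    rw [← nrm_rpow hs]
    exact ENNReal.rpow_ne_top_of_nonneg hs.le h
  · intro h
    exact ENNReal.rpow_ne_top_of_nonneg (by positivity) h

lemma ae_lt_top_of_nrm {s : ℝ} (hs : 0 < s) {φ : ℝ → ℝ≥0∞} (hφ : AEMeasurable φ)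
    (h : nrm s φ ≠ ∞) : ∀ᵐ x, φ x ≠ ∞ := by
  have := ae_lt_top' (hφ.pow_const s) ((nrm_ne_top_iff hs φ).1 h)
  filter_upwards [this] with x hx
  intro h0
  rw [h0, ENNReal.top_rpow_of_pos hs] at hx
  exact lt_irrefl _ hx

lemma ae_eq_zero_of_nrm {s : ℝ} (hs : 0 < s) {φ : ℝ → ℝ≥0∞} (hφ : AEMeasurable φ)
    (h : nrm s φ = 0) : ∀ᵐ x, φ x = 0 := by
  have h1 : ∫⁻ x, φ x ^ s = 0 := by
    rw [← nrm_rpow hs, h, ENNReal.zero_rpow_of_pos hs]
  have := (lintegral_eq_zero_iff' (hφ.pow_const s)).1 h1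
  filter_upwards [this] with x hx
  simpa [ENNReal.rpow_eq_zero_iff, hs, hs.not_gt] using hx

lemma le_nrm_of_rpow_le {s : ℝ} (hs : 0 < s) {a : ℝ≥0∞} {φ : ℝ → ℝ≥0∞}
    (h : a ^ s ≤ ∫⁻ x, φ x ^ s) : a ≤ nrm s φ := by
  rw [← nrm_rpow hs] at h
  exact (ENNReal.rpow_le_rpow_iff hs).1 h

lemma nrm_le_of_rpow_le {s : ℝ} (hs : 0 < s) {a : ℝ≥0∞} {φ : ℝ → ℝ≥0∞}
    (h : ∫⁻ x, φ x ^ s ≤ a ^ s) : nrm s φ ≤ a := by
  rw [← nrm_rpow hs] at h
  exact (ENNReal.rpow_le_rpow_iff hs).1 h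

lemma nrm_sum_le {ι : Type*} {s : ℝ} (hs : 1 ≤ s) (S : Finset ι) {φ : ι → ℝ → ℝ≥0∞}
    (hφ : ∀ i, AEMeasurable (φ i)) :
    nrm s (fun x => ∑ i ∈ S, φ i x) ≤ ∑ i ∈ S, nrm s (φ i) := by
  classical
  induction S using Finset.induction_on with
  | empty => simp [nrm_zero (lt_of_lt_of_le one_pos hs)]
  | insert i S hi ih =>
    simp_rw [Finset.sum_insert hi]
    refine (nrm_add_le hs (hφ i) ?_).trans (add_le_add le_rfl ih)
    exact Finset.aemeasurable_fun_sum S fun j _ => hφ j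

lemma eLpNorm_eq_nrm {E : Type*} [NormedAddCommGroup E] {p : ℝ≥0∞} (h0 : p ≠ 0) (h1 : p ≠ ∞)
    (f : ℝ → E) : eLpNorm f p volume = nrm p.toReal (fun x => ‖f x‖ₑ) :=
  eLpNorm_eq_lintegral_rpow_enorm_toReal h0 h1

/-- The local norm with weight `w` centred at `a`. -/
def A (w : ℝ → ℝ≥0∞) (s : ℝ) (φ : ℝ → ℝ≥0∞) (a : ℝ) : ℝ≥0∞ :=
  nrm s (fun x => w (x - a) * φ x)

lemma A_measurable {w φ : ℝ → ℝ≥0∞} (hw : Measurable w) (hφ : Measurable φ) (s : ℝ) :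
    Measurable (A w s φ) := by
  unfold A nrm
  refine Measurable.pow_const ?_ _
  refine Measurable.lintegral_prod_right (f := fun a x => (w (x - a) * φ x) ^ s) ?_
  exact ((hw.comp (measurable_snd.sub measurable_fst)).mul (hφ.comp measurable_snd)).pow_const _

lemma A_mono {w : ℝ → ℝ≥0∞} {s : ℝ} (hs : 0 < s) {φ ψ : ℝ → ℝ≥0∞} (h : ∀ x, φ x ≤ ψ x)
    (a : ℝ) : A w s φ a ≤ A w s ψ a :=
  nrm_mono hs fun x => mul_le_mul_right (h x) _

lemma A_add_le {w : ℝ → ℝ≥0∞} (hw : Measurable w) {s : ℝ} (hs : 1 ≤ s) {φ ψ : ℝ → ℝ≥0∞}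
    (hφ : Measurable φ) (hψ : Measurable ψ) (a : ℝ) :
    A w s (fun x => φ x + ψ x) a ≤ A w s φ a + A w s ψ a := by
  unfold A
  simp_rw [mul_add]
  have := hw.comp (measurable_id.sub_const a)
  exact nrm_add_le hs (this.mul hφ).aemeasurable (this.mul hψ).aemeasurable

lemma A_const_mul {w : ℝ → ℝ≥0∞} {s : ℝ} (hs : 0 < s) {c : ℝ≥0∞} (hc : c ≠ ∞)
    (φ : ℝ → ℝ≥0∞) (a : ℝ) : A w s (fun x => c * φ x) a = c * A w s φ a := by
  unfold A
  rw [← nrm_const_mul hs hc]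
  congr 1
  ext x
  ring

lemma A_const {w : ℝ → ℝ≥0∞} {s : ℝ} (hs : 0 < s) {c : ℝ≥0∞} (hc : c ≠ ∞) (a : ℝ) :
    A w s (fun _ => c) a = nrm s w * c := by
  unfold A
  rw [nrm_mul_const hs hc, nrm_shift_sub]

lemma A_shift (w : ℝ → ℝ≥0∞) (s : ℝ) (φ : ℝ → ℝ≥0∞) (a τ : ℝ) :
    A w s (fun x => φ (x + τ)) a = A w s φ (a + τ) := by
  unfold A
  rw [← nrm_shift s (fun x => w (x - (a + τ)) * φ x) τ]
  congr 1
  ext x
  congr 2
  ring

/-- Tonelli: the global norm of the local norm. -/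
lemma nrm_A {w φ : ℝ → ℝ≥0∞} (hw : Measurable w) (hφ : Measurable φ) {s : ℝ} (hs : 0 < s) :
    nrm s (A w s φ) = nrm s w * nrm s φ := by
  have h1 : ∫⁻ a, A w s φ a ^ s = (∫⁻ x, w x ^ s) * ∫⁻ x, φ x ^ s := by
    unfold A
    simp_rw [nrm_rpow hs]
    rw [lintegral_lintegral_swap]
    · simp_rw [ENNReal.mul_rpow_of_nonneg _ _ hs.le]
      have h2 : ∀ x : ℝ, ∫⁻ a, w (x - a) ^ s * φ x ^ s = (∫⁻ x, w x ^ s) * φ x ^ s := by
        intro x
        have hm : Measurable fun a => w (x - a) ^ s :=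
          (hw.comp (measurable_const.sub measurable_id)).pow_const s
        rw [lintegral_mul_const _ hm, lintegral_sub_left_eq_self (fun y => w y ^ s) x]
      simp_rw [h2]
      rw [lintegral_const_mul _ (hφ.pow_const s)]
    · exact (((hw.comp (measurable_snd.sub measurable_fst)).mul
        (hφ.comp measurable_snd)).pow_const _).aemeasurable
  rw [nrm, h1, ENNReal.mul_rpow_of_nonneg _ _ (by positivity)]
  rfl

/-- Jensen's inequality for the finite weight `w ^ r`. -/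
lemma jensen {w φ : ℝ → ℝ≥0∞} (hw : Measurable w) (hφ : Measurable φ) {r q : ℝ} (hr : 0 < r)
    (hrq : r ≤ q) :
    nrm r (fun x => w x * φ x) ≤
      nrm q (fun x => w x ^ (r / q) * φ x) * (∫⁻ x, w x ^ r) ^ (1 / r - 1 / q) := by
  have hq : 0 < q := hr.trans_le hrq
  have h1 : 0 ≤ 1 - r / q := by
    rw [sub_nonneg, div_le_one hq]; exact hrq
  have h2 : 0 ≤ 1 / r - 1 / q := by
    rw [sub_nonneg]; exact one_div_le_one_div_of_le hr hrq
  have key := ENNReal.lintegral_mul_norm_pow_le (μ := volume)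
    (f := fun x => (w x ^ (r / q) * φ x) ^ q) (g := fun x => w x ^ r)
    (((hw.pow_const _).mul hφ).pow_const _).aemeasurable (hw.pow_const _).aemeasurable
    (p := r / q) (q := 1 - r / q) (by positivity) h1 (by ring)
  have h3 : ∀ x, ((w x ^ (r / q) * φ x) ^ q) ^ (r / q) * (w x ^ r) ^ (1 - r / q) =
      (w x * φ x) ^ r := by
    intro x
    rw [← ENNReal.rpow_mul, show q * (r / q) = r by field_simp,
      ENNReal.mul_rpow_of_nonneg _ _ hr.le, ENNReal.mul_rpow_of_nonneg _ _ hr.le,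
      ← ENNReal.rpow_mul, ← ENNReal.rpow_mul, mul_right_comm,
      ← ENNReal.rpow_add_of_nonneg _ _ (by positivity) (by positivity)]
    congr 2
    ring
  simp_rw [h3] at key
  refine nrm_le_of_rpow_le hr (key.trans (le_of_eq ?_))
  rw [ENNReal.mul_rpow_of_nonneg _ _ hr.le, nrm, ← ENNReal.rpow_mul, ← ENNReal.rpow_mul]
  congr 2
  · field_simp
  · field_simp

/-- Upward comparison of a mixed norm with the plain norm. -/
lemma W2 {w : ℝ → ℝ≥0∞} (hw : Measurable w) {r q : ℝ} (hr : 0 < r) (hrq : r ≤ q)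
    (hfin : nrm r w ≠ ∞) : ∃ C : ℝ≥0∞, C ≠ ∞ ∧ ∀ φ : ℝ → ℝ≥0∞, Measurable φ →
      nrm q (A w r φ) ≤ C * nrm q φ := by
  have hq : 0 < q := hr.trans_le hrq
  have h2 : 0 ≤ 1 / r - 1 / q := by
    rw [sub_nonneg]; exact one_div_le_one_div_of_le hr hrq
  have hm : ∫⁻ x, w x ^ r ≠ ∞ := (nrm_ne_top_iff hr w).1 hfin
  set m := (∫⁻ x, w x ^ r) ^ (1 / r - 1 / q) with hmdef
  have hm' : m ≠ ∞ := ENNReal.rpow_ne_top_of_nonneg h2 hm
  have hw' : Measurable fun x => w x ^ (r / q) := hw.pow_const _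
  have hn : nrm q (fun x => w x ^ (r / q)) ≠ ∞ := by
    rw [nrm_ne_top_iff hq]
    simp_rw [← ENNReal.rpow_mul, show r / q * q = r by field_simp]
    exact hm
  refine ⟨m * nrm q (fun x => w x ^ (r / q)), ENNReal.mul_ne_top hm' hn, fun φ hφ => ?_⟩
  have h1 : ∀ a, A w r φ a ≤ m * A (fun x => w x ^ (r / q)) q φ a := by
    intro a
    have := jensen (w := fun x => w (x - a)) (hw.comp (measurable_id.sub_const a)) hφ hr hrq
    rw [lintegral_sub_right_eq_self (fun x => w x ^ r) a] at this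
    rw [mul_comm]
    exact this
  refine (nrm_mono hq h1).trans (le_of_eq ?_)
  rw [nrm_const_mul hq hm', nrm_A hw' hφ hq, mul_assoc]

/-- Downward comparison of the plain norm with a mixed norm. -/
lemma W3 {w : ℝ → ℝ≥0∞} (hw : Measurable w) {r q : ℝ} (hq : 0 < q) (hqr : q ≤ r)
    (hfin : nrm r w ≠ ∞) (hpos : nrm r w ≠ 0) :
    ∃ C : ℝ≥0∞, C ≠ ∞ ∧ ∀ φ : ℝ → ℝ≥0∞, Measurable φ →
      nrm q φ ≤ C * nrm q (A w r φ) := by
  have hr : 0 < r := hq.trans_le hqr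
  have h2 : 0 ≤ 1 / q - 1 / r := by
    rw [sub_nonneg]; exact one_div_le_one_div_of_le hq hqr
  have hm : ∫⁻ x, w x ^ r ≠ ∞ := (nrm_ne_top_iff hr w).1 hfin
  have hm0 : ∫⁻ x, w x ^ r ≠ 0 := by
    intro h
    apply hpos
    rw [nrm, h, ENNReal.zero_rpow_of_pos (by positivity)]
  set m := (∫⁻ x, w x ^ r) ^ (1 / q - 1 / r) with hmdef
  have hm' : m ≠ ∞ := ENNReal.rpow_ne_top_of_nonneg h2 hm
  have hw' : Measurable fun x => w x ^ (r / q) := hw.pow_const _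
  have hn : nrm q (fun x => w x ^ (r / q)) ≠ 0 := by
    rw [nrm]
    simp_rw [← ENNReal.rpow_mul, show r / q * q = r by field_simp]
    intro h
    rw [ENNReal.rpow_eq_zero_iff] at h
    rcases h with h | h
    · exact hm0 h.1
    · exact hm h.1
  have hn' : nrm q (fun x => w x ^ (r / q)) ≠ ∞ := by
    rw [nrm_ne_top_iff hq]
    simp_rw [← ENNReal.rpow_mul, show r / q * q = r by field_simp]
    exact hm
  refine ⟨(nrm q (fun x => w x ^ (r / q)))⁻¹ * m,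
    ENNReal.mul_ne_top (ENNReal.inv_ne_top.2 hn) hm', fun φ hφ => ?_⟩
  have h1 : ∀ a, A (fun x => w x ^ (r / q)) q φ a ≤ m * A w r φ a := by
    intro a
    have := jensen (w := fun x => w (x - a) ^ (r / q))
      (hw'.comp (measurable_id.sub_const a)) hφ hq hqr
    simp_rw [← ENNReal.rpow_mul, show r / q * q = r by field_simp,
      show r / q * (q / r) = 1 by field_simp, ENNReal.rpow_one] at this
    rw [lintegral_sub_right_eq_self (fun x => w x ^ r) a] at this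
    rw [mul_comm]
    exact this
  have h3 := nrm_mono hq h1
  rw [nrm_const_mul hq hm', nrm_A hw' hφ hq] at h3
  rw [mul_assoc]
  calc nrm q φ = (nrm q (fun x => w x ^ (r / q)))⁻¹ * (nrm q (fun x => w x ^ (r / q)) * nrm q φ) := by
        rw [← mul_assoc, ENNReal.inv_mul_cancel hn hn', one_mul]
    _ ≤ _ := mul_le_mul_right h3 _

/-- Slowly varying functions: higher norms are controlled by lower norms. -/
lemma slow {ρ q r : ℝ} (hρ : 0 < ρ) (hq : 0 < q) (hqr : q ≤ r) (K : ℝ≥0∞) (hK : K ≠ ∞) :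
    ∃ C : ℝ≥0∞, C ≠ ∞ ∧ ∀ Φ : ℝ → ℝ≥0∞, Measurable Φ →
      (∀ x y, |x - y| ≤ ρ → Φ x ≤ K * Φ y) → nrm r Φ ≤ C * nrm q Φ := by
  have hr : 0 < r := hq.trans_le hqr
  set D : ℝ≥0∞ := K * (ENNReal.ofReal ρ)⁻¹ ^ (1 / q) with hD
  have hρ' : ENNReal.ofReal ρ ≠ 0 := by simpa using hρ
  have hDt : D ≠ ∞ := ENNReal.mul_ne_top hK
    (ENNReal.rpow_ne_top_of_nonneg (by positivity) (ENNReal.inv_ne_top.2 hρ'))
  have h1 : 0 ≤ 1 - q / r := by
    rw [sub_nonneg, div_le_one hr]; exact hqr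
  refine ⟨D ^ (1 - q / r), ENNReal.rpow_ne_top_of_nonneg h1 hDt, fun Φ hΦ hs => ?_⟩
  have hsup : ∀ x, Φ x ≤ D * nrm q Φ := by
    intro x
    have h2 : Φ x ^ q * ENNReal.ofReal ρ ≤ K ^ q * ∫⁻ y, Φ y ^ q := by
      calc Φ x ^ q * ENNReal.ofReal ρ = ∫⁻ _ in Icc x (x + ρ), Φ x ^ q := by
            simp
        _ ≤ ∫⁻ y in Icc x (x + ρ), K ^ q * Φ y ^ q := by
            refine setLIntegral_mono' measurableSet_Icc fun y hy => ?_
            rw [← ENNReal.mul_rpow_of_nonneg _ _ hq.le]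
            refine ENNReal.rpow_le_rpow (hs x y ?_) hq.le
            rw [abs_le]
            constructor <;> linarith [hy.1, hy.2]
        _ ≤ ∫⁻ y, K ^ q * Φ y ^ q := setLIntegral_le_lintegral _ _
        _ = _ := lintegral_const_mul _ (hΦ.pow_const q)
    rw [← ENNReal.rpow_le_rpow_iff hq, ENNReal.mul_rpow_of_nonneg _ _ hq.le, nrm_rpow hq, hD,
      ENNReal.mul_rpow_of_nonneg _ _ hq.le, ← ENNReal.rpow_mul, one_div_mul_cancel hq.ne',
      ENNReal.rpow_one]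
    calc Φ x ^ q = Φ x ^ q * ENNReal.ofReal ρ * (ENNReal.ofReal ρ)⁻¹ := by
          rw [mul_assoc, ENNReal.mul_inv_cancel hρ' ENNReal.ofReal_ne_top, mul_one]
      _ ≤ (K ^ q * ∫⁻ y, Φ y ^ q) * (ENNReal.ofReal ρ)⁻¹ := mul_le_mul_left h2 _
      _ = _ := by ring
  by_cases hfin : nrm q Φ = ∞
  · by_cases hD0 : D ^ (1 - q / r) = 0
    · have hD0' : D = 0 := by
        rw [ENNReal.rpow_eq_zero_iff] at hD0
        rcases hD0 with h | h
        · exact h.1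
        · exact absurd h.1 hDt
      have : ∀ x, Φ x ≤ 0 := fun x => by simpa [hD0'] using hsup x
      exact ((nrm_mono hr this).trans (le_of_eq (nrm_zero hr))).trans zero_le
    · rw [hfin, ENNReal.mul_top hD0]
      exact le_top
  refine nrm_le_of_rpow_le hr ?_
  have hDn : (D * nrm q Φ) ^ (r - q) ≠ ∞ :=
    ENNReal.rpow_ne_top_of_nonneg (by linarith) (ENNReal.mul_ne_top hDt hfin)
  calc ∫⁻ x, Φ x ^ r ≤ ∫⁻ x, (D * nrm q Φ) ^ (r - q) * Φ x ^ q := by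
        refine lintegral_mono fun x => ?_
        calc Φ x ^ r = Φ x ^ (r - q) * Φ x ^ q := by
              rw [← ENNReal.rpow_add_of_nonneg _ _ (by linarith) hq.le]
              congr 1
              ring
          _ ≤ _ := mul_le_mul_left (ENNReal.rpow_le_rpow (hsup x) (by linarith)) _
    _ = (D * nrm q Φ) ^ (r - q) * nrm q Φ ^ q := by
        rw [lintegral_const_mul' _ _ hDn, nrm_rpow hq]
    _ = _ := by
        rw [ENNReal.mul_rpow_of_nonneg _ _ (by linarith), ENNReal.mul_rpow_of_nonneg _ _ hr.le,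
          mul_assoc, ← ENNReal.rpow_add_of_nonneg _ _ (by linarith) hq.le, ← ENNReal.rpow_mul]
        congr 2
        · field_simp
        · ring

lemma absorb {x a : ℝ≥0∞} (hx : x ≠ ∞) (h : x ≤ a + 2⁻¹ * x) : x ≤ 2 * a := by
  have h1 : x = 2⁻¹ * x + 2⁻¹ * x := by
    rw [← add_mul, ENNReal.inv_two_add_inv_two, one_mul]
  have h2 : 2⁻¹ * x ≠ ∞ := ENNReal.mul_ne_top (by simp) hx
  have h3 : 2⁻¹ * x ≤ a := by
    exact (ENNReal.add_le_add_iff_right h2).1 (h1.symm.le.trans h)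
  calc x = 2 * (2⁻¹ * x) := by
        rw [← mul_assoc, ENNReal.mul_inv_cancel (by simp) (by simp), one_mul]
    _ ≤ 2 * a := mul_le_mul_right h3 _

/-- Small positive reals make a finite constant small. -/
lemma exists_small {C : ℝ≥0∞} (hC : C ≠ ∞) {η : ℝ≥0∞} (hη : η ≠ 0) :
    ∃ ε : ℝ, 0 < ε ∧ ε ≤ 1 ∧ C * ENNReal.ofReal ε ≤ η := by
  have h1 : Tendsto (fun ε : ℝ => C * ENNReal.ofReal ε) (𝓝[>] 0) (𝓝 0) := by
    have : Tendsto (fun ε : ℝ => ENNReal.ofReal ε) (𝓝[>] 0) (𝓝 0) := by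
      have := (ENNReal.continuous_ofReal.tendsto 0).mono_left (nhdsWithin_le_nhds (s := Ioi 0))
      simpa using this
    simpa using ENNReal.Tendsto.const_mul this (Or.inr hC)
  have h2 := h1.eventually (ge_mem_nhds (pos_iff_ne_zero.2 hη))
  have h3 : ∀ᶠ ε : ℝ in 𝓝[>] 0, ε ≤ 1 :=
    mem_nhdsWithin_of_mem_nhds (ge_mem_nhds one_pos)
  obtain ⟨ε, hε⟩ := (h2.and (h3.and self_mem_nhdsWithin)).exists
  exact ⟨ε, hε.2.2, hε.2.1, hε.1⟩

end

end Pool.Agent.P.MP_a3f7df_an
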